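import Pool.Agent.H46.FF.Defs

set_option autoImplicit false

namespace Pool.Agent.H46.FF

open IsLocalRing WithZero Polynomial IntermediateField Module

class IsFF (k K : Type) [Field k] [Field K] [Algebra k K] : Prop where
  ex : ∃ φ : RatFunc k →ₐ[k] K, φ.toRingHom.Finite

class Pl (K : Type) [Field K] : Prop where
  dvr : ∀ x : Place K, IsDiscreteValuationRing x.1
  fin : ∀ x : Place K, Finite (ResidueField x.1)

variable {k K : Type} [Field k] [Field K] [Algebra k K]

lemma IsFF.fin [IsFF k K] {t : K} (ht : Transcendental k t) : FiniteDimensional k⟮t⟯ K := by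
  obtain ⟨φ, h⟩ := IsFF.ex (k := k) (K := K)
  let := φ.toRingHom.toAlgebra
  have : IsScalarTower k (RatFunc k) K := .of_algebraMap_eq fun c => (φ.commutes c).symm
  have : FunctionField k K := h
  exact FunctionField.finiteDimensional_of_adjoin_transcendental ht

variable (k K) in
lemma IsFF.ex_t [IsFF k K] : ∃ t : K, Transcendental k t := by
  obtain ⟨φ, -⟩ := IsFF.ex (k := k) (K := K)
  exact ⟨φ RatFunc.X, fun h => RatFunc.transcendental_X
    ((isAlgebraic_algHom_iff φ φ.injective).mp h)⟩

variable (k K) in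
lemma IsFF.ext [IsFF k K] (K' : Type) [Field K'] [Algebra k K'] [Algebra K K'] [IsScalarTower k K K']
    [FiniteDimensional K K'] : IsFF k K' := by
  obtain ⟨φ, h⟩ := IsFF.ex (k := k) (K := K)
  exact ⟨(IsScalarTower.toAlgHom k K K').comp φ,
    RingHom.Finite.comp (g := algebraMap K K') (RingHom.finite_algebraMap.mpr inferInstance) h⟩

lemma indep_le [IsFF k K] {x : K} (hx : Transcendental k x) (O : Submodule k K)
    (hO : ∀ z ∈ O, x * z ∈ O) {ι : Type} [Fintype ι] (u : ι → K) (hu : ∀ i, u i ∈ O)
    (h : ∀ c : ι → k, (∃ z ∈ O, ∑ i, c i • u i = x * z) → c = 0) :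
    Fintype.card ι ≤ finrank k⟮x⟯ K := by
  have := IsFF.fin hx
  have x0 : x ≠ 0 := by rintro rfl; exact hx isAlgebraic_zero
  have m : ∀ (p : k[X]) (i), aeval x p * u i ∈ O := fun p i => by
    induction p using Polynomial.induction_on with
    | C a => simpa [← Algebra.smul_def] using O.smul_mem a (hu i)
    | add p q a b => simpa [add_mul] using O.add_mem a b
    | monomial n a b => convert hO _ b using 1; simp; ring
  have key : ∀ n (p : ι → k[X]), ∑ i, aeval x (p i) * u i = 0 → ∀ i, (p i).coeff n = 0 := by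
    have e : ∀ p : ι → k[X], ∑ i, aeval x (p i) * u i =
        x * ∑ i, aeval x (divX (p i)) * u i + ∑ i, (p i).coeff 0 • u i := fun p => by
      rw [Finset.mul_sum, ← Finset.sum_add_distrib]
      refine Finset.sum_congr rfl fun i _ => ?_
      have := congrArg (aeval x) (X_mul_divX_add (p i))
      simp only [map_add, map_mul, aeval_X, aeval_C] at this
      rw [Algebra.smul_def, ← this]; ring
    have z : ∀ p : ι → k[X], ∑ i, aeval x (p i) * u i = 0 → ∀ i, (p i).coeff 0 = 0 :=
      fun p hp => congrFun (h _ ⟨_, O.neg_mem (O.sum_mem fun i _ => m (divX (p i)) i), by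
        linear_combination hp - e p⟩)
    intro n
    induction n with
    | zero => exact z
    | succ n ih =>
      intro p hp i
      rw [← coeff_divX]
      refine ih (fun i => divX (p i)) (mul_left_cancel₀ x0 ?_) i
      simpa [z p hp, hp] using (e p).symm
  refine LinearIndependent.fintype_card_le_finrank (b := u) ?_
  open scoped IntermediateField.algebraAdjoinAdjoin in
  rw [← LinearIndependent.iff_fractionRing (Algebra.adjoin k {x}), Fintype.linearIndependent_iff]
  intro g hg i
  choose p hp using fun i => Algebra.adjoin_mem_exists_aeval k x (g i).2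
  have : p i = 0 := Polynomial.ext fun n => key n p (by simp only [hp]; exact hg) i
  exact Subtype.ext (by simp [← hp, this])

variable [Finite k]

lemma alg_mem {z : K} (hz : IsAlgebraic k z) (V : ValuationSubring K) : z ∈ V := by
  have := adjoin.finiteDimensional hz.isIntegral
  have : Finite k⟮z⟯ := Module.finite_of_finite k
  rcases eq_or_ne z 0 with rfl | z0
  · exact V.zero_mem
  obtain ⟨n, hn, e⟩ := isOfFinOrder_iff_pow_eq_one.mp (isOfFinOrder_iff_isUnit.mpr
    (Ne.isUnit (show AdjoinSimple.gen k z ≠ 0 from fun h => z0 (congrArg Subtype.val h))))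
  replace e : z ^ n = 1 := congrArg Subtype.val e
  refine (V.mem_or_inv_mem z).elim id fun h => ?_
  obtain ⟨n, rfl⟩ := Nat.exists_eq_succ_of_ne_zero hn.ne'
  rw [eq_inv_of_mul_eq_one_right ((pow_succ z n).symm.trans e), ← inv_pow]
  exact pow_mem h n

noncomputable instance algV (V : ValuationSubring K) : Algebra k V :=
  ((algebraMap k K).codRestrict V.toSubring fun c => alg_mem (isAlgebraic_algebraMap c) V).toAlgebra

lemma algV_coe (V : ValuationSubring K) (c : k) : (algebraMap k V c : K) = algebraMap k K c := rfl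

lemma smulV_coe (V : ValuationSubring K) (c : k) (z : V) : ((c • z : V) : K) = c • (z : K) := by
  rw [Algebra.smul_def, Algebra.smul_def]; rfl

variable (k K) in
theorem IsFF.pl [IsFF k K] : Pl K := by
  have key : ∀ V : ValuationSubring K, Ring.HasFiniteQuotients V := fun V => ⟨fun {I} hI => by
    rcases eq_or_ne I ⊤ with rfl | h
    · infer_instance
    obtain ⟨x, hx, x0⟩ := Submodule.exists_mem_ne_zero_of_ne_bot hI
    have tr : Transcendental k (x : K) := fun a => h (I.eq_top_of_isUnit_mem hx
      (.of_mul_eq_one (⟨_, alg_mem a.inv V⟩ : V) (Subtype.ext (mul_inv_cancel₀ (by simpa using x0)))))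
    have : Module.rank k (V ⧸ Ideal.span {x}) ≤ finrank k⟮(x : K)⟯ K := rank_le fun s hs => by
      choose u hu using fun i : s => Ideal.Quotient.mk_surjective i.1
      rw [← Fintype.card_coe]
      refine indep_le tr ⟨V.toSubring.toAddSubmonoid, fun c z hz =>
        smulV_coe V c ⟨z, hz⟩ ▸ (c • (⟨z, hz⟩ : V)).2⟩
        (fun z hz => V.mul_mem _ _ x.2 hz) (fun i => u i) (fun i => (u i).2) fun c hc => ?_
      obtain ⟨z, hz, e⟩ := hc
      refine funext (Fintype.linearIndependent_iff.mp hs c ?_)
      simp only [← hu, ← Ideal.Quotient.mkₐ_eq_mk k, ← map_smul, ← map_sum]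
      refine Ideal.Quotient.eq_zero_iff_mem.mpr (Ideal.mem_span_singleton.mpr ⟨⟨z, hz⟩, ?_⟩)
      exact Subtype.ext (by simpa [smulV_coe] using e)
    have := Module.rank_lt_aleph0_iff.mp (this.trans_lt Cardinal.natCast_lt_aleph0)
    have := Module.finite_of_finite k (M := V ⧸ Ideal.span {x})
    exact .of_surjective _ (Ideal.Quotient.factor_surjective ((Ideal.span_singleton_le_iff_mem I).mpr hx))⟩
  have nf : ∀ x : Place K, ¬IsField x.1 := fun x h => x.2 (top_unique fun z _ => by
    refine (x.1.mem_or_inv_mem z).elim id fun hz => ?_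
    rcases eq_or_ne z 0 with rfl | z0
    · exact x.1.zero_mem
    obtain ⟨b, hb⟩ := h.mul_inv_cancel (a := ⟨_, hz⟩)
      fun e => inv_ne_zero z0 (congrArg Subtype.val e)
    have : z = b := by simpa [inv_mul_eq_iff_eq_mul₀ z0, eq_comm] using congrArg Subtype.val hb
    exact this ▸ b.2)
  refine ⟨fun x => ?_, fun x => ?_⟩
  · have := key x.1
    exact ((IsDiscreteValuationRing.TFAE x.1 (nf x)).out 0 1).mpr 
      (inferInstance : ValuationRing x.1)
  · exact (key x.1).finiteQuotient (isField_iff_maximalIdeal_eq.not.mp (nf x))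

end Pool.Agent.H46.FF
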