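import Pool.Agent.H46.FF.Euler

set_option autoImplicit false

namespace Pool.Agent.H46.FF

open IsLocalRing Finsupp PowerSeries
open scoped Polynomial

variable {k K : Type} [Field k] [Field K] [Algebra k K] {G R : Type} [CommGroup G]
  [Finite k] [Pl K] [IsFF k K]

lemma fin_M (D : Dv K) : (M k Set.univ D : Set K).Finite :=
  have := Module.finite_of_finite k (M := M k Set.univ D)
  Set.toFinite _

lemma card_M (D : Dv K) : (M k Set.univ D : Set K).ncard = Nat.card k ^ (ell k D).toNat :=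
  Module.natCard_eq_pow_finrank (K := k) (V := M k Set.univ D)

theorem count [CommRing R] {U : Set (Place K)} (g : Place K → G) (χ : G →* R) (P : K → Prop)
    (N : ℤ → R) (c : ℤ)
    (h1 : ∀ f, P f → f ≠ 0 ∧ P f⁻¹ ∧ (∀ x ∉ U, lg x f = 0) ∧ Psi g (pd k f) = 1)
    (h2 : ∀ D : Dv K, (∀ x ∉ U, D x = 0) → c ≤ dg k D →
      ({f | P f ∧ f ∈ M k Set.univ D}.ncard : R) = N (dg k D))
    (D₀ : Dv K) (h0 : ∀ x ∉ U, D₀ x = 0) (d : ℤ) (hd : c ≤ d) (hd' : c ≤ d + dg k D₀) :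
    N (d + dg k D₀) * χ (Psi g D₀) * T k U g χ d = N d * T k U g χ (d + dg k D₀) := by
  have fin : ∀ D, {f | P f ∧ f ∈ M k Set.univ D}.Finite := fun D =>
    (fin_M (k := k) D).subset fun _ h => h.2
  have key : ∀ D D₁ d f, (∀ x ∉ U, D₁ x = 0) → D ∈ E k U d → f ∈ (fin (D + D₁)).toFinset →
      D + D₁ - pd k f ∈ E k U (d + dg k D₁) ∧ f⁻¹ ∈ (fin (D + D₁ - pd k f + -D₁)).toFinset := by
    simp only [mem_E, Set.Finite.mem_toFinset, Set.mem_ofPred_eq]
    rintro D D₁ d f a ⟨b, c, rfl⟩ ⟨e, m⟩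
    obtain ⟨f0, e1, e2, -⟩ := h1 f e
    refine ⟨⟨sub_nonneg.mpr fun x => (bd_iff f0).mp (m x trivial), fun x hx => ?_, ?_⟩, e1,
      fun x _ => (bd_iff (inv_ne_zero f0)).mpr ?_⟩
    · simp [a x hx, c x hx, e2 x hx]
    · simp [dg_pd]
    · simpa [lg_inv] using b x
  have c1 : ∀ D, (∀ x ∉ U, D x = 0) → c ≤ dg k D → ∀ r : R,
      ∑ _f ∈ (fin D).toFinset, r = N (dg k D) * r := fun D a b r => by
    rw [Finset.sum_const, nsmul_eq_mul, ← h2 D a b, Set.ncard_eq_toFinset_card _ (fin D)]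
  trans ∑ D ∈ E k U d, ∑ _f ∈ (fin (D + D₀)).toFinset, χ (Psi g (D + D₀))
  · rw [T, Finset.mul_sum]
    refine Finset.sum_congr rfl fun D hD => ?_
    obtain ⟨-, a, b⟩ := mem_E.mp hD
    rw [c1 _ (fun x hx => by simp [a x hx, h0 x hx]) (by rwa [map_add, b]), map_add, b, Psi_add,
      map_mul]
    ring
  trans ∑ D ∈ E k U (d + dg k D₀), ∑ _f ∈ (fin (D + -D₀)).toFinset, χ (Psi g D)
  · rw [Finset.sum_sigma', Finset.sum_sigma']
    have i : ∀ f : K, pd k f⁻¹ = -pd k f := fun f => Finsupp.ext fun x => lg_inv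
    refine Finset.sum_nbij' (fun a : Σ _ : Dv K, K => (⟨a.1 + D₀ - pd k a.2, a.2⁻¹⟩ : Σ _ : Dv K, K))
      (fun a : Σ _ : Dv K, K => (⟨a.1 + -D₀ - pd k a.2, a.2⁻¹⟩ : Σ _ : Dv K, K)) (fun a ha => ?_) (fun a ha => ?_)
      (fun ⟨a, b⟩ _ => by simp [i]; abel) (fun ⟨a, b⟩ _ => by simp [i]; abel) fun a ha => ?_
    all_goals rw [Finset.mem_sigma] at *
    · exact key _ _ _ _ h0 ha.1 ha.2
    · simpa using key _ _ _ _ (fun x hx => by simp [h0 x hx]) ha.1 ha.2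
    · simp [(h1 _ ((Set.Finite.mem_toFinset _).mp ha.2).1).2.2.2]
  rw [T, Finset.mul_sum]
  refine Finset.sum_congr rfl fun D hD => ?_
  obtain ⟨-, a, b⟩ := mem_E.mp hD
  rw [c1 _ (fun x hx => by simp [a x hx, h0 x hx]) (by simpa [b]), map_add, map_neg, b,
    add_neg_cancel_right]

noncomputable def Sd (S : Finset (Place K)) : Dv K := ∑ x ∈ S, single x 1

omit [Pl K] in
open Classical in
lemma Sd_apply (S : Finset (Place K)) (x : Place K) : Sd S x = if x ∈ S then 1 else 0 := by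
  simp [Sd, finsetSum_apply, single_apply]

theorem shift [CommRing R] [IsDomain R] [CharZero R] (g : Place K → G) (χ : G →* R)
    {S : Finset (Place K)} (hS : S.Nonempty) {c₀ : ℤ} (hc : 0 < c₀)
    (hr : ∀ f, (∀ x ∈ S, Bd x (-c₀) (f - 1)) → Psi g (pd k f) = 1) :
    ∃ c : ℕ, ∀ D₀ : Dv K, (∀ x ∈ S, D₀ x = 0) → ∀ δ d : ℕ, dg k D₀ = δ → c ≤ d →
      T k (S : Set (Place K))ᶜ g χ (d + δ) =
        Nat.card k ^ δ * χ (Psi g D₀) * T k (S : Set (Place K))ᶜ g χ d := by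
  classical
  obtain ⟨γ, c, h1, h2⟩ := riemann' k K
  set s := dg k (c₀ • Sd S)
  refine ⟨(max c γ + s).toNat, fun D₀ h0 δ d hδ hd => ?_⟩
  have := count (k := k) (U := (S : Set (Place K))ᶜ) g χ (fun f => ∀ x ∈ S, Bd x (-c₀) (f - 1))
    (fun d => Nat.card k ^ (d - s - γ).toNat) (c + s) (fun f hf => ?_) (fun D hD hc' => ?_) D₀
    (by simpa using h0) d (by omega) (by omega)
  · rw [hδ, show (d + δ - s - γ : ℤ).toNat = (d - s - γ : ℤ).toNat + δ by omega, pow_add,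
      mul_assoc, mul_assoc] at this
    rw [mul_assoc, mul_left_cancel₀ (pow_ne_zero _ (Nat.cast_ne_zero.mpr Nat.card_pos.ne')) this]
  · have a : ∀ x ∈ S, f ≠ 0 ∧ lg x f = 0 := fun x hx => by
      simpa [lg_one] using lg_add (x := x) one_ne_zero ((hf x hx).mono (by rw [lg_one]; omega))
    have f0 := (a _ hS.choose_spec).1
    refine ⟨f0, fun x hx => ?_, fun x hx => (a x (by simpa using hx)).2, hr f hf⟩
    rw [show f⁻¹ - 1 = f⁻¹ * -(f - 1) by field_simp; ring, bd_mul_iff (inv_ne_zero f0), lg_inv,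
      (a x hx).2]
    simpa using (hf x hx).neg
  have D0 : ∀ x ∈ S, D x = 0 := by simpa using hD
  have e : ∀ x, (c₀ • Sd S) x = if x ∈ S then c₀ else 0 := fun x => by simp [Sd_apply]
  obtain ⟨z, z1, z2⟩ := approx h2 D (c₀ • Sd S) (fun x => by rw [e]; split_ifs <;> simp [hc.le])
    (by simp) (w := 1) (by omega) fun x hx => by
      rw [D0 x (by_contra fun c => hx (by simp [e, c]))]; exact .one
  replace z2 : ∀ x ∈ S, Bd x (-c₀) (z - 1) := fun x hx => by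
    simpa [e, hx, D0 x hx] using z2 x (by simp [e, hx, hc.ne'])
  rw [show {f | (∀ x ∈ S, Bd x (-c₀) (f - 1)) ∧ f ∈ M k Set.univ D} =
    (z + ·) '' M k Set.univ (D - c₀ • Sd S) from Set.ext fun f => ⟨fun ⟨a, b⟩ =>
      ⟨f - z, fun x _ => ?_, by simp⟩, ?_⟩,
    Set.ncard_image_of_injective _ (add_right_injective z), card_M, h1 _ (by rw [map_sub]; omega),
    map_sub]
  · simp [s]
  · rw [Finsupp.sub_apply, e]
    split_ifs with hx
    · simpa [D0 x hx] using (a x hx).sub (z2 x hx)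
    · simpa using (b x trivial).sub (z1 x trivial)
  · rintro ⟨u, hu, rfl⟩
    refine ⟨fun x hx => ?_, add_mem z1 (M_mono (sub_le_self _ fun x => ?_) hu)⟩
    · have := hu x trivial
      rw [Finsupp.sub_apply, e, if_pos hx, D0 x hx, zero_sub] at this
      simpa [add_sub_right_comm] using (z2 x hx).add this
    · rw [e]; split_ifs <;> simp [hc.le]

lemma poly_of [CommRing R] (φ : R⟦X⟧) (B : ℕ) (h : ∀ n, B ≤ n → coeff n φ = 0) :
    ∃ P : R[X], (P : R⟦X⟧) = φ :=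
  ⟨trunc B φ, PowerSeries.ext fun n => by
    rw [Polynomial.coeff_coe, coeff_trunc]
    split_ifs with e
    exacts [rfl, (h n (by omega)).symm]⟩

theorem eul_poly [CommRing R] [IsDomain R] [CharZero R] (g : Place K → G) (χ : G →* R)
    {S : Finset (Place K)} (hS : S.Nonempty) {c₀ : ℤ} (hc : 0 < c₀)
    (hr : ∀ f, (∀ x ∈ S, Bd x (-c₀) (f - 1)) → Psi g (pd k f) = 1) {D₀ : Dv K}
    (h0 : ∀ x ∈ S, D₀ x = 0) (h1 : dg k D₀ = 0) (h2 : χ (Psi g D₀) ≠ 1) :
    ∃ P : R[X], (P : R⟦X⟧) = Eul k (S : Set (Place K))ᶜ g χ := by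
  obtain ⟨c, h⟩ := shift g χ hS hc hr
  refine poly_of _ c fun n hn => ?_
  have := h D₀ h0 0 n h1 hn
  simp only [Nat.cast_zero, add_zero, pow_zero, one_mul] at this
  simpa [Eul, h2] using mul_left_eq_self₀.mp this.symm

theorem zeta_poly1 {S : Finset (Place K)} (hS : S.Nonempty) {x : Place K} (hx : x ∉ S) :
    ∃ P : ℚ[X], (P : ℚ⟦X⟧) = (X ^ deg k x - C ((Nat.card k : ℚ) ^ deg k x)⁻¹) *
      Zeta k ℚ (S : Set (Place K))ᶜ := by
  obtain ⟨c, h⟩ := shift (k := k) (fun _ => (1 : Unit)) (1 : _ →* ℚ) hS one_pos fun _ _ => rfl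
  refine poly_of _ (c + deg k x) fun n hn => ?_
  have := h (single x 1) (fun y hy => single_eq_of_ne (by rintro rfl; exact hx hy)) (deg k x)
    (n - deg k x) (by simp) (by omega)
  rw [← eul_one (fun _ => (1 : Unit)), sub_mul, map_sub, coeff_X_pow_mul', coeff_C_mul,
    if_pos (by omega)]
  rw [← Nat.cast_add, Nat.sub_add_cancel (by omega)] at this
  have q : (Nat.card k : ℚ) ≠ 0 := Nat.cast_ne_zero.mpr Nat.card_pos.ne'
  simp [Eul, this, q]

theorem zeta_poly {D : Dv K} (hD : dg k D = 1) : ∃ P : ℤ[X], (P : ℤ⟦X⟧) =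
    (1 - X) * (1 - C (Nat.card k : ℤ) * X) * Zeta k ℤ (Set.univ : Set (Place K)) := by
  obtain ⟨γ, c, h1⟩ := riemann k K
  have := count (k := k) (U := (Set.univ : Set (Place K))) (fun _ => (1 : Unit)) (1 : _ →* ℤ) (· ≠ 0)
    (fun d => Nat.card k ^ (d - γ).toNat - 1) c (fun f hf => ⟨hf, inv_ne_zero hf, by simp, rfl⟩)
    (fun D _ hc => by
      rw [show {f | f ≠ 0 ∧ f ∈ M k Set.univ D} = (M k Set.univ D : Set K) \ {0} from
        Set.ext fun f => and_comm, Set.ncard_sdiff_singleton_of_mem (zero_mem _), card_M, h1 D hc,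
        Nat.cast_sub (Nat.one_le_pow _ _ Nat.card_pos)]
      simp) D (by simp)
  refine poly_of _ ((max c γ).toNat + 2) fun n hn => ?_
  obtain ⟨n, rfl⟩ := Nat.exists_eq_add_of_le' (show 2 ≤ n by omega)
  have a := this n (by omega) (by omega)
  have b := this (n + 1) (by omega) (by omega)
  rw [hD, show (n + 1 - γ : ℤ).toNat = (n - γ : ℤ).toNat + 1 by omega] at a b
  rw [show (n + 1 + 1 - γ : ℤ).toNat = (n - γ : ℤ).toNat + 2 by omega] at b
  have q : (Nat.card k : ℤ) ^ ((n - γ : ℤ).toNat + 1) - 1 ≠ 0 := sub_ne_zero.mpr (by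
    exact_mod_cast (Nat.one_lt_pow (Nat.succ_ne_zero _) Finite.one_lt_card).ne')
  rw [← eul_one (fun _ => (1 : Unit)), sub_mul, one_mul, sub_mul, mul_assoc X]
  simp only [sub_mul, one_mul, mul_assoc, map_sub, coeff_succ_X_mul, coeff_C_mul, Eul, coeff_mk]
  simp only [MonoidHom.one_apply, mul_one] at a b
  push_cast
  refine mul_left_cancel₀ q ?_
  rw [show (n + 2 : ℤ) = n + 1 + 1 by ring]
  linear_combination -b + (Nat.card k : ℤ) * a

end Pool.Agent.H46.FF
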