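import Mathlib

set_option autoImplicit false

namespace Pool.Agent.H46.FF

open IsLocalRing

/-- The closed points of the smooth projective curve with function field `K` (over a finite
field): the valuation subrings of `K` other than `K`. -/
abbrev Place (K : Type) [Field K] : Type := {V : ValuationSubring K // V ≠ ⊤}

/-- The degree over `k` of a closed point: its residue field has `|k| ^ deg` elements. -/
noncomputable def deg (k : Type) {K : Type} [Field K] (x : Place K) : ℕ :=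
  Nat.log (Nat.card k) (Nat.card (ResidueField x.1))

variable {K K' : Type} [Field K] [Field K'] [Algebra K K']

/-- The point `y` of the cover lies above the point `x`. -/
def Over (y : Place K') (x : Place K) : Prop := y.1.comap (algebraMap K K') = x.1

/-- `x` is unramified in `K'`: all inertia groups above `x` are trivial. -/
def Unram (K' : Type) [Field K'] [Algebra K K'] (x : Place K) : Prop :=
  ∀ y : Place K', Over y x → y.1.inertiaSubgroup K = ⊥

/-- `σ` is an arithmetic Frobenius element at some point above `x`. -/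
def IsFrob (x : Place K) (σ : K' ≃ₐ[K] K') : Prop :=
  ∃ y : Place K', Over y x ∧
    ∀ b ∈ y.1, σ b - b ^ Nat.card (ResidueField x.1) ∈ y.1.nonunits

/-- The Frobenius element of `x` (unique when `x` is unramified in an abelian extension). -/
noncomputable def frob (K' : Type) [Field K'] [Algebra K K'] (x : Place K) : K' ≃ₐ[K] K' :=
  Classical.epsilon (IsFrob x)

/-- `F 0 ⊆ F 1 ⊆ ⋯` is a geometric `ℤ_p`-tower over `K` with finite ramification locus. -/
structure IsTower (p : ℕ) (k K : Type) [Field k] [Field K] (F : ℕ → Type) [∀ n, Field (F n)]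
    [∀ n, Algebra k (F n)] [∀ n, Algebra K (F n)] : Prop where
  fin : ∀ n, FiniteDimensional K (F n)
  gal : ∀ n, IsGalois K (F n)
  cyc : ∀ n, Nonempty ((F n ≃ₐ[K] F n) ≃* Multiplicative (ZMod (p ^ n)))
  emb : ∀ n, Nonempty (F n →ₐ[K] F (n + 1))
  geom : ∀ n, algebraicClosure k (F n) = ⊥
  ram : {x : Place K | ∃ n, ¬Unram (F n) x}.Finite

/-- The value group `|E^×|` of a subfield `E` of `ℂ_p`. -/
def vgrp {p : ℕ} [Fact p.Prime] (E : IntermediateField ℚ_[p] ℂ_[p]) : Subgroup ℝˣ where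
  carrier := {r | ∃ z ∈ E, ‖z‖ = r}
  one_mem' := ⟨1, one_mem E, norm_one⟩
  mul_mem' := fun ⟨z, a, b⟩ ⟨w, c, d⟩ => ⟨z * w, mul_mem a c, by simp [b, d]⟩
  inv_mem' := fun ⟨z, a, b⟩ => ⟨z⁻¹, inv_mem a, by simp [b]⟩

/-- The ramification index `[|E^×| : |ℚ_p^×|]` of `E / ℚ_p`. -/
noncomputable def ramIdx {p : ℕ} [Fact p.Prime] (E : IntermediateField ℚ_[p] ℂ_[p]) : ℕ :=
  (vgrp (⊥ : IntermediateField ℚ_[p] ℂ_[p])).relIndex (vgrp E)

open PowerSeries in
open scoped PowerSeries.WithPiTopology in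
/-- `Z(s) = ∏_x (1 - s ^ deg x)⁻¹ = P(s) / ((1 - s) (1 - q s))` as formal power series. -/
def IsZetaNum (k K : Type) [Field K] (P : Polynomial ℤ) : Prop :=
  HasProd (fun x : Place K => (1 - X ^ deg k x : ℚ⟦X⟧)⁻¹)
    ((P.map (Int.castRingHom ℚ) : ℚ⟦X⟧) * ((1 - X) * (1 - C (Nat.card k : ℚ) * X))⁻¹)

open PowerSeries in
open scoped PowerSeries.WithPiTopology in
/-- `L(χ, s) = ∏_{x ∈ U} (1 - χ(Frob_x) s ^ deg x)⁻¹ = P(s)` as formal power series. -/
def IsLPoly {p : ℕ} [Fact p.Prime] (k : Type) (U : Set (Place K)) (χ : (K' ≃ₐ[K] K') →* ℂ_[p]ˣ)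
    (P : Polynomial ℂ_[p]) : Prop :=
  HasProd (fun x : U => (1 - C (χ (frob K' x.1) : ℂ_[p]) * X ^ deg k x.1)⁻¹) (P : ℂ_[p]⟦X⟧)

end Pool.Agent.H46.FF
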