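import Pool.Agent.H46.FF.Split

set_option autoImplicit false

namespace Pool.Agent.H46.FF

open IsLocalRing Finsupp Module

variable {k K G R : Type} [Field k] [Field K] [Algebra k K] [Fintype G] [CommRing R] [Algebra k R]

noncomputable def dt {ι : Type} [Fintype ι] [DecidableEq ι] (ε : G → R) (A : G → Matrix ι ι k) :
    R := (1 + ∑ g, ε g • (A g).map (algebraMap k R)).det

lemma dt_conj {Q ι κ : Type} [AddCommGroup Q] [Module k Q] [Fintype ι] [DecidableEq ι] [Fintype κ]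
    [DecidableEq κ] {v : ι → Q} {v' : κ → Q} (li : LinearIndependent k v)
    (li' : LinearIndependent k v') {P : Matrix ι κ k} {P' : Matrix κ ι k}
    (hP : ∀ j, v' j = ∑ i, P i j • v i) (hP' : ∀ j, v j = ∑ i, P' i j • v' i) (μ : G → Q →ₗ[k] Q)
    {A : G → Matrix ι ι k} {A' : G → Matrix κ κ k} (hA : ∀ g j, μ g (v j) = ∑ i, A g i j • v i)
    (hA' : ∀ g j, μ g (v' j) = ∑ i, A' g i j • v' i) (ε : G → R) : dt ε A = dt ε A' := by
  have e : ∀ {ι κ ν : Type} [Fintype ι] [Fintype κ] {v : ι → Q} {v' : κ → Q} {P : Matrix ι κ k},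
      (∀ j, v' j = ∑ i, P i j • v i) → ∀ (X : Matrix κ ν k) j,
        ∑ l, X l j • v' l = ∑ i, (P * X) i j • v i := fun h X j => by
    simp only [h, Finset.smul_sum, Matrix.mul_apply, Finset.sum_smul, smul_smul, mul_comm]
    exact Finset.sum_comm
  have a : P * P' = 1 := Matrix.ext fun i j => Fintype.linearIndependent_iffₛ.mp li _
    (fun i => (1 : Matrix ι ι k) i j)
    (by rw [← e hP P' j, ← hP']; simp [Matrix.one_apply]) i
  have b : P' * P = 1 := Matrix.ext fun i j => Fintype.linearIndependent_iffₛ.mp li' _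
    (fun i => (1 : Matrix κ κ k) i j)
    (by rw [← e hP' P j, ← hP]; simp [Matrix.one_apply]) i
  have c : ∀ g, A g = P * A' g * P' := fun g => Matrix.ext fun i j =>
    Fintype.linearIndependent_iffₛ.mp li (fun i => A g i j) (fun i => (P * A' g * P') i j) (by
      rw [← hA, Matrix.mul_assoc, ← e hP, ← e (hA' g), hP', map_sum]; simp) i
  have a' := congrArg (·.map (algebraMap k R)) a
  have b' := congrArg (·.map (algebraMap k R)) b
  simp only [Matrix.map_mul, Matrix.map_one _ (map_zero _) (map_one _)] at a' b'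
  rw [dt, dt, ← Matrix.det_conj_of_mul_eq_one a' b']
  simp [c, a', Matrix.mul_add, Matrix.add_mul, Matrix.mul_sum, Matrix.sum_mul, Matrix.map_mul]

lemma det_filt {ι : Type} [Fintype ι] [DecidableEq ι] (I : Ideal R) (wt : ι → ℤ) {c : ℕ}
    (hI : I ^ c = ⊥) (B Δ : Matrix ι ι R) (hB : ∀ i j, B i j ∈ I ^ (wt i - wt j).toNat)
    (hΔ : ∀ i j, Δ i j ∈ I ^ (wt i - wt j + c).toNat) : (B - Δ).det = B.det := by
  have m : ∀ {a b} {r s t : ℤ}, a ∈ I ^ r.toNat → b ∈ I ^ s.toNat → t ≤ r + s →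
      a * b ∈ I ^ t.toNat := fun h h' e =>
    Ideal.pow_le_pow_right (by omega) (pow_add I _ _ ▸ Ideal.mul_mem_mul h h')
  have key : ∀ (a δ : ι → R) (r : ι → ℤ), (∀ i, a i ∈ I ^ (r i).toNat) →
      (∀ i, δ i ∈ I ^ (r i + c).toNat) → ∀ s : Finset ι, ∏ i ∈ s, a i ∈ I ^ (∑ i ∈ s, r i).toNat ∧
        ∏ i ∈ s, (a i - δ i) - ∏ i ∈ s, a i ∈ I ^ (∑ i ∈ s, r i + c).toNat := fun a δ r h h' s => by
    induction s using Finset.induction_on with
    | empty => simp
    | insert i s hi ih =>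
      simp only [Finset.prod_insert hi, Finset.sum_insert hi]
      refine ⟨m (h i) ih.1 le_rfl, ?_⟩
      convert sub_mem (sub_mem (m (h i) ih.2 (add_assoc _ _ _).le) (m (h' i) ih.2 (by omega)))
        (m (h' i) ih.1 (by omega)) using 1
      ring
  rw [Matrix.det_apply, Matrix.det_apply]
  refine Finset.sum_congr rfl fun σ _ => congrArg _ (sub_eq_zero.mp ?_)
  have := (key (fun i => B (σ i) i) (fun i => Δ (σ i) i) (fun i => wt (σ i) - wt i)
    (fun _ => hB _ _) (fun _ => hΔ _ _) Finset.univ).2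
  simpa [Equiv.sum_comp σ wt, hI] using this

lemma adapted {V ι : Type} [AddCommGroup V] [Module k V] [Fintype ι] (A N : Submodule k V)
    (L : ℤ → Submodule k V) (hA : ∀ j, L j ≤ A) (B j₀ : ℕ) (hB : ∀ j < -(B : ℤ), L j = ⊥)
    (w₀ : ι → V) (h1 : ∀ i, w₀ i ∈ L j₀) (h2 : ∀ z ∈ A, ∃ c : ι → k, z - ∑ i, c i • w₀ i ∈ N) :
    ∃ (w : ι → V) (wt : ι → ℤ), (∀ i, w i ∈ L (wt i) ∧ wt i ≤ j₀) ∧
      (∀ z ∈ A, ∃ c : ι → k, z - ∑ i, c i • w i ∈ N) ∧
      ∀ j, ∀ z ∈ L j, ∃ c : ι → k, z - ∑ i, c i • w i ∈ N ∧ ∀ i, c i ≠ 0 → wt i ≤ j := by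
  classical
  have ex : ∃ n, ∃ (w : ι → V) (wt : ι → ℕ), ∑ i, wt i = n ∧
      (∀ i, w i ∈ L (wt i - B) ∧ (wt i - B : ℤ) ≤ j₀) ∧
        ∀ z ∈ A, ∃ c : ι → k, z - ∑ i, c i • w i ∈ N :=
    ⟨_, w₀, fun _ => j₀ + B, rfl, by simpa using h1, h2⟩
  obtain ⟨w, wt, a, b, c⟩ := Nat.find_spec ex
  refine ⟨w, fun i => wt i - B, b, c, fun j z hz => ?_⟩
  rcases lt_or_ge j (-B) with hj | hj
  · exact ⟨0, by simp [show z = 0 from (hB j hj).le hz], by simp⟩
  obtain ⟨u, hu⟩ := c z (hA j hz)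
  refine ⟨u, hu, fun i hi => not_lt.mp fun lt => Nat.find_min ex (m := ∑ l, Function.update wt i
    (j + B).toNat l) ?_ ⟨w + Pi.single i (z - w i), _, rfl, fun l => ?_, fun y hy => ?_⟩⟩
  all_goals beta_reduce at lt
  · rw [← a]
    refine Finset.sum_lt_sum (fun l _ => ?_) ⟨i, Finset.mem_univ i, by simp; omega⟩
    rw [Function.update_apply]; split_ifs with e <;> [subst e; skip] <;> omega
  · rcases eq_or_ne l i with rfl | e
    · have := (b l).2
      simpa [Int.toNat_of_nonneg (show 0 ≤ j + B by omega), hz] using (by omega : j ≤ j₀)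
    · simpa [e] using b l
  · obtain ⟨d, hd⟩ := c y hy
    refine ⟨d - (d i / u i) • u + Pi.single i (d i / u i), ?_⟩
    convert sub_mem hd (N.smul_mem (d i / u i) hu) using 1
    simp [add_smul, sub_smul, Finset.sum_add_distrib, Pi.single_apply, hi, smul_sub, smul_smul,
      Finset.smul_sum]
    abel

variable [Finite k] [Pl K] {U : Set (Place K)} {m : G → K} {ε : G → R}

variable (k U m ε) in
def IsDet (D : Dv K) (r : R) : Prop :=
  ∃ (ι : Type) (_ : Fintype ι) (_ : DecidableEq ι) (w : ι → K) (A : G → Matrix ι ι k),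
    (Fintype.card ι : ℤ) = dg k D ∧ (∀ i, w i ∈ M k U 0) ∧
    (∀ z ∈ M k U 0, ∃ c : ι → k, z - ∑ i, c i • w i ∈ M k U (-D)) ∧
    (∀ g j, m g * w j - ∑ i, A g i j • w i ∈ M k U (-D)) ∧ dt ε A = r

lemma M_mul {D : Dv K} {a z : K} (ha : a ∈ M k U 0) (hz : z ∈ M k U D) : a * z ∈ M k U D :=
  fun x hx => (ha x hx).mul0 (hz x hx)

theorem IsDet.unique (hs : ∀ c, Sur k U c) (hm : ∀ g, m g ∈ M k U 0) {D : Dv K} (h : 0 ≤ D)
    (hU : ∀ x ∉ U, D x = 0) {r r' : R} (h1 : IsDet k U m ε D r) (h2 : IsDet k U m ε D r') :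
    r = r' := by
  obtain ⟨ν, _, u, u1, u2, u3⟩ := indep hs D h hU
  let π := (M k U (-D)).mkQ
  have e : ∀ {ι : Type} [Fintype ι] {z} {w : ι → K} {c : ι → k},
      z - ∑ i, c i • w i ∈ M k U (-D) → π z = ∑ i, c i • π (w i) := fun h => by
    simp only [← map_smul, ← map_sum]; exact (Submodule.Quotient.eq _).mpr h
  have li : ∀ {ι : Type} [Fintype ι] {w : ι → K}, (Fintype.card ι : ℤ) = dg k D →
      (∀ z ∈ M k U 0, ∃ c : ι → k, z - ∑ i, c i • w i ∈ M k U (-D)) →
        LinearIndependent k fun i => π (w i) := fun {ι} _ w a b => by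
    have li' : LinearIndependent k fun i => π (u i) := Fintype.linearIndependent_iff.mpr fun c hc =>
      congrFun (u3 c ((Submodule.Quotient.mk_eq_zero _).mp (by
        simp only [← map_smul, ← map_sum] at hc; exact hc)))
    rw [linearIndependent_iff_card_le_finrank_span] at *
    have := Module.Finite.span_of_finite k (Set.finite_range fun i => π (w i))
    refine (Nat.cast_injective (a.trans u1.symm)).le.trans (li'.trans
      (Submodule.finrank_mono (Submodule.span_le.mpr ?_)))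
    rintro _ ⟨i, rfl⟩
    obtain ⟨c, hc⟩ := b _ (u2 i)
    beta_reduce
    rw [e hc]
    exact sum_mem fun j _ => Submodule.smul_mem _ _ (Submodule.subset_span ⟨j, rfl⟩)
  obtain ⟨ι, _, _, w, A, a1, a2, a3, a4, rfl⟩ := h1
  obtain ⟨κ, _, _, w', A', b1, b2, b3, b4, rfl⟩ := h2
  choose P hP using fun j => a3 _ (b2 j)
  choose P' hP' using fun j => b3 _ (a2 j)
  exact dt_conj (li a1 a3) (li b1 b3) (P := fun i j => P j i) (P' := fun i j => P' j i)
    (fun j => e (hP j)) (fun j => e (hP' j))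
    (fun g => Submodule.mapQ _ _ (LinearMap.mulLeft k (m g)) fun z hz => M_mul (hm g) hz)
    (fun g j => e (a4 g j)) (fun g j => e (b4 g j)) ε

variable (k m ε) in
noncomputable def nrm (y : Place K) : R :=
  dt ε fun g => Algebra.leftMulMatrix (finBasis k (ResidueField y.1)) (res y (m g))

theorem IsDet.step (hs : ∀ c, Sur k U c) (hm : ∀ g, m g ∈ M k U 0) {D : Dv K} (h : 0 ≤ D) {r : R}
    (h1 : IsDet k U m ε D r) {y : Place K} (hy : y ∈ U) :
    IsDet k U m ε (D + single y 1) (r * nrm k m ε y) := by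
  obtain ⟨ι, _, _, w, A, a1, a2, a3, a4, rfl⟩ := h1
  let e := finBasis k (ResidueField y.1)
  let ρ := rho (M k U (-D)) y ((-D) y) fun f hf => hf y hy
  have sj : Function.Surjective ρ := rho_surj.mpr (hs _ (-D) y hy le_rfl)
  choose z hz using fun j => sj (e j)
  have key : ∀ u : M k U (-D),
      u.1 - ∑ l, e.repr (ρ u) l • (z l).1 ∈ M k U (-(D + single y 1)) := fun u => by
    have := (rho_eq_zero (u - ∑ l, e.repr (ρ u) l • z l)).mp (show ρ _ = 0 by simp [hz])
    rw [neg_add', mem_M_step hy]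
    exact ⟨sub_mem u.2 (sum_mem fun l _ => Submodule.smul_mem _ _ (z l).2), by simpa using this⟩
  refine ⟨ι ⊕ Fin _, inferInstance, inferInstance, Sum.elim w fun j => z j, fun g =>
    Matrix.fromBlocks (A g) 0 (fun l j => e.repr (ρ ⟨_, a4 g j⟩) l)
      (Algebra.leftMulMatrix e (res y (m g))), by simp [a1, deg_eq], ?_, fun u hu => ?_, ?_, ?_⟩
  · rintro (i | j)
    exacts [a2 i, M_mono (neg_nonpos.mpr h) (z j).2]
  · obtain ⟨c, hc⟩ := a3 u hu
    exact ⟨Sum.elim c (e.repr (ρ ⟨_, hc⟩)), by simpa [← sub_sub] using key ⟨_, hc⟩⟩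
  · rintro g (j | j)
    · simpa [← sub_sub] using key ⟨_, a4 g j⟩
    · have : ρ ⟨_, M_mul (hm g) (z j).2⟩ = res y (m g) * e j := by
        rw [← hz]
        exact (congrArg (res y) (mul_left_comm _ _ _)).trans (res_mul (hm g y hy)
          ((bd_mul_iff pw_ne).mpr (by simpa [lg_pw] using (z j).2 y hy)))
      simpa [this, Algebra.leftMulMatrix_eq_repr_mul] using key ⟨_, M_mul (hm g) (z j).2⟩
  · rw [nrm, dt, dt, dt, ← Matrix.det_fromBlocks_zero₁₂ _ (∑ g, ε g •
      (Matrix.of fun l j => e.repr (ρ ⟨_, a4 g j⟩) l).map (algebraMap k R))]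
    congr 1
    ext (i | i) (j | j) <;> simp [Matrix.sum_apply, Matrix.one_apply, e]

theorem isDet_psi {H : Type} [CommGroup H] (hs : ∀ c, Sur k U c) (hm : ∀ g, m g ∈ M k U 0)
    (g : Place K → H) (χ : H →* R) (hn : ∀ y ∈ U, nrm k m ε y = χ (g y)) (D : Dv K) (h : 0 ≤ D)
    (hU : ∀ x ∉ U, D x = 0) : IsDet k U m ε D (χ (Psi g D)) :=
  eff_ind (p := fun D => IsDet k U m ε D (χ (Psi g D))) ⟨Empty, inferInstance, inferInstance, nofun, nofun, by simp, nofun,
    fun z hz => ⟨0, by simpa using hz⟩, nofun, by simp [dt]⟩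
    (fun D y D0 hy _ ih => by simpa [hn y hy] using ih.step hs hm D0 hy) D h hU

end Pool.Agent.H46.FF
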