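import Pool.Agent.H46.FF.Gal2

set_option autoImplicit false

namespace Pool.Agent.H46.FF

open IsLocalRing Finsupp PowerSeries Filter
open scoped PowerSeries.WithPiTopology

variable {k K : Type} [Field k] [Field K] [Algebra k K] {G R : Type} [CommGroup G]

noncomputable def Psi (g : Place K → G) (D : Dv K) : G :=
  (linearCombination ℤ (fun x => Additive.ofMul (g x)) D).toMul

@[simp] lemma Psi_add (g : Place K → G) (D E : Dv K) : Psi g (D + E) = Psi g D * Psi g E := by
  simp [Psi]
@[simp] lemma Psi_sub (g : Place K → G) (D E : Dv K) : Psi g (D - E) = Psi g D / Psi g E := by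
  simp [Psi]
@[simp] lemma Psi_neg (g : Place K → G) (D : Dv K) : Psi g (-D) = (Psi g D)⁻¹ := by simp [Psi]
@[simp] lemma Psi_zero (g : Place K → G) : Psi g 0 = 1 := by simp [Psi]
@[simp] lemma Psi_smul (g : Place K → G) (D : Dv K) (m : ℤ) : Psi g (m • D) = Psi g D ^ m := by
  simp [Psi]
@[simp] lemma Psi_single (g : Place K → G) (x : Place K) (m : ℤ) :
    Psi g (single x m) = g x ^ m := by simp [Psi]

lemma Psi_map {H : Type} [CommGroup H] {g : Place K → G} {h : Place K → H} (r : G →* H)
    {D : Dv K} (e : ∀ x, D x ≠ 0 → r (g x) = h x) : r (Psi g D) = Psi h D := by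
  simp only [Psi, linearCombination_apply, Finsupp.sum, toMul_sum, map_prod, toMul_zsmul,
    toMul_ofMul, map_zpow]
  exact Finset.prod_congr rfl fun x hx => by rw [e x (mem_support_iff.mp hx)]

variable [Finite k] [Pl K] [IsFF k K]

variable (k K) in
lemma fin_deg (d : ℕ) : {x : Place K | deg k x ≤ d}.Finite := by
  obtain ⟨t, ht⟩ := IsFF.ex_t k K
  have t0 : t ≠ 0 := by rintro rfl; exact ht isAlgebraic_zero
  have n0 := frob_ne ht (Nat.one_lt_pow d.factorial_ne_zero (Finite.one_lt_card (α := k)))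
  refine ((lg_fin k t).union (lg_fin k (t ^ Nat.card k ^ d.factorial - t))).subset fun x hx => ?_
  by_cases h : Bd x 0 t
  · have := (bd_iff n0).mp ((res_eq_res (by simpa using h.pow _) h).mp (by
      rw [res_pow h, (pow_fix x _).mpr (Nat.dvd_factorial (deg_pos x) hx)]))
    exact .inr (by simp only [Function.mem_support]; omega)
  · rw [bd_iff t0] at h
    exact .inl (by simp only [Function.mem_support]; omega)

omit [Finite k] [Pl K] [IsFF k K] [Field k] [Algebra k K] in
lemma le_dg {D : Dv K} (h : 0 ≤ D) (x : Place K) : D x * deg k x ≤ dg k D := by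
  classical
  have := dg_nonneg (k := k) (D := D - single x (D x)) fun y => by
    have := h y
    simp only [Finsupp.coe_zero, Pi.zero_apply, Finsupp.coe_sub, Pi.sub_apply, single_apply] at *
    split_ifs with e <;> [subst e; skip] <;> omega
  simpa using this

omit [IsFF k K] in
lemma le_dg' {D : Dv K} (h : 0 ≤ D) {x : Place K} (hx : D x ≠ 0) :
    D x ≤ dg k D ∧ deg k x ≤ dg k D := by
  have a := le_dg (k := k) h x
  have b : (1 : ℤ) ≤ deg k x := by exact_mod_cast deg_pos x
  have c : 1 ≤ D x := lt_of_le_of_ne (h x) hx.symm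
  constructor <;> nlinarith

variable (k) in
lemma fin_E (U : Set (Place K)) (d : ℤ) :
    {D : Dv K | 0 ≤ D ∧ (∀ x ∉ U, D x = 0) ∧ dg k D = d}.Finite := by
  classical
  refine (Set.finite_Icc 0 (∑ x ∈ (fin_deg k K d.toNat).toFinset, single x |d|)).subset
    fun D ⟨a, _, c⟩ => ⟨a, fun x => ?_⟩
  simp only [finsetSum_apply, single_apply, Finset.sum_ite_eq', Set.Finite.mem_toFinset,
    Set.mem_ofPred_eq]
  by_cases e : D x = 0
  · rw [e]; positivity
  · have := le_dg' (k := k) a e
    rw [if_pos (by omega)]; exact this.1.trans (c ▸ le_abs_self _)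

variable (k) in
noncomputable def E (U : Set (Place K)) (d : ℤ) : Finset (Dv K) := (fin_E k U d).toFinset

lemma mem_E {U : Set (Place K)} {d : ℤ} {D : Dv K} :
    D ∈ E k U d ↔ 0 ≤ D ∧ (∀ x ∉ U, D x = 0) ∧ dg k D = d := Set.Finite.mem_toFinset _

section
variable [CommRing R] {U : Set (Place K)} (g : Place K → G) (χ : G →* R)

variable (k U) in
noncomputable def T (d : ℤ) : R := ∑ D ∈ E k U d, χ (Psi g D)

variable (k U) in
noncomputable def Eul : R⟦X⟧ := PowerSeries.mk fun n => T k U g χ n

variable (k R U) in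
noncomputable def Zeta : R⟦X⟧ := PowerSeries.mk fun n => ((E k U n).card : R)

lemma eul_one : Eul k U g (1 : G →* R) = Zeta k R U := by simp [Eul, Zeta, T]

lemma T_insert {y : Place K} (hy : y ∉ U) (d : ℤ) :
    T k (insert y U) g χ d = T k U g χ d + χ (g y) * T k (insert y U) g χ (d - deg k y) := by
  classical
  rw [T, ← Finset.sum_filter_add_sum_filter_not _ (fun D : Dv K => D y = 0), T, T, Finset.mul_sum]
  congr 1
  · refine Finset.sum_congr (Finset.ext fun D => ?_) fun _ _ => rfl
    simp only [Finset.mem_filter, mem_E, Set.mem_insert_iff]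
    grind
  refine Finset.sum_nbij' (· - single y 1) (· + single y 1) (fun D hD => ?_) (fun D hD => ?_)
    (by simp) (by simp) fun D _ => by simp [← map_mul]
  all_goals simp only [Finset.mem_filter, mem_E, Set.mem_insert_iff, not_or] at hD ⊢
  · obtain ⟨⟨a, b, c⟩, e⟩ := hD
    refine ⟨fun x => ?_, fun x hx => by simp [b x hx, single_eq_of_ne hx.1], by simp [c]⟩
    have := a x; have := a y
    simp only [Finsupp.coe_zero, Pi.zero_apply, Finsupp.coe_sub, Pi.sub_apply, single_apply] at *
    split_ifs with e <;> [subst e; skip] <;> omega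
  · obtain ⟨a, b, c⟩ := hD
    have : 0 ≤ D y := a y
    exact ⟨⟨add_nonneg a (by simp), fun x hx => by simp [b x hx, single_eq_of_ne hx.1],
      by simp [c]⟩, by simp; omega⟩

lemma T_neg {d : ℤ} (h : d < 0) : T k U g χ d = 0 :=
  Finset.sum_eq_zero fun D hD => by
    have := dg_nonneg (k := k) (mem_E.mp hD).1
    have := (mem_E.mp hD).2.2
    omega

lemma eul_insert {y : Place K} (hy : y ∉ U) :
    Eul k (insert y U) g χ * (1 - C (χ (g y)) * X ^ deg k y) = Eul k U g χ := by
  ext n
  rw [mul_sub, mul_one, mul_comm, mul_assoc, map_sub, coeff_C_mul, coeff_X_pow_mul']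
  simp only [Eul, coeff_mk]
  rw [T_insert g χ hy n]
  split_ifs with h
  · simp [h]
  · simp [T_neg g χ (show (n : ℤ) - deg k y < 0 by omega)]

lemma eul_union (S : Finset (Place K)) (h : ∀ x ∈ S, x ∉ U) :
    Eul k (S ∪ U) g χ * ∏ x ∈ S, (1 - C (χ (g x)) * X ^ deg k x) = Eul k U g χ := by
  classical
  induction S using Finset.induction_on with
  | empty => simp
  | insert y S hy ih =>
    rw [Finset.forall_mem_insert] at h
    rw [Finset.prod_insert hy, ← mul_assoc, Finset.coe_insert, Set.insert_union,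
      eul_insert g χ (by simp [hy, h.1]), ih h.2]

lemma E_zero : E k U 0 = {0} := Finset.ext fun D => by
  rw [mem_E, Finset.mem_singleton]
  refine ⟨fun ⟨a, _, c⟩ => Finsupp.ext fun x => by_contra fun e => ?_, by rintro rfl; simp⟩
  have := (le_dg' (k := k) a e).2
  have := deg_pos (k := k) x
  omega

lemma eul_coeff_zero : constantCoeff (Eul k U g χ) = 1 := by simp [Eul, T, E_zero]

lemma eul_empty : Eul k (∅ : Set (Place K)) g χ = 1 := by
  ext (_ | n)
  · simp [eul_coeff_zero]
  · simp only [Eul, coeff_mk, coeff_one, n.succ_ne_zero, if_false]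
    refine Finset.sum_eq_zero fun D hD => ?_
    obtain ⟨-, b, c⟩ := mem_E.mp hD
    rw [show D = 0 from Finsupp.ext fun x => b x id, map_zero] at c
    omega

end

variable [Field R] [TopologicalSpace R]

omit [TopologicalSpace R] in
lemma inv_prod {ι : Type} (s : Finset ι) (f : ι → R⟦X⟧) : (∏ i ∈ s, f i)⁻¹ = ∏ i ∈ s, (f i)⁻¹ := by
  classical
  induction s using Finset.induction_on with
  | empty => simp
  | insert a s ha ih =>
    rw [Finset.prod_insert ha, Finset.prod_insert ha, PowerSeries.mul_inv_rev, ih, mul_comm]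

variable (k) in
theorem hasProd_eul (U : Set (Place K)) (g : Place K → G) (χ : G →* R) :
    HasProd (fun x : U => (1 - C (χ (g x)) * X ^ deg k x.1)⁻¹) (Eul k U g χ) := by
  refine (WithPiTopology.tendsto_iff_coeff_tendsto _ _ _ _).mpr fun d => ?_
  refine tendsto_nhds_of_eventually_eq ((eventually_ge_atTop ((fin_deg k K d).preimage
    (Subtype.val_injective (p := (· ∈ U))).injOn).toFinset).mono fun s hs => ?_)
  have := eul_union (k := k) (U := ∅) g χ (s.map (.subtype _)) (by simp)
  rw [eul_empty, Finset.prod_map, Set.union_empty, ← PowerSeries.eq_inv_iff_mul_eq_one (by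
    simp [(deg_pos _).ne']), inv_prod] at this
  refine (congrArg (coeff d) this).symm.trans ?_
  simp only [Eul, coeff_mk]
  refine Finset.sum_congr (Finset.ext fun D => ?_) fun _ _ => rfl
  simp only [mem_E]
  refine and_congr_right fun a => and_congr_left fun c => ⟨fun b x hx => b x (by simp [hx]),
    fun b x hx => by_contra fun e => hx ?_⟩
  have := (le_dg' (k := k) a e).2
  exact Finset.mem_map.mpr ⟨⟨x, by_contra fun h => e (b x h)⟩,
    hs (by simp only [Set.Finite.mem_toFinset, Set.mem_preimage, Set.mem_ofPred_eq]; omega), rfl⟩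

variable (k R) in
theorem hasProd_zeta (U : Set (Place K)) :
    HasProd (fun x : U => (1 - X ^ deg k x.1 : R⟦X⟧)⁻¹) (Zeta k R U) := by
  simpa [eul_one] using hasProd_eul k U (fun _ => (1 : Multiplicative ℤ)) (1 : _ →* R)

variable {K' : Type} [Field K'] [Algebra k K'] [Algebra K K'] [Pl K'] [IsFF k K']
  [FiniteDimensional K K'] [IsGalois K K'] [IsTopologicalRing R]

omit [IsFF k K] [Algebra k K] in
theorem zeta_over (U : Set (Place K)) (f n : Place K → ℕ)
    (h1 : ∀ x ∈ U, ∀ y : Place K', Over y x → deg k y = deg k x * f x)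
    (h2 : ∀ x ∈ U, Nat.card {y : Place K' // Over y x} = n x) :
    HasProd (fun x : U => (1 - X ^ (deg k x.1 * f x) : R⟦X⟧)⁻¹ ^ n x)
      (Zeta k R {y : Place K' | under K y ∈ U}) := by
  let e : (Σ x : U, {y : Place K' // Over y x.1}) ≃ {y : Place K' | under K y ∈ U} :=
    ⟨fun a => ⟨a.2.1, show under K a.2.1 ∈ U by rw [over_iff.mp a.2.2]; exact a.1.2⟩,
      fun y => ⟨⟨_, y.2⟩, y.1, over_iff.mpr rfl⟩,
      by rintro ⟨⟨x, hx⟩, y, h⟩; obtain rfl := over_iff.mp h; rfl, fun _ => rfl⟩
  refine (e.hasProd_iff.mpr (hasProd_zeta k R _)).sigma fun x => ?_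
  have : Fintype {y : Place K' // Over y x.1} := (fin_over (K' := K') x.1).fintype
  convert hasProd_fintype _
  rw [← h2 x x.2, Nat.card_eq_fintype_card, ← Finset.card_univ, ← Finset.prod_const]
  exact Finset.prod_congr rfl fun y _ => by rw [← h1 x x.2 y y.2]; rfl

end Pool.Agent.H46.FF
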