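import Pool.Agent.H46.FF.Main

set_option autoImplicit false

namespace Pool.Agent.H46.FF

open IntermediateField Filter Polynomial Module
open scoped IsMulCommutative PowerSeries PowerSeries.WithPiTopology

variable {p : ℕ} [Fact p.Prime]

lemma num {C n d e : ℕ} (h : (p ^ (n + 1)).totient ≤ d * e) (hd : d ≤ C) :
    (p * (C + 1) : ℝ)⁻¹ * p ^ (n + 1) ≤ e := by
  have pp : p.Prime := Fact.out
  have : p ^ n ≤ (C + 1) * e := by
    rw [Nat.totient_prime_pow_succ pp] at h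
    have := pp.two_le
    exact (Nat.le_mul_of_pos_right _ (by omega)).trans (h.trans (Nat.mul_le_mul_right _ (by omega)))
  have p0 : (0 : ℝ) < p := by exact_mod_cast pp.pos
  rw [inv_mul_le_iff₀ (by positivity), pow_succ', mul_assoc]
  exact mul_le_mul_of_nonneg_left (by exact_mod_cast this) p0.le

lemma tend {a : ℕ → ℕ} (h : ∃ c : ℝ, 0 < c ∧ ∃ N, ∀ n ≥ N, c * p ^ n ≤ a n) :
    Tendsto a atTop atTop := by
  obtain ⟨c, c0, N, h⟩ := h
  exact tendsto_natCast_atTop_iff.mp (tendsto_atTop_mono' _ (eventually_atTop.mpr ⟨N, h⟩)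
    ((tendsto_pow_atTop_atTop_of_one_lt (by exact_mod_cast (Fact.out : p.Prime).one_lt)).const_mul_atTop
      c0))

lemma fd_roots {P : Polynomial ℂ_[p]} (h0 : P.coeff 0 = 1) (h : ∀ j, IsIntegral ℚ_[p] (P.coeff j)) :
    FiniteDimensional ℚ_[p] (adjoin ℚ_[p] {α | P.IsRoot α⁻¹}) := by
  have P0 : P ≠ 0 := by rintro rfl; simp at h0
  have : Finite {α | P.IsRoot α⁻¹} :=
    ((finite_setOfPred_isRoot P0).preimage inv_injective.injOn).to_subtype
  obtain ⟨Q, hQ⟩ := (lifts_iff_coeff_lifts (f := algebraMap (algebraicClosure ℚ_[p] ℂ_[p]) _) P).mpr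
    fun j => ⟨⟨_, h j⟩, rfl⟩
  exact finiteDimensional_adjoin fun α hα => isIntegral_trans (A := algebraicClosure ℚ_[p] ℂ_[p]) α
    (IsAlgebraic.isIntegral (IsAlgebraic.inv_iff.mp ⟨Q, by rintro rfl; simp [← hQ] at P0,
      (eval_map_algebraMap _ _).symm.trans (by rwa [← hQ] at hα)⟩))

lemma adjoin_inv {F Ω : Type} [Field F] [Field Ω] [Algebra F Ω] (s : Set Ω) :
    adjoin F {α | α⁻¹ ∈ s} = adjoin F s := le_antisymm
  (adjoin_le_iff.mpr fun _ h => inv_mem_iff.mp (subset_adjoin _ _ h))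
  (adjoin_le_iff.mpr fun α h => inv_mem_iff.mp (subset_adjoin _ _ (by simpa)))

lemma rat_bound {Ω : Type} [Field Ω] [CharZero Ω] [IsAlgClosed Ω] {ζ : Ω} {n C : ℕ} [NeZero n]
    (z : IsPrimitiveRoot ζ n) {P : ℤ[X]} (P0 : P.coeff 0 = 1)
    (hζ : ∀ (E : Type) [Field E] [Algebra E Ω], (∀ r : Ω, (P.map (Int.castRingHom Ω)).IsRoot r →
      r ∈ Set.range (algebraMap E Ω)) → (minpoly E ζ).natDegree ≤ C) :
    ∃ d ≤ C, n.totient ≤ d * finrank ℚ (P.map (Int.castRingHom ℚ)).SplittingField := by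
  set f := P.map (Int.castRingHom ℚ) with hf
  let φ := SplittingField.lift f (IsAlgClosed.splits (k := Ω) _)
  let := φ.toAlgebra
  have : IsScalarTower ℚ f.SplittingField Ω := .of_algebraMap_eq fun c => (φ.commutes c).symm
  have i1 : IsIntegral f.SplittingField ζ := .of_pow (NeZero.pos _) (z.pow_eq_one ▸ isIntegral_one)
  have := adjoin.finiteDimensional i1
  have := Module.Finite.trans (R := ℚ) f.SplittingField f.SplittingField⟮ζ⟯
  refine ⟨_, hζ f.SplittingField fun r hr => (IsSplittingField.adjoin_rootSet_eq_range _ f φ).le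
    (Algebra.subset_adjoin (mem_rootSet.mpr ⟨fun e => ?_, ?_⟩)), ?_⟩
  · simpa [hf, P0] using congrArg (coeff · 0) e
  · rwa [← eval_map_algebraMap, hf, Polynomial.map_map, RingHom.eq_intCast' (RingHom.comp _ _)]
  rw [← natDegree_cyclotomic _ ℚ, cyclotomic_eq_minpoly_rat z (NeZero.pos _), ← adjoin.finrank i1,
    mul_comm, finrank_mul_finrank]
  exact (congrArg natDegree (minpoly.algHom_eq (f.SplittingField⟮ζ⟯.val.toRingHom.toRatAlgHom)
    Subtype.val_injective (AdjoinSimple.gen f.SplittingField ζ))).trans_le (minpoly.natDegree_le _)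

variable {k K : Type} [Field k] [Finite k] [CharP k p] [Field K] [Algebra k K]
  [Algebra (RatFunc k) K] [IsScalarTower k (RatFunc k) K] [FunctionField k K] {F : ℕ → Type}
  [∀ n, Field (F n)] [∀ n, Algebra k (F n)] [∀ n, Algebra K (F n)] [∀ n, IsScalarTower k K (F n)]

omit [Finite k] in
variable (k K) in
lemma isFF : IsFF k K :=
  ⟨IsScalarTower.toAlgHom k (RatFunc k) K, RingHom.finite_algebraMap.mpr ‹FunctionField k K›⟩

theorem L_final (h : IsTower p k K F) {S : Set (Place K)} (hf : S.Finite)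
    (hS : ∀ n, ∀ x ∉ S, Unram (F n) x) : ∃ c : ℝ, 0 < c ∧ ∃ N, ∀ n ≠ 0,
      ∀ χ : Gal(F n/K) →* ℂ_[p]ˣ, orderOf χ = p ^ n → ∃ P, IsLPoly k Sᶜ χ P ∧ (n ≥ N →
        c * p ^ n ≤ ramIdx (adjoin ℚ_[p] {α | P.IsRoot α⁻¹}) ∧
        c * p ^ n ≤ finrank ℚ_[p] (adjoin ℚ_[p] {α | P.IsRoot α})) := by
  have := isFF k K
  have := IsFF.pl k K
  have := h.fin
  have := h.gal
  have := h.cyclic
  have := fun n => IsFF.ext k K (F n)
  have := fun n => IsFF.pl k (F n)
  lift S to Finset (Place K) using hf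
  obtain ⟨C, N, hC⟩ := core (Ω := ℂ_[p]) h hS
  refine ⟨(p * (C * 1 + 1 : ℕ) : ℝ)⁻¹, by have := (Fact.out : p.Prime).pos; positivity, N + 1,
    fun n n0 χ hχ => ?_⟩
  obtain ⟨n, rfl⟩ := Nat.exists_eq_succ_of_ne_zero n0
  have i : Function.Injective ((Units.coeHom _).comp χ) :=
    Units.val_injective.comp (inj_of_orderOf (h.card _) hχ)
  obtain ⟨P, hP⟩ := L_poly h hS n _ i one_ne_zero (Nat.one_lt_pow n0 (Fact.out : p.Prime).one_lt)
  rw [pow_one] at hP
  refine ⟨P, by rw [IsLPoly, hP]; exact hasProd_eul k _ _ ((Units.coeHom _).comp χ), fun hn => ?_⟩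
  obtain ⟨ζ, z, hζ⟩ := hC n (by omega) _ i
  have := fd_roots (P := P) (by
    rw [← coeff_coe, hP, PowerSeries.coeff_zero_eq_constantCoeff_apply, eul_coeff_zero]) fun j => by
    rw [← coeff_coe, hP, Eul, PowerSeries.coeff_mk]
    exact .sum _ fun D _ => .of_pow (NeZero.pos (p ^ (n + 1))) (by
      rw [← map_pow, ← h.card, pow_card_eq_one', map_one]; exact isIntegral_one)
  obtain ⟨a, b, c⟩ := ramIdx_spec (adjoin ℚ_[p] {α | P.IsRoot α⁻¹})
  have := num (ram_bound z _ a c) (hζ _ 1 1 one_pos (one_pow _) P hP fun r hr =>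
    IntermediateField.algebraMap_mem _ (⟨r, inv_mem_iff.mp (subset_adjoin _ _
      (by simpa using isRoot_of_mem_roots hr))⟩ : adjoin ℚ_[p] {α | P.IsRoot α⁻¹}))
  push_cast at this ⊢
  exact ⟨this, this.trans (by rw [← adjoin_inv {α | P.IsRoot α}]; exact_mod_cast b)⟩

theorem zeta_final (h : IsTower p k K F) : ∃ P : ℕ → ℤ[X], (∀ n, IsZetaNum k (F n) (P n)) ∧
    (∃ c : ℝ, 0 < c ∧ ∃ N, ∀ n ≥ N,
      c * p ^ n ≤ ramIdx (adjoin ℚ_[p] {α | ((P n).map (Int.castRingHom ℂ_[p])).IsRoot α⁻¹}) ∧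
      c * p ^ n ≤ finrank ℚ_[p] (adjoin ℚ_[p] {α | ((P n).map (Int.castRingHom ℂ_[p])).IsRoot α⁻¹})) ∧
    ∃ c : ℝ, 0 < c ∧ ∃ N, ∀ n ≥ N,
      c * p ^ n ≤ finrank ℚ ((P n).map (Int.castRingHom ℚ)).SplittingField := by
  have := isFF k K
  have := IsFF.pl k K
  have := h.fin
  have := h.gal
  have := h.cyclic
  have := fun n => IsFF.ext k K (F n)
  have := fun n => IsFF.pl k (F n)
  obtain ⟨P, hP, C, N, hC⟩ := zeta_core (Ω := ℂ_[p]) h
  have c0 : 0 < (p * (C + 1) : ℝ)⁻¹ := by have := (Fact.out : p.Prime).pos; positivity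
  have P0 : ∀ n, (P n).coeff 0 = 1 := fun n => by
    rw [← coeff_coe, hP, ← eul_one (fun _ => (1 : Unit))]; simp [eul_coeff_zero]
  refine ⟨P, fun n => ?_, ⟨_, c0, N + 1, fun n hn => ?_⟩, _, c0, N + 1, fun n hn => ?_⟩
  · convert hasProd_zeta k ℚ (Set.univ : Set (Place (F n))) using 0
    have b : PowerSeries.map (Int.castRingHom ℚ) (Zeta k ℤ (Set.univ : Set (Place (F n)))) =
      Zeta k ℚ (Set.univ : Set (Place (F n))) := by ext; simp [Zeta]
    rw [IsZetaNum, ← (Equiv.Set.univ _).hasProd_iff, polynomial_map_coe, hP, map_mul, b, mul_comm,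
      ← mul_assoc]
    erw [show PowerSeries.map (Int.castRingHom ℚ) _ = _ by simp; rfl,
      PowerSeries.inv_mul_cancel _ (by simp), one_mul]
    rfl
  all_goals
    obtain ⟨n, rfl⟩ := Nat.exists_eq_succ_of_ne_zero (show n ≠ 0 by omega)
    obtain ⟨ζ, z, hζ⟩ := hC n (by omega)
  · have := fd_roots (P := (P (n + 1)).map (Int.castRingHom ℂ_[p])) (by simp [P0]) fun j => by
      rw [coeff_map, eq_intCast, ← map_intCast (algebraMap ℚ_[p] ℂ_[p])]
      exact isIntegral_algebraMap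
    obtain ⟨a, b, c⟩ := ramIdx_spec
      (adjoin ℚ_[p] {α | ((P (n + 1)).map (Int.castRingHom ℂ_[p])).IsRoot α⁻¹})
    have := num (ram_bound z _ a c) (hζ _ fun r hr =>
      ⟨⟨r, inv_mem_iff.mp (subset_adjoin _ _ (by simpa using hr))⟩, rfl⟩)
    exact ⟨this, this.trans (by exact_mod_cast b)⟩
  obtain ⟨d, a, b⟩ := rat_bound z (P0 _) hζ
  exact num b a

end Pool.Agent.H46.FF
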