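import Pool.Agent.H46.FF.RR

set_option autoImplicit false

namespace Pool.Agent.H46.FF

open IsLocalRing Polynomial Module

variable {k K K' : Type} [Field k] [Field K] [Field K'] [Algebra k K] [Algebra k K']
  [Algebra K K']

open scoped Pointwise in
instance : MulAction Gal(K'/K) (Place K') where
  smul σ y := ⟨σ • y.1, fun e => y.2 (top_unique fun z _ =>
    ValuationSubring.smul_mem_pointwise_smul_iff.mp (show σ • z ∈ σ • y.1 by rw [e]; trivial))⟩
  one_smul y := Subtype.ext (one_smul _ y.1)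
  mul_smul σ τ y := Subtype.ext (mul_smul σ τ y.1)

noncomputable def under (K : Type) [Field K] [Algebra K K'] [Algebra.IsIntegral K K']
    (y : Place K') : Place K :=
  ⟨y.1.comap (algebraMap K K'), fun e => y.2 (top_unique fun z _ => by
    have h : ∀ c, algebraMap K K' c ∈ y.1 := fun c => (e ▸ trivial : c ∈ y.1.comap _)
    let := ((algebraMap K K').codRestrict y.1.toSubring h).toAlgebra
    have : IsScalarTower K y.1 K' := .of_algebraMap_eq fun _ => rfl
    obtain ⟨a, rfl⟩ := IsIntegrallyClosed.isIntegral_iff.mp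
      ((Algebra.IsIntegral.isIntegral (R := K) z).tower_top (A := y.1))
    exact a.2)⟩

lemma over_iff [Algebra.IsIntegral K K'] {y : Place K'} {x : Place K} :
    Over y x ↔ under K y = x :=
  ⟨fun h => Subtype.ext h, fun h => congrArg Subtype.val h⟩

variable (K') in
lemma ex_over (x : Place K) : ∃ y : Place K', Over y x := by
  obtain ⟨A, h, loc⟩ := exists_factor_valuationRing ((algebraMap K K').comp x.1.subtype)
  have e : A.comap (algebraMap K K') = x.1 := le_antisymm (fun c hc => by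
    refine (x.1.mem_or_inv_mem c).elim id fun hi => ?_
    rcases eq_or_ne c 0 with rfl | c0
    · exact x.1.zero_mem
    obtain ⟨u, hu⟩ := (loc.map_nonunit ⟨_, hi⟩ (.of_mul_eq_one ⟨_, hc⟩ (Subtype.ext (by
      change algebraMap K K' c⁻¹ * algebraMap K K' c = 1
      rw [← map_mul, inv_mul_cancel₀ c0, map_one])))).exists_right_inv
    have : c = u := by simpa [inv_mul_eq_iff_eq_mul₀ c0, eq_comm] using congrArg Subtype.val hu
    exact this ▸ u.2) fun c hc => h ⟨c, hc⟩
  exact ⟨⟨A, fun t => x.2 (by rw [← e, t]; rfl)⟩, e⟩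

lemma Over.smul {y : Place K'} {x : Place K} (h : Over y x) (σ : Gal(K'/K)) : Over (σ • y) x := by
  refine (SetLike.ext fun c => ?_).trans h
  rw [ValuationSubring.mem_comap, ValuationSubring.mem_comap]
  conv_lhs => rw [← σ.commutes]
  exact ValuationSubring.smul_mem_pointwise_smul_iff

noncomputable def fro (k R : Type) [Field k] [Finite k] [CommRing R] [Algebra k R] (j : ℕ) :
    R →ₐ[k] R :=
  letI := Fintype.ofFinite k
  FiniteField.frobeniusAlgHom k R ^ j

lemma fro_apply [Finite k] {R : Type} [CommRing R] [Algebra k R] (j : ℕ) (c : R) :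
    fro k R j c = c ^ Nat.card k ^ j := by
  let := Fintype.ofFinite k
  rw [fro, AlgHom.coe_pow, FiniteField.coe_frobeniusAlgHom, pow_iterate, Nat.card_eq_fintype_card]

variable [Pl K] [Pl K'] {x : Place K} {y y' : Place K'} {σ τ : Gal(K'/K)} {b : K'} {i j : ℕ}

lemma bd1_iff {f : K} : Bd x (-1) f ↔ f = 0 ∨ ¬Bd x 0 f⁻¹ := by
  rw [bd_neg_one, ValuationSubring.mem_nonunits_iff_or, bd_zero]

lemma place_ext {x x' : Place K} (h : ∀ f, Bd x 0 f → Bd x' 0 f) : x = x' :=
  Subtype.ext (ValuationSubring.eq_of_le_of_ne_top x.1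
    (fun f hf => bd_zero.mp (h f (bd_zero.mpr hf))) x'.2)

lemma res_prod {ι : Type} {s : Finset ι} {u : ι → K} (h : ∀ i ∈ s, Bd x 0 (u i)) :
    res x (∏ i ∈ s, u i) = ∏ i ∈ s, res x (u i) := by
  classical
  induction s using Finset.induction_on with
  | empty => simp [res_one]
  | insert a s ha ih =>
    rw [Finset.forall_mem_insert] at h
    rw [Finset.prod_insert ha, Finset.prod_insert ha, res_mul h.1 (.prod h.2), ih h.2]

lemma res_sum {ι : Type} {s : Finset ι} {u : ι → K} (h : ∀ i ∈ s, Bd x 0 (u i)) :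
    res x (∑ i ∈ s, u i) = ∑ i ∈ s, res x (u i) := by
  classical
  induction s using Finset.induction_on with
  | empty => simpa using (res_eq_zero (x := x) .zero).mpr .zero
  | insert a s ha ih =>
    rw [Finset.forall_mem_insert] at h
    rw [Finset.sum_insert ha, Finset.sum_insert ha, res_add h.1 (.sum h.2), ih h.2]

lemma res_const [Finite k] (c : k) :
    res x (algebraMap k K c) = algebraMap k (ResidueField x.1) c := by
  rw [res_eq (.const c)]; rfl

lemma sep (y : Place K) {w : K} (hw : Bd y 0 w) {T : Set (Place K)} (hT : T.Finite) :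
    ∃ b, Bd y 0 b ∧ res y b = res y w ∧ ∀ y' ∈ T, y' ≠ y → Bd y' (-1) b := by
  classical
  obtain ⟨z, h1, h2⟩ := weak hT.toFinset y (fun y' => if y' = y then 0 else -1) (w := w)
    (by simpa using hw)
  simp only [if_true, zero_sub] at h1
  have h3 : Bd y 0 z := by simpa using (h1.mono (by omega)).add hw
  exact ⟨z, h3, (res_eq_res h3 hw).mpr h1, fun y' a e => by simpa [e] using h2 y' (by simpa)⟩

omit [Pl K] in
lemma bd0_smul : Bd (σ • y) 0 (σ b) ↔ Bd y 0 b := by
  rw [bd_zero, bd_zero]; exact ValuationSubring.smul_mem_pointwise_smul_iff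

omit [Pl K] in
lemma bd1_smul : Bd (σ • y) (-1) (σ b) ↔ Bd y (-1) b := by
  rw [bd1_iff, bd1_iff, ← map_inv₀, bd0_smul, map_eq_zero]

omit [Pl K] in
lemma bd0_smul' : Bd y 0 (σ b) ↔ Bd (σ⁻¹ • y) 0 b := by
  rw [← bd0_smul (σ := σ) (b := b), smul_inv_smul]

omit [Pl K] in
lemma bd1_smul' : Bd y (-1) (σ b) ↔ Bd (σ⁻¹ • y) (-1) b := by
  rw [← bd1_smul (σ := σ) (b := b), smul_inv_smul]

lemma Over.bd0 (h : Over y x) {f : K} : Bd y 0 (algebraMap K K' f) ↔ Bd x 0 f := by
  rw [bd_zero, bd_zero, ← h]; rfl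

lemma Over.bd1 (h : Over y x) {f : K} : Bd y (-1) (algebraMap K K' f) ↔ Bd x (-1) f := by
  rw [bd1_iff, bd1_iff, ← map_inv₀, h.bd0, map_eq_zero]

theorem Over.trans [FiniteDimensional K K'] [IsGalois K K'] (h : Over y x) (h' : Over y' x) :
    ∃ σ : Gal(K'/K), σ • y = y' := by
  by_contra! c
  obtain ⟨b, b0, b1, b2⟩ := sep y' .one ((Set.finite_range fun σ : Gal(K'/K) => σ • y).union
    (Set.finite_range fun σ : Gal(K'/K) => σ • y'))
  obtain ⟨N, hN⟩ := (IsGalois.mem_range_algebraMap_iff_fixed (F := K)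
    (∏ σ : Gal(K'/K), σ (1 - b))).mpr fun τ => by
      rw [map_prod]; exact Fintype.prod_equiv (Equiv.mulLeft τ) _ _ fun _ => rfl
  have a1 : ∀ σ : Gal(K'/K), Bd y (-1) (σ b) := fun σ =>
    bd1_smul'.mpr (b2 _ (.inl ⟨_, rfl⟩) (c _))
  have a2 : ∀ σ : Gal(K'/K), Bd y 0 (σ (1 - b)) := fun σ => by
    rw [map_sub, map_one]; exact Bd.one.sub ((a1 σ).mono (by omega))
  have a3 : ∀ σ : Gal(K'/K), Bd y' 0 (σ (1 - b)) := fun σ => by
    refine bd0_smul'.mpr (Bd.one.sub ?_)
    by_cases e : σ⁻¹ • y' = y'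
    · rwa [e]
    · exact (b2 _ (.inr ⟨_, rfl⟩) e).mono (by omega)
  have : Bd y (-1) (algebraMap K K' N) := h.bd1.mpr (h'.bd1.mp (by
    rw [hN, ← res_eq_zero (.prod fun σ _ => a3 σ), res_prod fun σ _ => a3 σ]
    exact Finset.prod_eq_zero (Finset.mem_univ 1) (by
      rw [AlgEquiv.one_apply, res_sub .one b0, b1, sub_self])))
  rw [hN, ← res_eq_zero (.prod fun σ _ => a2 σ), res_prod fun σ _ => a2 σ,
    Finset.prod_eq_zero_iff] at this
  obtain ⟨σ, -, e⟩ := this
  have a4 := (a1 σ).mono (show -1 ≤ 0 by omega)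
  rw [map_sub, map_one, res_sub .one a4, (res_eq_zero a4).mpr (a1 σ), res_one] at e
  simp at e

variable (k) in
def Fr (y : Place K') (j : ℕ) (σ : Gal(K'/K)) : Prop :=
  ∀ b, Bd y 0 b → Bd y (-1) (σ b - b ^ Nat.card k ^ j)

omit [Field k] [Algebra k K] [Algebra k K'] [Pl K]

lemma fr_iff : Fr k y j σ ↔
    σ • y = y ∧ ∀ b, Bd y 0 b → res y (σ b) = res y b ^ Nat.card k ^ j := by
  have p : ∀ b, Bd y 0 b → Bd y 0 (b ^ Nat.card k ^ j) := fun b hb => by simpa using hb.pow _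
  refine ⟨fun h => ?_, fun h b hb => ?_⟩
  · have a : ∀ b, Bd y 0 b → Bd y 0 (σ b) := fun b hb => by
      simpa using ((h b hb).mono (by omega)).add (p b hb)
    exact ⟨smul_eq_iff_eq_inv_smul _ |>.mpr (place_ext fun b hb => bd0_smul'.mp (a b hb)),
      fun b hb => by rw [← res_pow hb, res_eq_res (a b hb) (p b hb)]; exact h b hb⟩
  · rw [← res_eq_res (h.1 ▸ bd0_smul.mpr hb) (p b hb), res_pow hb, h.2 b hb]

lemma Fr.bd (h : Fr k y j σ) (hb : Bd y 0 b) : Bd y 0 (σ b) :=
  (fr_iff.mp h).1 ▸ bd0_smul.mpr hb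

lemma Fr.mul (h : Fr k y i σ) (h' : Fr k y j τ) : Fr k y (i + j) (σ * τ) := by
  have := @h'.bd
  rw [fr_iff] at *
  refine ⟨by rw [mul_smul, h'.1, h.1], fun b hb => ?_⟩
  rw [AlgEquiv.mul_apply, h.2 _ (this _ hb), h'.2 _ hb, ← pow_mul, ← pow_add, add_comm]

lemma Fr.one : Fr k y 0 (1 : Gal(K'/K)) := fun b _ => by simpa using Bd.zero

lemma Fr.pow (h : Fr k y i σ) (n : ℕ) : Fr k y (i * n) (σ ^ n) := by
  induction n with
  | zero => simpa using Fr.one
  | succ n ih => simpa [pow_succ, mul_add] using ih.mul h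

lemma Fr.conj (h : Fr k y i σ) (τ : Gal(K'/K)) : Fr k (τ • y) i (τ * σ * τ⁻¹) := fun b hb => by
  simpa using (bd1_smul (σ := τ)).mpr (h (τ⁻¹ b) (bd0_smul'.mpr (by simpa using hb)))

open scoped Pointwise in
lemma res_act (h : σ • y.1 = y.1) (hb : Bd y 0 b) :
    res y (σ b) = (⟨σ, h⟩ : y.1.decompositionSubgroup K) • res y b := by
  have e : σ • y = y := Subtype.ext h
  rw [res_eq hb, ← ResidueField.residue_smul, res_eq (e ▸ bd0_smul.mpr hb)]; rfl

lemma inertia_iff : y.1.inertiaSubgroup K = ⊥ ↔ ∀ σ : Gal(K'/K), Fr k y 0 σ → σ = 1 := by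
  simp only [fr_iff, pow_zero, pow_one, eq_bot_iff]
  refine ⟨fun h σ hσ => ?_, fun h σ hσ => Subtype.ext (h _ ⟨Subtype.ext σ.2, fun b hb => ?_⟩)⟩
  · refine congrArg Subtype.val (h (x := ⟨σ, congrArg Subtype.val hσ.1⟩) (RingEquiv.ext fun c => ?_))
    obtain ⟨b, hb, rfl⟩ := res_surj c
    exact (res_act _ hb).symm.trans (hσ.2 b hb)
  · exact (res_act σ.2 hb).trans (DFunLike.congr_fun hσ (res y b))

end Pool.Agent.H46.FF
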