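import Pool.Agent.H46.FF.Gal

set_option autoImplicit false

namespace Pool.Agent.H46.FF

open IsLocalRing Polynomial Module

variable {k K K' : Type} [Field k] [Field K] [Field K'] [Algebra k K] [Algebra k K']
  [Algebra K K'] [Finite k] [Pl K] [Pl K'] {x : Place K} {y : Place K'} {σ τ : Gal(K'/K)} {j : ℕ}

omit [Algebra k K] [Pl K] in
lemma Fr.cancel (h : Fr k y j σ) (h' : Fr k y j τ) : Fr k y 0 (τ⁻¹ * σ) := by
  have a := fun b => @h.bd _ _ _ _ _ _ _ _ _ b _
  rw [fr_iff] at *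
  have e : τ⁻¹ • y = y := inv_smul_eq_iff.mpr h'.1.symm
  refine ⟨by rw [mul_smul, h.1, e], fun b hb =>
    (show Function.Injective (fro k _ j) from (fro k (ResidueField y.1) j).injective) ?_⟩
  rw [fro_apply, fro_apply, ← h'.2 _ (e ▸ bd0_smul.mpr (a b hb)), pow_zero, pow_one, ← h.2 b hb]
  simp

omit [Algebra k K] [Pl K] in
lemma fr_one_iff : Fr k y j (1 : Gal(K'/K)) ↔ deg k y ∣ j := by
  rw [← pow_fix, fr_iff]
  refine ⟨fun h c => ?_, fun h => ⟨one_smul _ _, fun b _ => (h _).symm⟩⟩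
  obtain ⟨b, hb, rfl⟩ := res_surj c
  exact (h.2 b hb).symm

omit [Algebra k K] [Pl K] in
lemma Fr.dvd_of_zero (h : Fr k y j σ) (h' : Fr k y 0 σ) : deg k y ∣ j :=
  (pow_fix y j).mp fun c => by
    obtain ⟨b, hb, rfl⟩ := res_surj c
    simpa using ((fr_iff.mp h).2 b hb).symm.trans ((fr_iff.mp h').2 b hb)

omit [Algebra k K'] [Pl K'] in
lemma isFrob_iff [Pl K'] : IsFrob x σ ↔ ∃ y : Place K', Over y x ∧ Fr k y (deg k x) σ := by
  simp only [IsFrob, Fr, bd_zero, bd_neg_one, card_deg (k := k)]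

omit [Field k] [Algebra k K] [Algebra k K'] [Finite k] [Pl K] in
lemma unram_iff : Unram K' x ↔ ∀ y : Place K', Over y x → ∀ σ : Gal(K'/K), Fr k y 0 σ → σ = 1 := by
  simp only [Unram, inertia_iff (k := k)]

omit [Algebra k K] [Pl K] in
lemma Unram.unique (hx : Unram K' x) (h : Over y x) (h1 : Fr k y j σ) (h2 : Fr k y j τ) : σ = τ :=
  (inv_mul_eq_one.mp (unram_iff.mp hx y h _ (h1.cancel h2))).symm

variable [IsScalarTower k K K']

variable (k) in
lemma Over.emb (h : Over y x) : ∃ ι : ResidueField x.1 →ₐ[k] ResidueField y.1,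
    ∀ f, Bd x 0 f → ι (res x f) = res y (algebraMap K K' f) := by
  let φ : x.1 →+* y.1 := ((algebraMap K K').comp x.1.subtype).codRestrict y.1.toSubring
    fun c => bd_zero.mp (h.bd0.mpr (bd_zero.mpr c.2))
  have : IsLocalHom φ := ⟨fun a ha => by
    rw [← residue_ne_zero_iff_isUnit] at ha ⊢
    have b := bd_zero.mpr a.2
    exact fun e => ha ((res_eq (h.bd0.mpr b)).symm.trans ((res_eq_zero (h.bd0.mpr b)).mpr
      (h.bd1.mpr ((res_eq_zero b).mp ((res_eq b).trans e)))))⟩
  have e : ∀ f, Bd x 0 f → ResidueField.map φ (res x f) = res y (algebraMap K K' f) := fun f hf => by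
    rw [res_eq hf, res_eq (h.bd0.mpr hf)]; rfl
  exact ⟨⟨ResidueField.map φ, fun c => by
    rw [← res_const, ← res_const, IsScalarTower.algebraMap_apply k K K']; exact e _ (.const c)⟩, e⟩

lemma Fr.dvd (h : Over y x) (h' : Fr k y j σ) : deg k x ∣ j := by
  obtain ⟨ι, hι⟩ := h.emb k
  refine (pow_fix x j).mp fun c => (show Function.Injective ι from ι.injective) ?_
  obtain ⟨b, hb, rfl⟩ := res_surj c
  rw [map_pow, hι b hb, ← (fr_iff.mp h').2 _ (h.bd0.mpr hb), σ.commutes]

variable (k) in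
lemma Over.stab (h : Over y x) (e : σ • y = y) : ∃ j, Fr k y (deg k x * j) σ := by
  obtain ⟨p, hp⟩ := CharP.exists k
  have := Fact.mk (CharP.char_is_prime k p)
  have e' := congrArg Subtype.val e
  obtain ⟨i, hi⟩ := FiniteField.exists_forall_apply_eq_pow k p (ResidueField y.1)
    (AlgEquiv.ofRingEquiv (f := MulSemiringAction.toRingAut (y.1.decompositionSubgroup K) _ ⟨σ, e'⟩)
      fun c => by
        rw [← res_const]
        refine (res_act e' (.const c)).symm.trans ?_
        rw [IsScalarTower.algebraMap_apply k K K', σ.commutes])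
  have : Fr k y i σ := fr_iff.mpr ⟨e, fun b hb => (res_act e' hb).trans (hi _)⟩
  obtain ⟨j, rfl⟩ := this.dvd h
  exact ⟨j, this⟩

variable [FiniteDimensional K K'] [IsGalois K K']

variable (k) in
theorem Over.ex_fr (h : Over y x) : ∃ σ : Gal(K'/K), Fr k y (deg k x) σ := by
  obtain ⟨ι, hι⟩ := h.emb k
  obtain ⟨β, hβ⟩ := IsCyclic.exists_monoid_generator (α := (ResidueField y.1)ˣ)
  obtain ⟨w, hw, ew⟩ := res_surj (β : ResidueField y.1)
  obtain ⟨b, b0, b1, b2⟩ := sep y hw (Set.finite_range fun σ : Gal(K'/K) => σ • y)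
  rw [ew] at b1
  have a : ∀ σ : Gal(K'/K), Bd y 0 (σ b) := fun σ => by
    refine bd0_smul'.mpr ?_
    by_cases e : σ⁻¹ • y = y
    · rwa [e]
    · exact (b2 _ ⟨_, rfl⟩ e).mono (by omega)
  let P : y.1[X] := ∏ σ : Gal(K'/K), (X - C ⟨σ b, bd_zero.mp (a σ)⟩)
  have P1 : P.map y.1.subtype = ∏ σ : Gal(K'/K), (X - C (σ b)) := by simp [P, Polynomial.map_prod]
  have P2 : P.map (residue y.1) = ∏ σ : Gal(K'/K), (X - C (res y (σ b))) := by
    simp [P, Polynomial.map_prod, res_eq (a _)]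
  let φ := (fro k (ResidueField y.1) (deg k x)).toRingHom
  have P3 : (P.map (residue y.1)).map φ = P.map (residue y.1) := Polynomial.ext fun n => by
    obtain ⟨c, hc⟩ := (IsGalois.mem_range_algebraMap_iff_fixed (F := K)
      ((P.map y.1.subtype).coeff n)).mpr fun τ => by
        refine (coeff_map (τ : K' →+* K') n).symm.trans (congrArg (coeff · n) ?_)
        simp only [P1, Polynomial.map_prod, Polynomial.map_sub, map_X, map_C]
        exact Fintype.prod_equiv (Equiv.mulLeft τ) _ _ fun _ => rfl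
    rw [coeff_map] at hc
    have c0 : Bd y 0 (algebraMap K K' c) := hc ▸ bd_zero.mpr (P.coeff n).2
    have : residue y.1 (P.coeff n) = ι (res x c) := by
      rw [hι c (h.bd0.mp c0), res_eq c0]; congr 1; exact Subtype.ext hc.symm
    rw [coeff_map, coeff_map, this]
    exact (fro_apply _ _).trans (by rw [← map_pow, (pow_fix x _).mpr dvd_rfl])
  have : (P.map (residue y.1)).eval (φ β) = 0 := by
    rw [← P3, eval_map_apply, P2, eval_prod, Finset.prod_eq_zero (Finset.mem_univ 1) (by simp [b1]),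
      map_zero]
  rw [P2, eval_prod, Finset.prod_eq_zero_iff] at this
  obtain ⟨σ, -, e⟩ := this
  rw [eval_sub, eval_X, eval_C, sub_eq_zero] at e
  have s : σ • y = y := by
    by_contra c
    rw [(res_eq_zero (a σ)).mpr (bd1_smul'.mpr (b2 _ ⟨_, rfl⟩ fun e =>
      c (inv_smul_eq_iff.mp e).symm))] at e
    exact β.ne_zero (φ.injective (e.trans φ.map_zero.symm))
  have t : ∀ u v, Bd y 0 u → Bd y 0 v → res y u = res y v → res y (σ u) = res y (σ v) :=
    fun u v hu hv e => by
      rw [res_act (congrArg Subtype.val s) hu, res_act (congrArg Subtype.val s) hv, e]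
  refine ⟨σ, fr_iff.mpr ⟨s, fun u hu => ?_⟩⟩
  rw [← fro_apply]
  by_cases u0 : res y u = 0
  · have z : res y 0 = 0 := (res_eq_zero .zero).mpr .zero
    rw [t u 0 hu .zero (u0.trans z.symm), u0, map_zero, map_zero, z]
  obtain ⟨n, hn⟩ := hβ (Units.mk0 _ u0)
  replace hn : (β : ResidueField y.1) ^ n = res y u := congrArg Units.val hn
  rw [t u (b ^ n) hu (by simpa using b0.pow n) (by rw [res_pow b0, b1, hn]), map_pow, res_pow (a σ),
    ← e, ← hn, map_pow]
  rfl

variable (k K') in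
include k in
lemma isFrob_frob (x : Place K) : IsFrob x (frob K' x) := by
  obtain ⟨y, h⟩ := ex_over K' x
  obtain ⟨σ, hσ⟩ := h.ex_fr k
  exact Classical.epsilon_spec ⟨σ, isFrob_iff.mpr ⟨y, h, hσ⟩⟩

omit [Algebra k K] [Algebra k K'] [IsScalarTower k K K'] in
lemma fin_over (x : Place K) : {y : Place K' | Over y x}.Finite := by
  obtain ⟨y, h⟩ := ex_over K' x
  exact (Set.finite_range fun σ : Gal(K'/K) => σ • y).subset fun _ h' => h.trans h'

variable [IsMulCommutative Gal(K'/K)]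

omit [Algebra k K] [Algebra k K'] [IsScalarTower k K K'] [Field k] [Finite k] in
lemma Fr.move {y' : Place K'} (h : Over y x) (h' : Over y' x) (e : Fr k y j σ) : Fr k y' j σ := by
  obtain ⟨τ, rfl⟩ := h.trans h'
  simpa [mul_comm' τ σ] using e.conj τ

variable (k) in
lemma Over.fr (h : Over y x) : Fr k y (deg k x) (frob K' x) := by
  obtain ⟨y', h', e⟩ := (isFrob_iff (k := k)).mp (isFrob_frob k K' x)
  exact e.move h' h

variable (k) in
include k in
lemma Unram.frob_eq (hx : Unram K' x) (h : IsFrob x σ) : frob K' x = σ := by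
  obtain ⟨y, h', e⟩ := (isFrob_iff (k := k)).mp h
  exact hx.unique h' (h'.fr k) e

lemma Unram.deg_eq (hx : Unram K' x) (h : Over y x) :
    deg k y = deg k x * orderOf (frob K' x) := by
  obtain ⟨m, hm⟩ := ((fr_one_iff (k := k) (K := K)).mpr dvd_rfl).dvd h
  have key : ∀ i, frob K' x ^ i = 1 ↔ m ∣ i := fun i => by
    rw [← Nat.mul_dvd_mul_iff_left (deg_pos (k := k) x), ← hm, ← fr_one_iff (k := k) (K := K)]
    exact ⟨fun e => e ▸ (h.fr k).pow i, hx.unique h ((h.fr k).pow i)⟩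
  rw [hm, Nat.dvd_antisymm ((key _).mp (pow_orderOf_eq_one _))
    (orderOf_dvd_of_pow_eq_one ((key _).mpr dvd_rfl))]

variable (k) in
include k in
lemma Unram.card (hx : Unram K' x) :
    Nat.card {y : Place K' // Over y x} * orderOf (frob K' x) = Nat.card Gal(K'/K) := by
  obtain ⟨y, h⟩ := ex_over K' x
  have a : MulAction.stabilizer Gal(K'/K) y = Subgroup.zpowers (frob K' x) :=
    le_antisymm (fun σ hσ => by
      obtain ⟨j, e⟩ := h.stab k hσ
      exact hx.unique h ((h.fr k).pow j) e ▸ Subgroup.npow_mem_zpowers _ _)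
      (Subgroup.zpowers_le.mpr (fr_iff.mp (h.fr k)).1)
  have b : MulAction.orbit Gal(K'/K) y = {y' | Over y' x} :=
    Set.ext fun y' => ⟨by rintro ⟨σ, rfl⟩; exact h.smul σ, h.trans⟩
  rw [← Nat.card_zpowers, ← a, ← (MulAction.stabilizer Gal(K'/K) y).index_mul_card,
    MulAction.index_stabilizer, b]
  rfl

theorem restrict {K'' : Type} [Field K''] [Algebra k K''] [Algebra K K''] [Pl K'']
    [IsScalarTower k K K''] [FiniteDimensional K K''] [IsGalois K K'']
    [IsMulCommutative Gal(K''/K)] (φ : K' →ₐ[K] K'') : ∃ r : Gal(K''/K) →* Gal(K'/K),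
      (∀ x, Unram K' x → r (frob K'' x) = frob K' x) ∧
      ∀ x : Place K, ¬Unram K' x → ∀ y : Place K'', Over y x → ∃ τ, Fr k y 0 τ ∧ r τ ≠ 1 := by
  let := φ.toAlgebra
  have : IsScalarTower K K' K'' := .of_algebraMap_eq fun c => (φ.commutes c).symm
  have : IsScalarTower k K' K'' := .of_algebraMap_eq fun c => by
    rw [IsScalarTower.algebraMap_apply k K K', IsScalarTower.algebraMap_apply k K K'']
    exact (φ.commutes _).symm
  have : FiniteDimensional K' K'' := .of_restrictScalars_finite K _ _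
  have : IsGalois K' K'' := .tower_top_of_isGalois K _ _
  let r : Gal(K''/K) →* Gal(K'/K) := AlgEquiv.restrictNormalHom K'
  have hr : ∀ σ b, algebraMap K' K'' (r σ b) = σ (algebraMap K' K'' b) := fun σ b =>
    σ.restrictNormal_commutes K' b
  have a : ∀ {y : Place K''} {z : Place K'} {j σ}, Over y z → Fr k y j σ → Fr k z j (r σ) :=
    fun h e b hb => h.bd1.mp (by rw [map_sub, map_pow, hr]; exact e _ (h.bd0.mpr hb))
  have u : ∀ y : Place K'', Over y (under K' y) := fun y => over_iff.mpr rfl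
  have v : ∀ {y : Place K''} {x : Place K}, Over y x → Over (under K' y) x := fun h => by
    rw [Over, IsScalarTower.algebraMap_eq K K' K''] at h; exact h
  have w : ∀ ρ : Gal(K''/K'), r (ρ.restrictScalars K) = 1 := fun ρ => AlgEquiv.ext fun b =>
    (algebraMap K' K'').injective ((hr _ _).trans (ρ.commutes b))
  refine ⟨r, fun x hx => ?_, fun x hx y h => ?_⟩
  · obtain ⟨y, h⟩ := ex_over K'' x
    exact hx.unique (v h) (a (u y) (h.fr k)) ((v h).fr k)
  simp only [unram_iff (k := k), not_forall] at hx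
  obtain ⟨z, hz, τ, h1, h2⟩ := hx
  replace h1 := h1.move hz (v h)
  obtain ⟨τ', rfl⟩ := AlgEquiv.restrictNormalHom_surjective K'' τ
  obtain ⟨ρ, hρ⟩ := (u y).trans (y' := τ' • y) (over_iff.mpr (place_ext fun b hb => by
    have := bd0_smul'.mpr (show Bd (τ'⁻¹⁻¹ • y) 0 _ by rw [inv_inv]; exact (u _).bd0.mpr hb)
    rw [← hr, (u y).bd0, map_inv, bd0_smul', inv_inv, (fr_iff.mp h1).1] at this
    exact this))
  obtain ⟨j, hj⟩ := h.stab k (σ := (ρ.restrictScalars K)⁻¹ * τ')
    (by rw [mul_smul, inv_smul_eq_iff]; exact hρ.symm)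
  have e : r ((ρ.restrictScalars K)⁻¹ * τ') = r τ' := by rw [map_mul, map_inv, w, inv_one, one_mul]
  obtain ⟨i, hi⟩ := (a (u y) hj).dvd_of_zero (e ▸ h1)
  obtain ⟨f, hf⟩ := (u y).ex_fr k
  have hf' : Fr k y _ (f.restrictScalars K) := hf
  rw [hi] at hj
  exact ⟨_, hj.cancel (hf'.pow i), by rwa [map_mul, map_inv, map_pow, w, e, one_pow, inv_one, one_mul]⟩

end Pool.Agent.H46.FF
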