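import Pool.Agent.H46.FF.Tower

set_option autoImplicit false

namespace Pool.Agent.H46.FF

open Finsupp IntermediateField Filter Polynomial
open scoped IsMulCommutative PowerSeries PowerSeries.WithPiTopology

variable {p : ℕ} [Fact p.Prime] {k K : Type} [Field k] [Field K] {F : ℕ → Type} [∀ n, Field (F n)]
  [∀ n, Algebra k (F n)] [∀ n, Algebra K (F n)]

lemma pow_dvd_one {M : Type} [Monoid M] {a : M} {i j : ℕ} (h : a ^ i = 1) (e : i ∣ j) : a ^ j = 1 :=
  orderOf_dvd_iff_pow_eq_one.mp ((orderOf_dvd_of_pow_eq_one h).trans e)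

omit [Fact p.Prime] in
lemma IsTower.cyclic (h : IsTower p k K F) (n : ℕ) : IsCyclic Gal(F n/K) :=
  (h.cyc n).some.isCyclic.mpr inferInstance

omit [Fact p.Prime] in
lemma IsTower.card (h : IsTower p k K F) (n : ℕ) : Nat.card Gal(F n/K) = p ^ n :=
  (Nat.card_congr (h.cyc n).some.toEquiv).trans (Nat.card_zmod _)

omit [Fact p.Prime] in
lemma IsTower.le (h : IsTower p k K F) {m n : ℕ} (e : m ≤ n) : Nonempty (F m →ₐ[K] F n) := by
  induction e with
  | refl => exact ⟨.id _ _⟩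
  | step _ ih => exact ⟨(h.emb _).some.comp ih.some⟩

variable [Algebra k K] [Finite k] [∀ n, IsScalarTower k K (F n)] [IsFF k K] [Pl K] [∀ n, Pl (F n)]
  [∀ n, FiniteDimensional K (F n)] [∀ n, IsGalois K (F n)] [∀ n, IsCyclic Gal(F n/K)]
  [∀ n, IsFF k (F n)] (h : IsTower p k K F) {S : Finset (Place K)} (hS : ∀ n, ∀ x ∉ S, Unram (F n) x)
include h hS

omit [Fact p.Prime] [IsFF k K] [∀ n, IsFF k (F n)] in
lemma compat {m n : ℕ} (e : m ≤ n) : ∃ r : Gal(F n/K) →* Gal(F m/K), ∀ D : Dv K,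
    (∀ x ∈ S, D x = 0) → r (Psi (frob (F n)) D) = Psi (frob (F m)) D := by
  obtain ⟨r, hr, -⟩ := restrict (k := k) (h.le e).some
  exact ⟨r, fun D hD => Psi_map r fun x hx => hr x (hS m x fun c => hx (hD x c))⟩

omit [IsFF k K] [∀ n, IsFF k (F n)] in
lemma ord_eq {D : Dv K} (h0 : ∀ x ∈ S, D x = 0) (h1 : Psi (frob (F 1)) D ≠ 1) (n : ℕ) :
    orderOf (Psi (frob (F (n + 1))) D) = p ^ (n + 1) := by
  obtain ⟨r, hr⟩ := compat h hS (Nat.le_add_left 1 n)
  exact orderOf_eq_prime_pow (fun e => h1 (hr D h0 ▸ cyc1 (h.card _) (h.card 1) (by omega) r e))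
    (h.card _ ▸ pow_card_eq_one')

omit [∀ n, IsFF k (F n)] in
lemma ex_D : ∃ D : Dv K, (∀ x ∈ S, D x = 0) ∧ dg k D = 0 ∧ Psi (frob (F 1)) D ≠ 1 :=
  nondeg (h.geom 1) (by rw [h.card, pow_one]; exact (Fact.out : p.Prime).ne_one) S (hS 1)

omit [∀ n, IsFF k (F n)] in
lemma S_nonempty [CharP k p] : S.Nonempty := by
  rw [Finset.nonempty_iff_ne_empty]
  rintro rfl
  obtain ⟨D, h0, h1, h2⟩ := ex_D h hS
  obtain ⟨j, j0, f, f0, e⟩ := pic_fin h1
  have := recip_unram (k := k) (fun g => h.card (j.natAbs + 1) ▸ pow_card_eq_one')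
    (fun x => hS _ x (by simp)) f0
  rw [← e, Psi_smul, ← orderOf_dvd_iff_zpow_eq_one, ord_eq h hS h0 h2, Int.natCast_dvd] at this
  have := Nat.le_of_dvd (by omega) this
  have := Nat.lt_pow_self (n := j.natAbs + 1) (Fact.out : p.Prime).one_lt
  omega

variable {Ω : Type} [Field Ω] [CharZero Ω]

omit [∀ n, IsFF k (F n)] in
theorem L_poly [CharP k p] (n : ℕ) (χ : Gal(F (n + 1)/K) →* Ω) (hχ : Function.Injective χ) {a : ℕ}
    (h0 : a ≠ 0) (h1 : a < p ^ (n + 1)) :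
    ∃ P : Polynomial Ω, (P : Ω⟦X⟧) = Eul k (S : Set (Place K))ᶜ (frob (F (n + 1))) (χ ^ a) := by
  obtain ⟨D, a1, a2, a3⟩ := ex_D h hS
  obtain ⟨c, c0, hc⟩ := recip (k := k) (fun g => h.card (n + 1) ▸ pow_card_eq_one')
    (S_nonempty h hS) (hS _)
  refine eul_poly _ _ (S_nonempty h hS) c0 hc a1 a2 fun e => ?_
  rw [MonoidHom.pow_apply, ← map_pow, map_eq_one_iff _ hχ] at e
  exact pow_ne_one_of_lt_orderOf h0 (by rwa [ord_eq h hS a1 a3]) e

variable [IsAlgClosed Ω]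

omit [∀ n, IsFF k (F n)] in
theorem core : ∃ C N : ℕ, ∀ n, N ≤ n → ∀ χ : Gal(F (n + 1)/K) →* Ω, Function.Injective χ →
    ∃ ζ : Ω, IsPrimitiveRoot ζ (p ^ (n + 1)) ∧ ∀ (E : Type) [Field E] [Algebra E Ω] (ξ : Ω) (w : ℕ),
      0 < w → ξ ^ w = 1 → ∀ P : Polynomial Ω,
        (P : Ω⟦X⟧) = Eul k (S : Set (Place K))ᶜ (frob (F (n + 1))) χ → (∀ r ∈ P.roots, r ∈ E⟮ξ⟯) →
          (minpoly E ζ).natDegree ≤ C * w := by
  obtain ⟨x, hx, h1⟩ : ∃ x ∉ S, Psi (frob (F 1)) (single x 1) ≠ 1 := by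
    obtain ⟨D, a1, -, a3⟩ := ex_D h hS
    by_contra! c
    exact a3 (Psi_map (g := frob (F 1)) (1 : _ →* _) fun x hx => by
      simpa using (c x fun e => hx (a1 x e)).symm).symm
  have h0 : ∀ y ∈ S, single x (1 : ℤ) y = 0 := fun y hy =>
    single_eq_of_ne (by rintro rfl; exact hx hy)
  have o : ∀ D ∈ E k (S : Set (Place K))ᶜ (deg k x), ∀ y ∈ S, D y = 0 := fun D hD => by
    simpa using (mem_E.mp hD).2.1
  obtain ⟨m, hm⟩ := eventually_atTop.mp ((eventually_all_finset (E k (S : Set (Place K))ᶜ (deg k x))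
    (l := atTop) (p := fun D m => Psi (frob (F m)) D = Psi (frob (F m)) (single x 1) →
      ∀ n, Psi (frob (F n)) D = Psi (frob (F n)) (single x 1))).mpr fun D hD => by
    by_cases c : ∀ n, Psi (frob (F n)) D = Psi (frob (F n)) (single x 1)
    · exact .of_forall fun _ _ => c
    obtain ⟨n, c⟩ := not_forall.mp c
    refine (eventually_ge_atTop n).mono fun m e e' => absurd ?_ c
    obtain ⟨r, hr⟩ := compat h hS e
    rw [← hr D (o D hD), ← hr _ h0, e'])
  refine ⟨(E k (S : Set (Place K))ᶜ (deg k x)).card, m, fun n hn χ hχ => ?_⟩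
  have z := ord_eq h hS h0 h1 n ▸ (IsPrimitiveRoot.orderOf _).map_of_injective hχ
  refine ⟨_, z, fun E _ _ ξ w w0 hξ P hP hr => conj_bound z _ (fun D => χ (Psi (frob _) D))
    (fun D => by rw [← map_pow, ← h.card, pow_card_eq_one', map_one]) (i₀ := single x 1)
    (mem_E.mpr ⟨by simp, by simpa using h0, by simp⟩) rfl (fun D hD e => ?_) w0 hξ ?_⟩
  · obtain ⟨r, hr⟩ := compat h hS (hn.trans n.le_succ)
    rw [← map_pow, ← map_pow, hχ.eq_iff, ← div_eq_one, ← div_pow] at e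
    have := cyc1 (h.card _) (h.card _) (hn.trans n.le_succ) r
      (pow_dvd_one e (dvd_pow_self _ (by omega)))
    rw [_root_.map_div, div_eq_one, hr D (o D hD), hr _ h0] at this
    rw [hm m le_rfl D hD this]
  · have := coeff_mem _ (P := P) (by
      rw [← coeff_coe, hP, PowerSeries.coeff_zero_eq_constantCoeff_apply, eul_coeff_zero]) hr (deg k x)
    rwa [← coeff_coe, hP, Eul, PowerSeries.coeff_mk] at this

omit hS in
theorem zeta_core [CharP k p] [TopologicalSpace Ω] [IsTopologicalRing Ω] [T2Space Ω] :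
    ∃ P : ℕ → ℤ[X], (∀ n, (P n : ℤ⟦X⟧) = (1 - PowerSeries.X) * (1 - PowerSeries.C (Nat.card k : ℤ) *
      PowerSeries.X) * Zeta k ℤ (Set.univ : Set (Place (F n)))) ∧ ∃ C N : ℕ, ∀ n, N ≤ n →
      ∃ ζ : Ω, IsPrimitiveRoot ζ (p ^ (n + 1)) ∧ ∀ (E : Type) [Field E] [Algebra E Ω],
        (∀ r : Ω, ((P (n + 1)).map (Int.castRingHom Ω)).IsRoot r → r ∈ Set.range (algebraMap E Ω)) →
          (minpoly E ζ).natDegree ≤ C := by
  classical
  choose P hP using fun n => zeta_poly (schmidt (h.geom n) ∅).choose_spec.2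
  obtain ⟨P₀, hP₀⟩ := zeta_poly (schmidt (geom_down (K := K) (h.geom 0)) ∅).choose_spec.2
  set S := h.ram.toFinset
  have hS : ∀ n, ∀ x ∉ S, Unram (F n) x := fun n x hx => by_contra fun c => hx (by
    simpa [S] using ⟨n, c⟩)
  obtain ⟨C, N, hC⟩ := core (Ω := Ω) h hS
  choose! m hm using fun x (hx : x ∈ S) => h.ram.mem_toFinset.mp hx
  set w := ∏ x ∈ S, deg k x * p ^ m x
  have w0 : 0 < w := Finset.prod_pos fun x _ => mul_pos (deg_pos x) (NeZero.pos _)
  have := NeZero.of_pos w0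
  obtain ⟨ξ, hξ⟩ := HasEnoughRootsOfUnity.exists_primitiveRoot Ω w
  refine ⟨P, hP, C * w, max N (S.sup m), fun n hn => ?_⟩
  let χ := (Units.coeHom Ω).comp ((rootsOfUnity (p ^ (n + 1)) Ω).subtype.comp
    (mulEquivOfCyclicCardEq ((h.card (n + 1)).trans
      (HasEnoughRootsOfUnity.natCard_rootsOfUnity Ω _).symm)).toMonoidHom)
  have hχ : Function.Injective χ :=
    Units.val_injective.comp (Subtype.val_injective.comp (MulEquiv.injective _))
  obtain ⟨ζ, z, hζ⟩ := hC n (by omega) χ hχ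
  choose! L hL using fun a => L_poly h hS n χ hχ (a := a)
  have p1 := Nat.one_lt_pow n.succ_ne_zero (Fact.out : p.Prime).one_lt
  refine ⟨ζ, z, fun E _ _ hE => hζ E ξ w w0 hξ.pow_eq_one (L 1)
    (by rw [hL 1 one_ne_zero p1, pow_one]) fun r hr => ?_⟩
  obtain ⟨S', hS'⟩ := ex_above (K' := F (n + 1)) S
  have zz : ∀ {K : Type} [Field K] [Algebra k K] [Pl K] [IsFF k K] {P : ℤ[X]} (S : Finset (Place K)),
      (P : ℤ⟦X⟧) = (1 - PowerSeries.X) * (1 - PowerSeries.C (Nat.card k : ℤ) * PowerSeries.X) *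
        Zeta k ℤ (Set.univ : Set (Place K)) →
      ((P.map (Int.castRingHom Ω) * ∏ x ∈ S, (1 - X ^ deg k x) : Polynomial Ω) : Ω⟦X⟧) =
        (1 - PowerSeries.X) * (1 - PowerSeries.C (Nat.card k : Ω) * PowerSeries.X) *
          Zeta k Ω (S : Set (Place K))ᶜ := fun {K} _ _ _ _ P S e => by
    have a := eul_union (k := k) (U := (S : Set (Place K))ᶜ) (fun _ => (1 : Unit)) (1 : _ →* Ω) S
      (by simp)
    have b : PowerSeries.map (Int.castRingHom Ω) (Zeta k ℤ (Set.univ : Set (Place K))) =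
      Zeta k Ω (Set.univ : Set (Place K)) := by ext; simp [Zeta]
    rw [eul_one, eul_one, Set.union_compl_self] at a
    rw [← a, Polynomial.coe_mul, polynomial_map_coe, e, ← coeToPowerSeries.ringHom_apply]
    simp [b, mul_assoc]
  have e := zz S' (hP (n + 1))
  rw [show (S' : Set (Place (F (n + 1))))ᶜ = {y | under K y ∈ (S : Set (Place K))ᶜ} from
    Set.ext fun y => by simp [hS'], zeta_factor (S : Set (Place K))ᶜ (hS _) χ hχ, h.card,
    Finset.range_eq_Ico, Finset.prod_eq_prod_Ico_succ_bot (NeZero.pos _), pow_zero, eul_one,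
    ← mul_assoc, ← zz S hP₀, ← Finset.prod_congr rfl fun a ha => hL a
      (by simp at ha; omega) (Finset.mem_Ico.mp ha).2] at e
  simp only [← coeToPowerSeries.ringHom_apply, ← map_prod, ← map_mul] at e
  replace e := congrArg (eval r) ((Function.Injective.eq_iff (f := coeToPowerSeries.ringHom)
    (coe_injective Ω)).mp e)
  rw [eval_mul, eval_mul, eval_prod, eval_prod, Finset.prod_eq_zero (f := fun j => eval r (L j))
    (Finset.mem_Ico.mpr ⟨le_rfl, p1⟩) (isRoot_of_mem_roots hr), mul_zero, mul_eq_zero,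
    Finset.prod_eq_zero_iff] at e
  rcases e with e | ⟨y, hy, e⟩
  · obtain ⟨c, rfl⟩ := hE r e
    exact IntermediateField.algebraMap_mem _ _
  have hx := (hS' y).mp hy
  have l : m (under K y) ≤ n + 1 := (Finset.le_sup hx).trans (by omega)
  obtain ⟨ρ, -, hρ⟩ := restrict (k := k) (h.le l).some
  obtain ⟨τ, t1, t2⟩ := hρ _ (hm _ hx) y (over_iff.mpr rfl)
  obtain ⟨i, hi⟩ := cyc2 (h.card _) (fun e => t2 (cyc1 (h.card _) (h.card _) l ρ e))
    (frob _ (under K y))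
  have := (((over_iff.mpr rfl).fr k).pow _).dvd_of_zero (hi ▸ zero_mul i ▸ t1.pow i)
  obtain ⟨j, -, rfl⟩ := hξ.eq_pow_of_pow_eq_one (pow_dvd_one (a := r)
    (sub_eq_zero.mp (by simpa using e)).symm (this.trans (Finset.dvd_prod_of_mem _ hx)))
  exact pow_mem (mem_adjoin_simple_self E ξ) j

end Pool.Agent.H46.FF
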