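import Pool.Agent.H46.FF.Defs

set_option autoImplicit false

namespace Pool.Agent.H46.FF

open Polynomial IntermediateField Module

variable {p n : ℕ} [Fact p.Prime] {Ω ι : Type} [Field Ω] [CharZero Ω] {ζ : Ω}

lemma vanish (hζ : IsPrimitiveRoot ζ (p ^ (n + 1))) (M : Finset ι) (u v : ι → Ω)
    (hu : ∀ i, u i ^ p ^ (n + 1) = 1) (hv : ∀ i, v i ^ p ^ (n + 1) = 1)
    (h : ∑ i ∈ M, u i = ∑ i ∈ M, v i) {i₀ : ι} (h0 : i₀ ∈ M) (h1 : ∀ i ∈ M, ζ ^ p ^ n * u i ≠ u i₀) :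
    ∃ i ∈ M, v i = u i₀ := by
  classical
  choose a _ ha using fun i => hζ.eq_pow_of_pow_eq_one (hu i)
  choose b _ hb using fun i => hζ.eq_pow_of_pow_eq_one (hv i)
  obtain ⟨g, hg⟩ := minpoly.dvd ℚ ζ (p := ∑ i ∈ M, X ^ a i - ∑ i ∈ M, X ^ b i) (by simp [ha, hb, h])
  rw [← cyclotomic_eq_minpoly_rat hζ (NeZero.pos _)] at hg
  have := congrArg (fun f => (aeval (MonoidAlgebra.single ζ (1 : ℚ)) (f * (X ^ p ^ n - 1))).coeff
    (u i₀)) hg
  rw [mul_right_comm, cyclotomic_prime_pow_mul_X_pow_sub_one] at this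
  simp only [map_mul, map_sub, map_sum, map_pow, aeval_X, map_one, MonoidAlgebra.single_pow, one_pow,
    ha, hb, hζ.pow_eq_one, ← MonoidAlgebra.one_def, sub_self, mul_sub, sub_mul, mul_one,
    Finset.sum_mul, MonoidAlgebra.single_mul_single] at this
  by_contra! c
  simp [Finsupp.single_apply, mul_comm _ (ζ ^ p ^ n), Finset.filter_false_of_mem h1,
    Finset.filter_false_of_mem c] at this
  have h2 : 0 < (M.filter fun i => u i = u i₀).card := Finset.card_pos.mpr ⟨i₀, by simpa⟩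
  norm_cast at this
  omega

variable [IsAlgClosed Ω]

omit [CharZero Ω] in
lemma coeff_mem {F : Type} [Field F] [Algebra F Ω] (E : IntermediateField F Ω) {P : Polynomial Ω}
    (h0 : P.coeff 0 = 1) (h : ∀ r ∈ P.roots, r ∈ E) (j : ℕ) : P.coeff j ∈ E := by
  have e := (IsAlgClosed.splits P).eq_prod_roots
  have a : (P.roots.map (X - C ·)).prod ∈ lifts (algebraMap E Ω) :=
    multiset_prod_mem _ fun f hf => by
      obtain ⟨r, hr, rfl⟩ := Multiset.mem_map.mp hf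
      exact ⟨X - C ⟨r, h r hr⟩, by simp⟩
  have b : ∀ j, (P.roots.map (X - C ·)).prod.coeff j ∈ E := fun j => by
    obtain ⟨z, hz⟩ := (lifts_iff_coeff_lifts _).mp a j
    exact hz ▸ z.2
  rw [e, coeff_C_mul] at h0 ⊢
  exact mul_mem (eq_inv_of_mul_eq_one_left h0 ▸ inv_mem (b 0)) (b j)

theorem conj_bound {E : Type} [Field E] [Algebra E Ω] (hζ : IsPrimitiveRoot ζ (p ^ (n + 1)))
    (M : Finset ι) (z : ι → Ω) (hz : ∀ i, z i ^ p ^ (n + 1) = 1) {i₀ : ι} (h0 : i₀ ∈ M)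
    (h1 : z i₀ = ζ) (h2 : ∀ i ∈ M, z i ^ p = ζ ^ p → z i = ζ) {ξ : Ω} {w : ℕ} (hw : 0 < w)
    (hξ : ξ ^ w = 1) (h3 : ∑ i ∈ M, z i ∈ E⟮ξ⟯) : (minpoly E ζ).natDegree ≤ M.card * w := by
  classical
  have : CharZero E := (algebraMap E Ω).charZero
  have i1 : IsIntegral E ζ := (hζ.isIntegral (NeZero.pos _)).tower_top
  have i2 : IsIntegral E ξ := IsIntegral.of_pow hw (hξ ▸ isIntegral_one)
  have m1 : ζ ∈ E⟮ζ, ξ⟯ := subset_adjoin _ _ (by simp)
  have m2 : ξ ∈ E⟮ζ, ξ⟯ := subset_adjoin _ _ (by simp)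
  have m3 : ∀ i, z i ∈ E⟮ζ, ξ⟯ := fun i => by
    obtain ⟨a, -, e⟩ := hζ.eq_pow_of_pow_eq_one (hz i)
    exact e ▸ pow_mem m1 a
  choose! σ hσ using fun r (hr : r ∈ (minpoly E ζ).rootSet Ω) =>
    exists_algHom_adjoin_of_splits_of_aeval (S := {ζ, ξ}) (fun s hs =>
      ⟨by rcases hs with rfl | rfl <;> assumption, IsAlgClosed.splits _⟩) m1
      (aeval_eq_zero_of_mem_rootSet hr)
  obtain ⟨P, hP⟩ := Algebra.adjoin_mem_exists_aeval E ξ
    ((adjoin_simple_toSubalgebra_of_isAlgebraic i2.isAlgebraic).le h3)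
  have e : ∀ r, ∑ i ∈ M, σ r ⟨_, m3 i⟩ = aeval (σ r ⟨_, m2⟩) P := fun r => by
    rw [aeval_algHom_apply, ← map_sum]
    exact congrArg _ (Subtype.ext (by simp [← hP, ← aeval_coe]))
  rw [← card_rootSet_eq_natDegree (minpoly.irreducible i1).separable (IsAlgClosed.splits (k := Ω) _),
    ← Set.toFinset_card]
  refine (Finset.card_le_mul_card_image_of_maps_to (f := fun r => σ r ⟨_, m2⟩)
    (t := nthRootsFinset w 1) (fun r _ => ?_) M.card fun b _ => ?_).trans
    (Nat.mul_le_mul_left _ ((Multiset.toFinset_card_le _).trans (card_nthRoots w 1)))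
  · rw [mem_nthRootsFinset hw, ← map_pow, ← map_one (σ r)]
    exact congrArg _ (Subtype.ext hξ)
  rcases Finset.eq_empty_or_nonempty (((minpoly E ζ).rootSet Ω).toFinset.filter
    fun r => σ r ⟨_, m2⟩ = b) with e | ⟨r', hr'⟩
  · simp [e]
  refine (Finset.card_le_card fun r hr => ?_).trans
    (Finset.card_image_le (f := fun i => σ r' ⟨_, m3 i⟩))
  simp only [Finset.mem_filter, Set.mem_toFinset] at hr hr'
  have t : ∀ r i, σ r ⟨_, m3 i⟩ ^ p ^ (n + 1) = 1 := fun r i => by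
    rw [← map_pow, ← map_one (σ r)]; exact congrArg _ (Subtype.ext (hz i))
  obtain ⟨i, hi, e⟩ := vanish hζ M _ _ (t r) (t r') (by rw [e, e, hr.2, hr'.2]) h0 fun i hi c => by
    have := congrArg (· ^ p) c
    simp only [mul_pow, ← pow_mul, ← pow_succ, hζ.pow_eq_one, one_mul, ← map_pow] at this
    have := h2 i hi (h1 ▸ congrArg Subtype.val ((σ r).injective this))
    simp only [this, h1] at c
    rw [mul_eq_right₀ ((_root_.map_ne_zero (σ r)).mpr fun e =>
      hζ.ne_zero (NeZero.ne _) (congrArg Subtype.val e))] at c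
    exact hζ.pow_ne_one_of_pos_of_lt (NeZero.ne _)
      (Nat.pow_lt_pow_right (Fact.out : p.Prime).one_lt n.lt_succ_self) c
  exact Finset.mem_image.mpr ⟨i, hi, by simpa only [h1, hσ r hr.1] using e⟩

theorem ram_bound {ζ : ℂ_[p]} (hζ : IsPrimitiveRoot ζ (p ^ (n + 1))) (E : IntermediateField ℚ_[p] ℂ_[p])
    {N : ℕ} (hN : 0 < N) (h : ∀ x ∈ E, x ≠ 0 → ∃ j : ℤ, ‖x‖ ^ N = p ^ j) :
    (p ^ (n + 1)).totient ≤ (minpoly E ζ).natDegree * N := by
  have pp : p.Prime := Fact.out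
  have a : ∀ r s : ℂ_[p], IsPrimitiveRoot r (p ^ (n + 1)) → IsPrimitiveRoot s (p ^ (n + 1)) →
      ‖1 - s‖ ≤ ‖1 - r‖ := fun r s hr hs => by
    obtain ⟨a, -, rfl⟩ := hr.eq_pow_of_pow_eq_one hs.pow_eq_one
    rw [← mul_neg_geom_sum, norm_mul]
    refine mul_le_of_le_one_right (norm_nonneg _)
      (IsUltrametricDist.norm_sum_le_of_forall_le_of_nonneg zero_le_one fun i _ => ?_)
    rw [norm_pow, (pow_eq_one_iff_of_nonneg (norm_nonneg r) (NeZero.ne (p ^ (n + 1)))).mp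
      (by rw [← norm_pow, hr.pow_eq_one, norm_one]), one_pow]
  have b : ∀ r : ℂ_[p], IsPrimitiveRoot r (p ^ (n + 1)) → ‖1 - r‖ = ‖1 - ζ‖ := fun r hr =>
    (a _ _ hζ hr).antisymm (a _ _ hr hζ)
  have c : ‖1 - ζ‖ ^ (p ^ (n + 1)).totient = (p : ℝ)⁻¹ := by
    have := congrArg (fun f => ‖eval 1 f‖) (cyclotomic_eq_prod_X_sub_primitiveRoots hζ)
    simp only [eval_one_cyclotomic_prime_pow, eval_prod, eval_sub, eval_X, eval_C, norm_prod] at this
    rw [Finset.prod_congr rfl fun r hr => b r (isPrimitiveRoot_of_mem_primitiveRoots hr),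
      Finset.prod_const, hζ.card_primitiveRoots] at this
    rw [← this, ← map_natCast (algebraMap ℚ_[p] ℂ_[p]), norm_algebraMap', Padic.norm_p]
  have i1 : IsIntegral E ζ := .of_pow (NeZero.pos _) (hζ.pow_eq_one ▸ isIntegral_one)
  have sp := IsAlgClosed.splits ((minpoly E ζ).map (algebraMap E ℂ_[p]))
  have d : ‖(aeval (1 : E) (minpoly E ζ) : ℂ_[p])‖ = ‖1 - ζ‖ ^ (minpoly E ζ).natDegree := by
    have := sp.aeval_eq_prod_aroots_of_monic (minpoly.monic i1) (algebraMap E _ 1)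
    rw [aeval_algebraMap_apply, map_one] at this
    rw [← natDegree_map (algebraMap E ℂ_[p]), sp.natDegree_eq_card_roots, ← Multiset.prod_replicate,
      ← Multiset.map_const']
    refine (congrArg normHom this).trans ?_
    rw [map_multiset_prod, Multiset.map_map]
    refine congrArg _ (Multiset.map_congr rfl fun r hr => b r (isRoot_cyclotomic_iff.mp ?_))
    rw [IsRoot, ← map_cyclotomic _ (algebraMap E _), eval_map_algebraMap]
    refine aeval_eq_zero_of_dvd_aeval_eq_zero (minpoly.dvd E ζ ?_) (mem_aroots.mp hr).2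
    rw [← eval_map_algebraMap, map_cyclotomic]
    exact hζ.isRoot_cyclotomic (NeZero.pos _)
  have p1 : (1 : ℝ) < p := by exact_mod_cast pp.one_lt
  have t := Nat.totient_pos.mpr (NeZero.pos (p ^ (n + 1)))
  obtain ⟨j, hj⟩ := h _ (aeval (1 : E) (minpoly E ζ)).2 fun e => by
    rw [e, norm_zero, eq_comm, pow_eq_zero_iff (minpoly.natDegree_pos i1).ne'] at d
    rw [d, zero_pow t.ne', eq_comm, inv_eq_zero] at c
    linarith
  replace hj := congrArg (· ^ (p ^ (n + 1)).totient) hj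
  simp only [d, ← pow_mul] at hj
  rw [mul_comm, pow_mul, c, ← zpow_natCast (_ ^ j), ← zpow_mul, inv_pow, ← zpow_natCast, ← zpow_neg,
    zpow_right_inj₀ (by linarith) p1.ne'] at hj
  exact Nat.le_of_dvd (mul_pos (minpoly.natDegree_pos i1) hN)
    (Int.natCast_dvd_natCast.mp (dvd_neg.mp ⟨j, hj.trans (mul_comm _ _)⟩))

theorem ramIdx_spec (E : IntermediateField ℚ_[p] ℂ_[p]) [FiniteDimensional ℚ_[p] E] :
    0 < ramIdx E ∧ ramIdx E ≤ finrank ℚ_[p] E ∧
      ∀ x ∈ E, x ≠ 0 → ∃ j : ℤ, ‖x‖ ^ ramIdx E = p ^ j := by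
  classical
  choose x hx e using fun c : vgrp E ⧸ (vgrp (⊥ : IntermediateField ℚ_[p] ℂ_[p])).subgroupOf
    (vgrp E) => c.out.2
  have li : LinearIndependent ℚ_[p] fun c => (⟨x c, hx c⟩ : E) := linearIndependent_iff'.mpr
    fun s g hg i hi => by_contra fun c => by
      have n : ∀ i, ‖g i • x i‖ = ‖g i‖ * (i.out.1 : ℝˣ) := fun i => by rw [norm_smul, e]
      have := IsUltrametricDist.norm_sum_eq_sup'_of_pairwise_ne (s := s.filter (g · ≠ 0))
        (f := fun i => g i • x i) ⟨i, by simp [*]⟩ fun a ha b hb ne h => ne (by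
          rw [← a.out_eq', ← b.out_eq', QuotientGroup.eq]
          refine ⟨algebraMap _ _ (g a / g b), IntermediateField.algebraMap_mem _ _, ?_⟩
          have : ‖g b‖ ≠ 0 := by simp_all
          simp only [n] at h
          simp [div_eq_iff this, inv_mul_eq_div, ← h, ← mul_div_assoc, mul_comm])
      rw [Finset.sum_filter_of_ne (p := (g · ≠ 0)) fun j _ h e => h (by simp [e]),
        show ∑ i ∈ s, g i • x i = 0 by simpa using congrArg Subtype.val hg, norm_zero] at this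
      have := (Finset.le_sup' (fun i => ‖g i • x i‖) (b := i) (by simp [*])).trans this.ge
      rw [norm_le_zero_iff, ← norm_eq_zero, n] at this
      simp [c] at this
  have := li.finite
  have := Fintype.ofFinite (vgrp E ⧸ (vgrp (⊥ : IntermediateField ℚ_[p] ℂ_[p])).subgroupOf (vgrp E))
  refine ⟨Nat.card_pos, Nat.card_eq_fintype_card.le.trans li.fintype_card_le_finrank,
    fun x hx x0 => ?_⟩
  obtain ⟨_, ⟨y, rfl⟩, hy⟩ := (vgrp (⊥ : IntermediateField ℚ_[p] ℂ_[p])).pow_relIndex_mem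
    (K := vgrp E) (g := Units.mk0 _ (norm_ne_zero_iff.mpr x0)) ⟨x, hx, rfl⟩
  have hy : ‖y‖ = ‖x‖ ^ ramIdx E := by simpa [ramIdx] using hy
  exact ⟨_, hy ▸ Padic.norm_eq_zpow_neg_valuation fun e =>
    pow_ne_zero _ (norm_ne_zero_iff.mpr x0) (by rw [← hy, e, norm_zero])⟩

end Pool.Agent.H46.FF
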