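import Pool.Agent.H46.FF.Det

set_option autoImplicit false

namespace Pool.Agent.H46.FF

open IsLocalRing Finsupp Module

variable {k K G R : Type} [Field k] [Field K] [Algebra k K] [Fintype G] [CommRing R] [Algebra k R]
  [Finite k] [Pl K] [IsFF k K] {m : G → K} {ε : G → R} {S : Finset (Place K)}

lemma eq_zero_of_dg {D : Dv K} {z : K} (h : z ∈ M k Set.univ D) (hD : dg k D < 0) : z = 0 :=
  by_contra fun c => by
    have := dg_nonneg (k := k) (D := D - pd k z)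
      (sub_nonneg.mpr fun x => (bd_iff c).mp (h x trivial))
    rw [map_sub, dg_pd] at this; omega

open Classical in
variable (k S) in
noncomputable def Dz (f : K) : Dv K := -(pd k f).filter (· ∉ S)

open Classical in
lemma Dz_apply (f : K) (x : Place K) : Dz k S f x = if x ∈ S then 0 else -lg x f := by
  simp only [Dz, Finsupp.neg_apply, filter_apply, pd_apply]; split_ifs <;> simp

lemma mem_Dz {f z : K} : z ∈ M k (S : Set (Place K))ᶜ (-Dz k S f) ↔ ∀ x ∉ S, Bd x (lg x f) z :=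
  forall₂_congr fun x hx => by simp [Dz_apply, show x ∉ S from hx]

lemma Dz_nonneg {f : K} (f0 : f ≠ 0) (hf : f ∈ M k (S : Set (Place K))ᶜ 0) : 0 ≤ Dz k S f :=
  fun x => by
    rw [Dz_apply]
    split_ifs with h
    exacts [le_rfl, neg_nonneg.mpr ((bd_iff f0).mp (hf x h))]

theorem pencil (hS : S.Nonempty) (hm : ∀ g, m g ∈ M k (S : Set (Place K))ᶜ 0) {I : Ideal R} {ν : ℕ}
    (hI : I ^ ν = ⊥) (hε : ∀ g, ε g ∈ I) : ∃ c : ℤ, 0 < c ∧ ∀ f h : K, f ≠ 0 →
      f ∈ M k (S : Set (Place K))ᶜ 0 → h ∈ M k (S : Set (Place K))ᶜ 0 →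
      (∀ x ∈ S, Bd x (lg x f - c) h) → ∀ r, IsDet k (S : Set (Place K))ᶜ m ε (Dz k S f) r →
        ∃ r, IsDet k (S : Set (Place K))ᶜ m ε (Dz k S f) r ∧
          IsDet k (S : Set (Place K))ᶜ m ε (Dz k S (f + h)) r := by
  classical
  obtain ⟨-, c₀, -, hs⟩ := riemann' k K
  obtain ⟨e₀, he₀⟩ := ((S ×ˢ Finset.univ).image fun a => (lg a.1 (m a.2)).toNat).exists_le
  set e : ℤ := e₀ + 1 with ee
  have he : ∀ g, ∀ x ∈ S, Bd x e (m g) := fun g x hx => Bd.lg.mono (by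
    have := he₀ _ (Finset.mem_image_of_mem _ (Finset.mk_mem_product hx (Finset.mem_univ g)))
    simp only at this; omega)
  set j₀ := c₀.natAbs
  refine ⟨(j₀ + 2 + ν) * e, by positivity, fun f h f0 hf hh hc r ⟨ι, i₁, i₂, w₀, _, a1, a2, a3, _⟩ => ?_⟩
  obtain ⟨x₀, hx₀⟩ := hS
  have s1 : 1 ≤ dg k (Sd S) := by
    have := (le_dg' (k := k) (D := Sd S) (fun x => by rw [Sd_apply]; split_ifs <;> simp)
      (x := x₀) (by simp [Sd_apply, hx₀])).1
    simpa [Sd_apply, hx₀] using this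
  have fh : ∀ x ∈ S, f + h ≠ 0 ∧ lg x (f + h) = lg x f := fun x hx =>
    lg_add f0 ((hc x hx).mono (by nlinarith))
  have f1 := (fh _ hx₀).1
  let D := pd k f + Dz k S f
  have dD : ∀ f', (∀ x ∈ S, lg x f' = lg x f) → pd k f' + Dz k S f' = D := fun f' a =>
    Finsupp.ext fun x => by
      simp only [D, Finsupp.add_apply, pd_apply, Dz_apply]; split_ifs with hx <;> simp [a x, *]
  let L : ℤ → Submodule k K := fun j => M k Set.univ (D + (j * e) • Sd S)
  have hL : ∀ {j z}, z ∈ L j ↔ (∀ x ∉ S, Bd x 0 z) ∧ ∀ x ∈ S, Bd x (lg x f + j * e) z := by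
    intro j z
    have : ∀ x, (D + (j * e) • Sd S) x = if x ∈ S then lg x f + j * e else 0 := fun x => by
      simp only [D, Finsupp.add_apply, pd_apply, Dz_apply, Finsupp.smul_apply, Sd_apply]
      split_ifs <;> simp
    simp only [L, M, Submodule.mem_mk, AddSubmonoid.mem_mk, AddSubsemigroup.mem_mk,
      Set.mem_ofPred_eq, this]
    grind
  have mono : ∀ {i j}, i ≤ j → L i ≤ L j := fun a z hz => hL.mpr ⟨(hL.mp hz).1, fun x hx =>
    ((hL.mp hz).2 x hx).mono (by nlinarith)⟩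
  have sj : ∀ f', f' ≠ 0 → f' ∈ M k (S : Set (Place K))ᶜ 0 → (∀ x ∈ S, lg x f' = lg x f) →
      ∀ u ∈ M k (S : Set (Place K))ᶜ 0, ∃ z ∈ L j₀, z - u ∈ M k (S : Set (Place K))ᶜ (-Dz k S f') :=
    fun f' a b c u hu => by
      have n : ∀ x, Dz k S f' x ≠ 0 → x ∉ S := fun x hx e => hx (by simp [Dz_apply, e])
      have o : ∀ x ∉ S, (D + (j₀ * e) • Sd S) x = 0 := fun x hx => by
        simp [D, Dz_apply, Sd_apply, hx]
      obtain ⟨z, z1, z2⟩ := approx hs (D + (j₀ * e) • Sd S) _ (Dz_nonneg a b) (by simp) (w := u) (by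
        have : c₀ ≤ j₀ := Int.le_natAbs
        rw [← dD f' c, map_add, map_add, dg_pd, map_smul, smul_eq_mul]
        nlinarith [mul_nonneg (Nat.cast_nonneg (α := ℤ) j₀) (Nat.cast_nonneg (α := ℤ) e₀)])
        fun x hx => by rw [o x (n x hx)]; exact hu x (n x hx)
      refine ⟨z, z1, fun x hx => ?_⟩
      by_cases t : Dz k S f' x = 0
      · simpa [t] using ((hL.mp z1).1 x hx).sub (hu x hx)
      · simpa [o x hx] using z2 x t
  choose w₁ b1 b2 using fun i => sj f f0 hf (fun _ _ => rfl) _ (a2 i)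
  obtain ⟨w, wt, c1, c2, c3⟩ := adapted (M k (S : Set (Place K))ᶜ 0) (M k (S : Set (Place K))ᶜ
    (-Dz k S f)) L (fun j z hz => (hL.mp hz).1) (dg k D).natAbs j₀ (fun j hj => eq_bot_iff.mpr
      fun z hz => eq_zero_of_dg hz (by
        have : dg k D ≤ (dg k D).natAbs := Int.le_natAbs
        have : j * e ≤ j := by nlinarith
        rw [map_add, map_smul, smul_eq_mul]; nlinarith)) w₁ b1 fun z hz => by
      obtain ⟨c, hc⟩ := a3 z hz
      refine ⟨c, ?_⟩
      convert sub_mem hc (sum_mem fun i (_ : i ∈ Finset.univ) => Submodule.smul_mem _ (c i) (b2 i))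
        using 1
      simp [smul_sub]
  have sm : ∀ j (c : ι → k), (∀ i, c i ≠ 0 → wt i ≤ j) → ∑ i, c i • w i ∈ L j := fun j c a =>
    sum_mem fun i _ => by
      by_cases t : c i = 0
      · simp [t]
      · exact Submodule.smul_mem _ _ (mono (a i t) (c1 i).1)
  have star : ∀ j ≤ (j₀ + 1 : ℤ), ∀ z ∈ L j, ∃ c c' : ι → k,
      z - ∑ i, c i • w i ∈ M k (S : Set (Place K))ᶜ (-Dz k S f) ∧
      z - ∑ i, (c i - c' i) • w i ∈ M k (S : Set (Place K))ᶜ (-Dz k S (f + h)) ∧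
      (∀ i, c i ≠ 0 → wt i ≤ j) ∧ ∀ i, c' i ≠ 0 → wt i ≤ j - (j₀ + 2 + ν) := fun j hj z hz => by
    obtain ⟨c, d1, d2⟩ := c3 j z hz
    have d3 := hL.mp (sub_mem hz (sm j c d2))
    set n := z - ∑ i, c i • w i with hn
    have d4 : ∀ x ∉ S, Bd x 0 (f⁻¹ * n) := fun x hx =>
      (bd_mul_iff (inv_ne_zero f0)).mpr (by simpa [lg_inv] using mem_Dz.mp d1 x hx)
    have d5 : h * (f⁻¹ * n) ∈ L (j - (j₀ + 2 + ν)) := hL.mpr ⟨fun x hx => (hh x hx).mul0 (d4 x hx),
      fun x hx => ((hc x hx).mul (Bd.lg.mul (d3.2 x hx))).mono (by rw [lg_inv]; linarith)⟩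
    obtain ⟨c', d6, d7⟩ := c3 _ _ d5
    have d8 := hL.mp (sub_mem d5 (sm _ c' d7))
    set n' := h * (f⁻¹ * n) - ∑ i, c' i • w i with hn'
    have d9 : ∀ x ∈ S, Bd x (-1) (f⁻¹ * n') := fun x hx =>
      (Bd.lg.mul (d8.2 x hx)).mono (by rw [lg_inv]; nlinarith)
    have : f⁻¹ * n' = 0 := eq_zero_of_neg (alg_of_bd (k := k) fun x => by
      by_cases hx : x ∈ S
      · exact (d9 x hx).mono (by omega)
      · exact (bd_mul_iff (inv_ne_zero f0)).mpr (by simpa [lg_inv] using mem_Dz.mp d6 x hx))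
        (d9 _ hx₀)
    replace := sub_eq_zero.mp ((mul_eq_zero.mp this).resolve_left (inv_ne_zero f0))
    refine ⟨c, c', d1, mem_Dz.mpr fun x hx => ?_, d2, d7⟩
    rw [show z - ∑ i, (c i - c' i) • w i = (f + h) * (f⁻¹ * n) by
      simp only [sub_smul, Finset.sum_sub_distrib, ← this]; field_simp; ring, bd_mul_iff f1, sub_self]
    exact d4 x hx
  choose A A' d1 d2 d3 d4 using fun g j => star (wt j + 1) (by linarith [(c1 j).2]) (m g * w j)
    (hL.mpr ⟨fun x hx => (hm g x hx).mul0 ((hL.mp (c1 j).1).1 x hx), fun x hx =>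
      ((he g x hx).mul ((hL.mp (c1 j).1).2 x hx)).mono (by linarith)⟩)
  have wA : ∀ i, w i ∈ M k (S : Set (Place K))ᶜ 0 := fun i => (hL.mp (c1 i).1).1
  refine ⟨_, ⟨ι, i₁, i₂, w, fun g i j => A g j i, a1, wA, c2, d1, rfl⟩,
    ι, i₁, i₂, w, fun g i j => A g j i - A' g j i, ?_, wA, fun u hu => ?_, d2, ?_⟩
  · have := congrArg (dg k) (dD _ fun x hx => (fh x hx).2)
    rw [a1]; simpa [D, dg_pd] using this.symm
  · obtain ⟨z, z1, z2⟩ := sj _ f1 (add_mem hf hh) (fun x hx => (fh x hx).2) u hu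
    obtain ⟨c, c', -, t, -⟩ := star j₀ (by omega) z z1
    exact ⟨_, by simpa using sub_mem t z2⟩
  refine .trans ?_ (det_filt I wt hI _ (∑ g, ε g • (Matrix.of fun i j => A' g j i).map
    (algebraMap k R)) (fun i j => ?_) fun i j => ?_)
  · rw [dt]; congr 1; ext i j; simp [Matrix.sum_apply, mul_sub, add_sub_assoc]
  · simp only [Matrix.add_apply, Matrix.sum_apply, Matrix.smul_apply, Matrix.map_apply]
    refine add_mem ?_ (sum_mem fun g _ => ?_)
    · rcases eq_or_ne i j with rfl | t <;> simp [*]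
    by_cases t : A g j i = 0
    · simp [t]
    have := d3 g j i t
    exact Ideal.pow_le_pow_right (n := 1) (by omega) (by simpa using I.mul_mem_right _ (hε g))
  · simp only [Matrix.sum_apply, Matrix.smul_apply, Matrix.map_apply, Matrix.of_apply]
    refine sum_mem fun g _ => ?_
    by_cases t : A' g j i = 0
    · simp [t]
    have := d4 g j i t
    simp [show (wt i - wt j + ν).toNat = 0 by omega]

theorem recip_of {H : Type} [CommGroup H] (hS : S.Nonempty)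
    (hm : ∀ g, m g ∈ M k (S : Set (Place K))ᶜ 0) {I : Ideal R} {ν : ℕ} (hI : I ^ ν = ⊥)
    (hε : ∀ g, ε g ∈ I) (g : Place K → H) (χ : H →* R) (hχ : Function.Injective χ)
    (hn : ∀ y ∉ S, nrm k m ε y = χ (g y)) :
    ∃ c : ℤ, 0 < c ∧ ∀ f, (∀ x ∈ S, Bd x (-c) (f - 1)) → Psi g (pd k f) = 1 := by
  classical
  obtain ⟨c, c0, hc⟩ := pencil hS hm hI hε
  refine ⟨c, c0, fun f hf => ?_⟩
  obtain ⟨x₀, hx₀⟩ := hS
  have hs := sur_of_notMem (k := k) (T := (S : Set (Place K))ᶜ) (x₀ := x₀) (by simpa)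
  have a : ∀ x ∈ S, f ≠ 0 ∧ lg x f = 0 := fun x hx => by
    simpa [lg_one] using lg_add (x := x) one_ne_zero ((hf x hx).mono (by rw [lg_one]; omega))
  have f0 := (a _ hx₀).1
  obtain ⟨y, hy⟩ := ex_notMem k S
  obtain ⟨u, u1, u2⟩ := hs _ (-(pd k f ⊔ 0)) y hy le_rfl _ ((bd_iff pw_ne).mpr lg_pw.le)
  have u0 : u ≠ 0 := by
    rintro rfl
    have := (bd_iff pw_ne).mp (by simpa using u2.neg)
    rw [lg_pw] at this; simp at this
  have u3 : u ∈ M k (S : Set (Place K))ᶜ 0 := M_mono (neg_nonpos.mpr le_sup_right) u1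
  have u4 : f * u ∈ M k (S : Set (Place K))ᶜ 0 := fun x hx =>
    (bd_mul_iff f0).mpr ((u1 x hx).mono (by simp))
  have z : ∀ f, ∀ x ∉ (S : Set (Place K))ᶜ, Dz k S f x = 0 := fun f x hx => by
    simp [Dz_apply, show x ∈ S by simpa using hx]
  have p := fun f a b => isDet_psi hs hm g χ hn (Dz k S f) (Dz_nonneg a b) (z f)
  obtain ⟨r, r1, r2⟩ := hc u (f * u - u) u0 u3 (sub_mem u4 u3) (fun x hx => by
    rw [← sub_one_mul]; exact ((hf x hx).mul Bd.lg).mono (by omega)) _ (p u u0 u3)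
  rw [add_sub_cancel] at r2
  have f1 := mul_ne_zero f0 u0
  have := hχ (((p u u0 u3).unique hs hm (Dz_nonneg u0 u3) (z _) r1).trans
    (r2.unique hs hm (Dz_nonneg f1 u4) (z _) (p _ f1 u4)))
  rw [show pd k f = Dz k S u - Dz k S (f * u) from Finsupp.ext fun x => by
    simp only [pd_apply, Finsupp.sub_apply, Dz_apply, lg_mul f0 u0]
    split_ifs with hx <;> simp [a x, *], Psi_sub, this, div_self']

end Pool.Agent.H46.FF
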