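import Pool.Agent.H46.FF.Val

set_option autoImplicit false

namespace Pool.Agent.H46.FF

open IsLocalRing Polynomial IntermediateField Module Finsupp

variable {k K : Type} [Field k] [Field K] [Algebra k K]

lemma adj_inv (t : K) : k⟮t⁻¹⟯ = k⟮t⟯ := le_antisymm
  (adjoin_simple_le_iff.mpr (inv_mem (mem_adjoin_simple_self k t)))
  (adjoin_simple_le_iff.mpr (inv_mem_iff.mp (mem_adjoin_simple_self k t⁻¹)))

abbrev Dv (K : Type) [Field K] := Place K →₀ ℤ

variable (k) in
noncomputable def dg : Dv K →ₗ[ℤ] ℤ := linearCombination ℤ fun x => (deg k x : ℤ)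

omit [Field k] [Algebra k K] in
@[simp] lemma dg_single (x : Place K) (m : ℤ) : dg k (single x m) = m * deg k x := by simp [dg]

omit [Field k] [Algebra k K] in
lemma dg_nonneg {D : Dv K} (h : 0 ≤ D) : 0 ≤ dg k D :=
  Finset.sum_nonneg fun x _ => smul_nonneg (h x) (Nat.cast_nonneg _)

theorem eff_ind {T : Set (Place K)} {p : Dv K → Prop} (h0 : p 0)
    (hs : ∀ D x, 0 ≤ D → x ∈ T → (∀ x ∉ T, D x = 0) → p D → p (D + single x 1)) (D : Dv K)
    (h : 0 ≤ D) (hT : ∀ x ∉ T, D x = 0) : p D := by
  classical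
  let σ : Dv K →ₗ[ℤ] ℤ := linearCombination ℤ fun _ => 1
  have s0 : ∀ D, 0 ≤ D → 0 ≤ σ D := fun D h =>
    Finset.sum_nonneg fun x _ => smul_nonneg (h x) zero_le_one
  obtain ⟨n, hn⟩ := Int.eq_ofNat_of_zero_le (s0 D h)
  induction n using Nat.strong_induction_on generalizing D with | _ n ih => ?_
  rcases eq_or_ne D 0 with rfl | e
  · exact h0
  obtain ⟨x, hx⟩ := DFunLike.ne_iff.mp e
  have a : 0 ≤ D - single x 1 := fun y => by
    have := h y; have := h x
    simp only [Finsupp.coe_zero, Pi.zero_apply, Finsupp.coe_sub, Pi.sub_apply, single_apply] at *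
    split_ifs with e <;> [subst e; skip] <;> omega
  have xT : x ∈ T := by_contra fun c => hx (hT x c)
  have b : ∀ y ∉ T, (D - single x 1 : Dv K) y = 0 := fun y hy => by
    simp [hT y hy, single_eq_of_ne (show y ≠ x from fun e => hy (e ▸ xT))]
  obtain ⟨m, hm⟩ := Int.eq_ofNat_of_zero_le (s0 _ a)
  have : σ (D - single x 1) = σ D - 1 := by simp [σ]
  simpa using hs _ x a xT b (ih m (by omega) _ a b hm)

variable [Finite k] [Pl K]

variable (k) in
def M (T : Set (Place K)) (D : Dv K) : Submodule k K where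
  carrier := {f | ∀ x ∈ T, Bd x (D x) f}
  add_mem' a b x hx := (a x hx).add (b x hx)
  zero_mem' _ _ := .zero
  smul_mem' c _ a x hx := (a x hx).smul c

lemma M_mono {T : Set (Place K)} {D E : Dv K} (h : D ≤ E) : M k T D ≤ M k T E :=
  fun _ a x hx => (a x hx).mono (h x)

lemma mem_M_step {T : Set (Place K)} {D : Dv K} {y : Place K} (hy : y ∈ T) {f : K} :
    f ∈ M k T (D - single y 1) ↔ f ∈ M k T D ∧ Bd y (D y - 1) f := by
  classical
  refine ⟨fun h => ⟨M_mono (sub_le_self _ (by simp)) h, by simpa using h y hy⟩, fun h x hx => ?_⟩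
  rcases eq_or_ne x y with rfl | e
  · simpa using h.2
  · simpa [single_eq_of_ne e] using h.1 x hx

variable (k) in
def Sur (T : Set (Place K)) (c : ℤ) : Prop := ∀ (D : Dv K), ∀ y ∈ T, c ≤ dg k D - deg k y →
  ∀ w, Bd y (D y) w → ∃ z ∈ M k T D, Bd y (D y - 1) (z - w)

lemma sur_fin (T : Finset (Place K)) (c : ℤ) : Sur k (T : Set (Place K)) c := fun D y _ _ _ hw =>
  (weak T y D hw).imp fun _ h => ⟨h.2, h.1⟩

theorem approx {T : Set (Place K)} {c : ℤ} (hs : Sur k T c) (D E : Dv K) (h : 0 ≤ E)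
    (hT : ∀ x ∉ T, E x = 0) {w : K} : c ≤ dg k D - dg k E → (∀ x, E x ≠ 0 → Bd x (D x) w) →
      ∃ z ∈ M k T D, ∀ x, E x ≠ 0 → Bd x (D x - E x) (z - w) := by
  classical
  refine eff_ind (T := T) (p := fun E => c ≤ dg k D - dg k E → (∀ x, E x ≠ 0 → Bd x (D x) w) →
      ∃ z ∈ M k T D, ∀ x, E x ≠ 0 → Bd x (D x - E x) (z - w))
    (fun _ _ => ⟨0, zero_mem _, by simp⟩) (fun E y E0 hy ET ih hc hw => ?_) E h hT
  have E1 : ∀ x, 0 ≤ E x := E0
  simp only [map_add, dg_single, one_mul, Finsupp.coe_add, Pi.add_apply, single_apply] at hc hw ⊢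
  obtain ⟨z, h1, h2⟩ := ih (by omega) fun x hx => hw x (by have := E1 x; split_ifs <;> omega)
  have h3 : Bd y (D y - E y) (z - w) := by
    by_cases e : E y = 0
    · simpa [e] using (h1 y hy).sub (hw y (by simp [e]))
    · exact h2 y e
  obtain ⟨u, h4, h5⟩ := hs (D - E) y hy (by rw [map_sub]; omega) _ h3
  refine ⟨z - u, sub_mem h1 (M_mono (sub_le_self _ E0) h4), fun x hx => ?_⟩
  rw [sub_right_comm]
  split_ifs at hx ⊢ with e
  · subst e; simpa [sub_add_eq_sub_sub] using h5.neg
  · simpa using (h2 x (by omega)).sub (h4 x (by_contra fun c => hx (by simp [ET x c])))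

theorem indep {T : Set (Place K)} (hs : ∀ c, Sur k T c) (D : Dv K) (h : 0 ≤ D)
    (hT : ∀ x ∉ T, D x = 0) : ∃ (ι : Type) (_ : Fintype ι) (u : ι → K),
      (Fintype.card ι : ℤ) = dg k D ∧ (∀ i, u i ∈ M k T 0) ∧
        ∀ c : ι → k, ∑ i, c i • u i ∈ M k T (-D) → c = 0 := by
  refine eff_ind (p := fun D => ∃ (ι : Type) (_ : Fintype ι) (u : ι → K),
      (Fintype.card ι : ℤ) = dg k D ∧ (∀ i, u i ∈ M k T 0) ∧
        ∀ c : ι → k, ∑ i, c i • u i ∈ M k T (-D) → c = 0)
    ⟨Empty, inferInstance, nofun, by simp, nofun, fun _ _ => Subsingleton.elim _ _⟩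
    (fun D y D0 hy _ ⟨ι, _, u, a, b, c⟩ => ?_) D h hT
  let e := finBasis k (ResidueField y.1)
  let ρ := rho (M k T (-D)) y ((-D) y) fun f hf => hf y hy
  have sj : Function.Surjective ρ := rho_surj.mpr (hs _ (-D) y hy le_rfl)
  choose z hz using fun j => sj (e j)
  refine ⟨ι ⊕ Fin _, inferInstance, Sum.elim u fun j => z j, by simp [a, deg_eq], ?_,
    fun d hd => ?_⟩
  · rintro (i | j)
    exacts [b i, M_mono (neg_nonpos.mpr D0) (z j).2]
  rw [neg_add', mem_M_step hy, Fintype.sum_sum_type] at hd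
  simp only [Sum.elim_inl, Sum.elim_inr] at hd
  have z1 := c _ ((Submodule.add_mem_iff_left _ (sum_mem fun j _ =>
    Submodule.smul_mem _ _ (z j).2)).mp hd.1)
  have z2 : ∀ i, d (.inl i) = 0 := congrFun z1
  have z3 : ρ (∑ j, d (.inr j) • z j) = 0 := (rho_eq_zero _).mpr (by simpa [z2] using hd.2)
  simp only [map_sum, map_smul, hz] at z3
  ext (i | j)
  exacts [z2 i, Fintype.linearIndependent_iff.mp e.linearIndependent _ z3 j]

variable [IsFF k K]

lemma zeros_le {f : K} (hf : Transcendental k f) {D : Dv K} (h : 0 ≤ D)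
    (hD : ∀ x, D x ≠ 0 → lg x f ≤ -D x) : dg k D ≤ finrank k⟮f⟯ K := by
  obtain ⟨ι, _, u, a, b, c⟩ := indep (k := k) (sur_fin D.support) D h (by simp)
  have m : ∀ z ∈ M k D.support 0, f * z ∈ M k D.support (-D) := fun z hz x hx => by
    simpa using (Bd.lg.mono (hD x (by simpa using hx))).mul (hz x hx)
  rw [← a, Nat.cast_le]
  exact indep_le hf _ (fun z hz => M_mono (neg_nonpos.mpr h) (m z hz)) u b
    fun d ⟨z, hz, e⟩ => c d (e ▸ m z hz)

omit [IsFF k K] in
lemma lg_alg {f : K} (hf : IsAlgebraic k f) (x : Place K) : lg x f = 0 := by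
  rcases eq_or_ne f 0 with rfl | h
  · simp [lg]
  have a := (bd_iff h).mp (Bd.alg (x := x) hf)
  have b := (bd_iff (inv_ne_zero h)).mp (Bd.alg (x := x) hf.inv)
  rw [lg_inv] at b; omega

variable (k) in
include k in
lemma lg_fin (f : K) : (Function.support fun x => lg x f).Finite := by
  classical
  have key : ∀ f : K, {x | lg x f < 0}.Finite := fun f => by
    by_cases hf : IsAlgebraic k f
    · simp [lg_alg hf]
    by_contra c
    obtain ⟨T, h1, h2⟩ := Set.Infinite.exists_subset_card_eq c (finrank k⟮f⟯ K + 1)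
    have e : ∀ x, (∑ y ∈ T, single y 1 : Dv K) x = if x ∈ T then 1 else 0 := fun x => by
      simp [finsetSum_apply, single_apply]
    have := zeros_le hf (D := ∑ y ∈ T, single y 1) (Finset.sum_nonneg fun _ _ => by simp)
      fun x hx => by
        rw [e] at hx ⊢
        split_ifs at hx ⊢ with h
        · have : lg x f < 0 := h1 h
          omega
        · exact absurd rfl hx
    have b := Finset.card_nsmul_le_sum T (fun y => (deg k y : ℤ)) 1 fun y _ => by
      exact_mod_cast deg_pos y
    simp only [map_sum, dg_single, one_mul, h2, nsmul_one] at this b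
    push_cast at b; omega
  refine ((key f).union (key f⁻¹)).subset fun x hx => ?_
  simp only [Function.mem_support, Set.mem_union, Set.mem_ofPred_eq, lg_inv] at *
  omega

variable (k) in
noncomputable def pd (f : K) : Dv K := ofSupportFinite _ (lg_fin k f)

@[simp] lemma pd_apply (f : K) (x : Place K) : pd k f x = lg x f := rfl

omit [Finite k] [IsFF k K] in
lemma ex_zero {g : K} (hg : Transcendental k g) : ∃ x : Place K, Bd x (-1) g := by
  have g0 : g ≠ 0 := by rintro rfl; exact hg isAlgebraic_zero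
  obtain ⟨V, -, h⟩ := Ideal.image_subset_nonunits_valuationSubring
    (A := (Algebra.adjoin k {g}).toSubring) (Ideal.span {⟨g, Algebra.subset_adjoin rfl⟩}) fun e => by
      obtain ⟨⟨a, ha⟩, e⟩ := Ideal.mem_span_singleton'.mp ((Ideal.eq_top_iff_one _).mp e)
      obtain ⟨p, rfl⟩ := Algebra.adjoin_mem_exists_aeval k g ha
      have := transcendental_iff.mp hg (p * X - 1) (by
        simpa [sub_eq_zero] using congrArg Subtype.val e)
      simpa using congrArg (coeff · 0) this
  have := h ⟨_, Ideal.subset_span rfl, rfl⟩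
  exact ⟨⟨V, fun e => (V.mem_nonunits_iff_or.mp this).elim g0 fun c => c (e ▸ trivial)⟩,
    bd_neg_one.mpr this⟩

omit [Finite k] [IsFF k K] in
lemma alg_of_bd {f : K} (h : ∀ x : Place K, Bd x 0 f) : IsAlgebraic k f := by
  by_contra c
  have f0 : f ≠ 0 := by rintro rfl; exact c isAlgebraic_zero
  obtain ⟨x, hx⟩ := ex_zero (k := k) (g := f⁻¹) fun a => c (by simpa using a.inv)
  have := (bd_iff f0).mp (h x)
  rw [bd_iff (inv_ne_zero f0), lg_inv] at hx; omega

variable (k) in
noncomputable def ell (D : Dv K) : ℤ := finrank k (M k Set.univ D)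

omit [IsFF k K] in
lemma step (D : Dv K) (y : Place K) [FiniteDimensional k (M k Set.univ (D - single y 1))] :
    FiniteDimensional k (M k Set.univ D) ∧ ell k D ≤ ell k (D - single y 1) + deg k y ∧
      (ell k D = ell k (D - single y 1) + deg k y →
        ∀ w, Bd y (D y) w → ∃ z ∈ M k Set.univ D, Bd y (D y - 1) (z - w)) := by
  let ρ := rho (M k Set.univ D) y (D y) fun f hf => hf y trivial
  have e : LinearMap.ker ρ = (M k Set.univ (D - single y 1)).comap (M k Set.univ D).subtype :=
    Submodule.ext fun f => by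
      simp [ρ, rho_eq_zero, mem_M_step (Set.mem_univ y)]
  let q := Submodule.comapSubtypeEquivOfLe (M_mono (k := k) (T := Set.univ)
    (sub_le_self D (show 0 ≤ single y 1 by simp)))
  have : FiniteDimensional k (LinearMap.ker ρ) := by rw [e]; exact q.symm.finiteDimensional
  have := ρ.quotKerEquivRange.symm.finiteDimensional
  have := Module.Finite.of_submodule_quotient (LinearMap.ker ρ)
  have a := ρ.finrank_range_add_finrank_ker
  have b := (LinearMap.range ρ).finrank_le
  rw [e, q.finrank_eq] at a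
  simp only [ell, deg_eq]
  exact ⟨this, by omega, fun h => rho_surj.mp (LinearMap.range_eq_top.mp
    (Submodule.eq_top_of_finrank_eq (show finrank k (LinearMap.range ρ) = _ by omega)))⟩

instance finL (D : Dv K) : FiniteDimensional k (M k Set.univ D) := by
  have h0 : FiniteDimensional k (M k Set.univ (0 : Dv K)) := by
    obtain ⟨t, ht⟩ := IsFF.ex_t k K
    obtain ⟨x, -⟩ := ex_zero ht
    have : M k Set.univ (0 - single x 1) = ⊥ := eq_bot_iff.mpr fun f hf => by_contra fun c => by
      obtain ⟨a, b⟩ := (mem_M_step (Set.mem_univ x)).mp hf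
      rw [bd_iff c, lg_alg (alg_of_bd (k := k) fun x => a x trivial)] at b
      simp at b
    have : FiniteDimensional k (M k Set.univ (0 - single x 1)) := by rw [this]; infer_instance
    exact (step 0 x).1
  have := eff_ind (T := Set.univ) (p := fun D => FiniteDimensional k (M k Set.univ D)) h0
    (fun D x _ _ _ h => by
      have : FiniteDimensional k (M k Set.univ (D + single x 1 - single x 1)) := by
        rwa [add_sub_cancel_right]
      exact (step _ x).1) (D ⊔ 0) le_sup_right (by simp)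
  exact Submodule.finiteDimensional_of_le (M_mono (le_sup_left : D ≤ D ⊔ 0))

lemma r_mono {D E : Dv K} (h : D ≤ E) : dg k D - ell k D ≤ dg k E - ell k E := by
  have := eff_ind (T := Set.univ) (p := fun F => dg k D - ell k D ≤ dg k (D + F) - ell k (D + F))
    (by simp) (fun F x _ _ _ h => by
      have := (step (k := k) (D + F + single x 1) x).2.1
      simp only [add_sub_cancel_right, ← add_assoc, map_add, dg_single] at *
      omega) (E - D) (sub_nonneg.mpr h) (by simp)
  simpa using this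

lemma ell_add_pd {f : K} (hf : f ≠ 0) (D : Dv K) : ell k (D + pd k f) = ell k D := by
  have : M k Set.univ (D + pd k f) = (M k Set.univ D).map
      ((LinearEquiv.smulOfNeZero K K f hf).restrictScalars k : K →ₗ[k] K) := by
    refine Submodule.ext fun z => ⟨fun h => ⟨f⁻¹ * z, fun x hx => ?_, by simp [hf]⟩, ?_⟩
    · simpa [bd_mul_iff (inv_ne_zero hf), lg_inv] using h x hx
    · rintro ⟨z, h, rfl⟩ x hx
      simpa [bd_mul_iff hf] using h x hx
  rw [ell, this, LinearEquiv.finrank_map_eq, ell]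

lemma poles {t : K} (ht : Transcendental k t) : dg k (pd k t ⊔ 0) = finrank k⟮t⟯ K ∧
    ∃ c : ℤ, ∀ m : ℕ, dg k (m • (pd k t ⊔ 0)) - ell k (m • (pd k t ⊔ 0)) ≤ c := by
  have := IsFF.fin ht
  set B := pd k t ⊔ 0 with hB
  set N := finrank k⟮t⟯ K with hN
  have h1 : dg k B ≤ N := by
    have := zeros_le (k := k) (f := t⁻¹) (fun a => ht (by simpa using a.inv)) (D := B) le_sup_right
      fun x hx => by simp only [hB, Finsupp.sup_apply, pd_apply, Finsupp.coe_zero, Pi.zero_apply, lg_inv] at *; omega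
    rwa [adj_inv] at this
  let u := finBasis k⟮t⟯ K
  let C : Dv K := ∑ j, pd k (u j) ⊔ 0
  have C0 : 0 ≤ C := Finset.sum_nonneg fun _ _ => le_sup_right
  have h2 : ∀ m : ℕ, (m + 1) * N ≤ ell k (m • B + C) := fun m => by
    have li : LinearIndependent k fun i : Fin (m + 1) => AdjoinSimple.gen k t ^ (i : ℕ) := by
      refine LinearIndependent.of_comp k⟮t⟯.val.toLinearMap
        (Fintype.linearIndependent_iff.mpr fun g hg i => ?_)
      have := transcendental_iff.mp ht (∑ i : Fin (m + 1), monomial i (g i)) (by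
        simpa [aeval_monomial, Algebra.smul_def] using hg)
      simpa [coeff_monomial, Fin.val_inj] using congrArg (coeff · i) this
    have mem : ∀ p : Fin (m + 1) × Fin N, (AdjoinSimple.gen k t ^ (p.1 : ℕ)) • u p.2 ∈
        M k Set.univ (m • B + C) := fun p x _ => by
      have a : (pd k (u p.2) ⊔ 0 : Dv K) x ≤ C x := Finset.single_le_sum
        (f := fun j => pd k (u j) ⊔ 0) (fun _ _ => le_sup_right) (Finset.mem_univ _) x
      refine ((Bd.lg.pow p.1).mul Bd.lg).mono ?_
      have : ((p.1 : ℕ) : ℤ) ≤ m := by exact_mod_cast Nat.lt_succ_iff.mp p.1.2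
      change max (lg x (u p.2)) 0 ≤ C x at a
      change _ * lg x t + _ ≤ m * max (lg x t) 0 + C x
      nlinarith [le_max_left (lg x t) 0, le_max_right (lg x t) 0, le_max_left (lg x (u p.2)) 0]
    have := LinearIndependent.fintype_card_le_finrank (b := fun p => (⟨_, mem p⟩ : M k _ _))
      (.of_comp (M k _ _).subtype (linearIndependent_smul li u.linearIndependent))
    simp only [Fintype.card_prod, Fintype.card_fin] at this
    rw [ell]; exact_mod_cast this
  have h3 : N ≤ dg k B := by
    by_contra! c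
    obtain ⟨m, hm⟩ := Int.eq_ofNat_of_zero_le (add_nonneg (dg_nonneg (k := k) C0)
      (Nat.cast_nonneg _ : 0 ≤ ell k (0 : Dv K)))
    have B0 : 0 ≤ B := le_sup_right
    have a := r_mono (k := k) (add_nonneg (nsmul_nonneg B0 m) C0)
    have b := h2 m
    have := dg_nonneg (k := k) B0
    simp only [map_add, map_nsmul, map_zero, nsmul_eq_mul, ell] at a b
    nlinarith
  refine ⟨h1.antisymm h3, dg k C, fun m => (r_mono (le_add_of_nonneg_right C0)).trans ?_⟩
  have b := h2 m
  simp only [map_add, map_nsmul, nsmul_eq_mul]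
  nlinarith

theorem dg_pd (f : K) : dg k (pd k f) = 0 := by
  by_cases hf : IsAlgebraic k f
  · rw [show pd k f = 0 from Finsupp.ext (lg_alg hf), map_zero]
  have a := (poles hf).1
  have b := (poles (k := k) (t := f⁻¹) fun a => hf (by simpa using a.inv)).1
  rw [adj_inv] at b
  rw [show pd k f = (pd k f ⊔ 0) - (pd k f⁻¹ ⊔ 0) from Finsupp.ext fun x => by
    simp only [Finsupp.sup_apply, pd_apply, Finsupp.coe_zero, Pi.zero_apply, lg_inv, Finsupp.coe_sub, Pi.sub_apply]; omega,
    map_sub, a, b, sub_self]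

omit [Finite k] [Pl K] [IsFF k K] in
lemma frob_ne {t : K} (ht : Transcendental k t) {n : ℕ} (hn : 1 < n) : t ^ n - t ≠ 0 := fun e =>
  FiniteField.X_pow_card_sub_X_ne_zero k hn (transcendental_iff.mp ht _ (by simpa using e))

variable (k K) in
theorem riemann : ∃ g c : ℤ, ∀ D : Dv K, c ≤ dg k D → ell k D = dg k D - g := by
  obtain ⟨t, ht⟩ := IsFF.ex_t k K
  obtain ⟨-, c, hc⟩ := poles ht
  have bd : ∀ D : Dv K, dg k D - ell k D ≤ c := fun D => by
    obtain ⟨h, h0, hh⟩ := eff_ind (T := Set.univ)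
      (p := fun D => ∃ h, h ≠ 0 ∧ ∀ x, Bd x 0 t → D x + lg x h ≤ 0) ⟨1, one_ne_zero, by simp [lg_one]⟩
      (fun D y _ _ _ ⟨h, h0, hh⟩ => by
        classical
        have n0 := frob_ne ht (Finite.one_lt_card (α := ResidueField y.1))
        refine ⟨_, mul_ne_zero h0 n0, fun x hx => ?_⟩
        have b1 : Bd x 0 (t ^ Nat.card (ResidueField y.1)) := by simpa using hx.pow _
        have b2 := (bd_iff n0).mp (b1.sub hx)
        have := hh x hx
        rw [lg_mul h0 n0, Finsupp.coe_add, Pi.add_apply, single_apply]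
        split_ifs with e
        · subst e
          have := Fintype.ofFinite (ResidueField y.1)
          have := (bd_iff n0).mp ((res_eq_res b1 hx).mp (by
            rw [res_pow hx, Nat.card_eq_fintype_card, FiniteField.pow_card]))
          omega
        · omega) (D ⊔ 0) le_sup_right (by simp)
    obtain ⟨m, hm⟩ := ((D + pd k h).support.image fun x => ((D + pd k h) x).toNat).exists_le
    have := r_mono (k := k) (D := D + pd k h) (E := m • (pd k t ⊔ 0)) fun x => by
      have t0 : t ≠ 0 := by rintro rfl; exact ht isAlgebraic_zero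
      have a := hh x
      rw [bd_iff t0] at a
      by_cases e : (D + pd k h) x = 0
      · exact e.le.trans (nsmul_nonneg (le_sup_right : 0 ≤ pd k t ⊔ 0) m x)
      have b := Int.toNat_le.mp (hm _ (Finset.mem_image_of_mem _ (mem_support_iff.mpr e)))
      simp only [Finsupp.sup_apply, pd_apply, Finsupp.coe_zero, Pi.zero_apply, Finsupp.coe_add, Pi.add_apply,
        Finsupp.coe_smul, Pi.smul_apply, nsmul_eq_mul] at *
      rcases le_or_gt (lg x t) 0 with s | s
      · have := a s
        rw [max_eq_right s]; omega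
      · rw [max_eq_left s.le]; nlinarith
    have := hc m
    simp only [ell_add_pd h0, map_add, dg_pd] at *
    omega
  obtain ⟨g, ⟨D₀, rfl⟩, hg⟩ := Int.exists_greatest_of_bdd
    (P := fun z => ∃ D : Dv K, dg k D - ell k D = z) ⟨c, by rintro _ ⟨D, rfl⟩; exact bd D⟩ ⟨_, 0, rfl⟩
  refine ⟨dg k D₀ - ell k D₀, 2 * dg k D₀ - ell k D₀ + 1, fun D hD => ?_⟩
  have a := hg _ ⟨D - D₀, rfl⟩
  have b := hg _ ⟨D, rfl⟩
  rw [map_sub] at a
  obtain ⟨f, hf, f0⟩ := Submodule.exists_mem_ne_zero_of_ne_bot (p := M k Set.univ (D - D₀))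
    fun e => by rw [ell, e, finrank_bot] at a; omega
  have := r_mono (k := k) (D := D₀ + pd k f) (E := D) fun x => by
    have := (bd_iff f0).mp (hf x trivial)
    simp only [pd_apply, Finsupp.coe_add, Pi.add_apply, Finsupp.coe_sub, Pi.sub_apply] at *; omega
  rw [ell_add_pd f0, map_add, dg_pd] at this
  omega

variable (k K) in
theorem riemann' : ∃ g c : ℤ, (∀ D : Dv K, c ≤ dg k D → ell k D = dg k D - g) ∧
    Sur k (Set.univ : Set (Place K)) c := by
  obtain ⟨g, c, h⟩ := riemann k K
  refine ⟨g, c, h, fun D y _ hc => (step D y).2.2 ?_⟩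
  rw [h D (by omega), h _ (by simpa using hc)]
  simp; ring

theorem sur_of_notMem {T : Set (Place K)} {x₀ : Place K} (h : x₀ ∉ T) (c : ℤ) : Sur k T c := by
  obtain ⟨-, c', -, hs⟩ := riemann' k K
  intro D y hy _ w hw
  have e : ∀ x ∈ T, (D + single x₀ |c' - dg k D + deg k y| : Dv K) x = D x := fun x hx => by
    simp [single_eq_of_ne (show x ≠ x₀ from fun e => h (e ▸ hx))]
  obtain ⟨z, a, b⟩ := hs (D + single x₀ |c' - dg k D + deg k y|) y trivial (by
    have : (1 : ℤ) ≤ deg k x₀ := by exact_mod_cast deg_pos x₀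
    rw [map_add, dg_single]
    nlinarith [le_abs_self (c' - dg k D + deg k y), abs_nonneg (c' - dg k D + deg k y)]) w
    (by rwa [e y hy])
  exact ⟨z, fun x hx => e x hx ▸ a x trivial, e y hy ▸ b⟩

end Pool.Agent.H46.FF
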