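import Pool.Agent.H46.FF.Pencil

set_option autoImplicit false

namespace Pool.Agent.H46.FF

open IsLocalRing Module MonoidAlgebra

section
variable {G B B' : Type} [CommGroup G] [Fintype G] [CommRing B] [CommRing B']

noncomputable def uu (θ : G → B) : B[G] := ∑ g, single g⁻¹ (θ g)

noncomputable def aa (q N : ℕ) (θ : G → B) : B[G] := uu (fun g => θ g ^ q) * uu θ ^ (N - 1)

lemma map_uu (f : B →+* B') (θ : G → B) : mapRingHom G f (uu θ) = uu fun g => f (θ g) := by
  simp [uu]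

lemma map_aa (f : B →+* B') (q N : ℕ) (θ : G → B) :
    mapRingHom G f (aa q N θ) = aa q N fun g => f (θ g) := by simp [aa, map_uu]

lemma coeff_aa (f : B →+* B') (q N : ℕ) (θ : G → B) (g : G) :
    (aa q N fun g => f (θ g)).coeff g = f ((aa q N θ).coeff g) := by
  rw [← map_aa, coeff_mapRingHom]

lemma uu_shift (θ : G → B) (h : G) : (uu fun g => θ (h * g)) = of B G h * uu θ := by
  rw [uu, uu, Finset.mul_sum]
  exact Fintype.sum_equiv (Equiv.mulLeft h) _ _ fun g => by simp [single_mul_single]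

lemma eq_one_add (x : B[G]) (h : lift B B G 1 x = 1) :
    x = 1 + ∑ g, (of B G g - 1) * algebraMap B B[G] (x.coeff g) := by
  have a : ∑ g, x.coeff g = 1 := by
    rw [lift_apply, Finsupp.sum_fintype _ _ (by simp)] at h; simpa using h
  have b : x = ∑ g, single g (x.coeff g) := by
    rw [← Finsupp.sum_fintype _ _ (by simp), sum_coeff_single]
  simp only [sub_mul, Finset.sum_sub_distrib, one_mul, ← map_sum, a, map_one]
  simpa [single_mul_single] using b

end

variable {k : Type} [Field k] [Finite k] {p n : ℕ} [Fact p.Prime] [CharP k p]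

theorem moore {G κ κ' : Type} [CommGroup G] [Fintype G] [Field κ] [Field κ'] [Algebra k κ]
    [Algebra k κ'] [Finite κ] (hG : ∀ g : G, g ^ p ^ n = 1) (ι : κ →ₐ[k] κ') (μ : G → κ)
    (θ : G → κ') (h1 : ∑ g, θ g = 1) (h2 : ∀ g, (aa (Nat.card k) (p ^ n) θ).coeff g = ι (μ g))
    (σ : G) (h3 : ∀ g, θ g ^ Nat.card k ^ finrank k κ = θ (σ * g)) :
    dt (fun g => of k G g - 1) (fun g => Algebra.leftMulMatrix (finBasis k κ) (μ g)) = of k G σ := by
  have := charP_of_injective_algebraMap (algebraMap k κ').injective p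
  have := charP_of_injective_algebraMap (R := κ') (A := κ'[G]) single_right_injective p
  set e := finBasis k κ
  let Φ := mapRingHom G (algebraMap k κ')
  let a := algebraMap κ' κ'[G]
  let τ : Fin (finrank k κ) → κ →ₐ[k] κ' := fun i => ι.comp (fro k κ i)
  let V : Matrix _ _ κ' := .of fun i l => τ i (e l)
  have hV : IsUnit V := Matrix.linearIndependent_rows_iff_isUnit.mp (by
    let := Fintype.ofFinite k
    refine ((linearIndependent_algHom_toLinearMap k κ κ').comp τ fun i j h =>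
      (FiniteField.bijective_frobeniusAlgHom_pow k κ).1 (AlgHom.ext fun c =>
        ι.injective (DFunLike.congr_fun h c))).map' (e.constr κ').symm.toLinearMap (by simp))
  have hm : ∀ c i l, ∑ j, V i j * algebraMap k κ' (Algebra.leftMulMatrix e c j l) =
      τ i c * V i l := fun c i l => by
    simp only [V, Matrix.of_apply, Algebra.leftMulMatrix_eq_repr_mul, ← map_mul]
    conv_rhs => rw [← e.sum_repr (c * e l)]
    simp [Algebra.smul_def, mul_comm]
  let u : ℕ → κ'[G] := fun i => uu fun g => fro k κ' i (θ g)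
  have u1 : ∀ i, u i ^ p ^ n = 1 := fun i => by
    simp only [u, uu, sum_pow_char_pow, single_pow, hG]
    refine (map_sum (singleAddHom (1 : G)) _ _).symm.trans ?_
    rw [← sum_pow_char_pow, ← map_sum, h1, map_one, one_pow]; rfl
  let b : ℕ → κ'[G] := fun i => mapRingHom G (fro k κ' i) (aa (Nat.card k) (p ^ n) θ)
  have u2 : ∀ j, (∏ i ∈ Finset.range j, b i) * u 0 = u j := fun j => by
    induction j with
    | zero => simp
    | succ j ih =>
      rw [Finset.prod_range_succ_comm, mul_assoc, ih]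
      simp only [b, map_aa]
      erw [aa, mul_assoc, ← pow_succ, Nat.sub_add_cancel (Nat.one_le_pow _ _ (Fact.out : p.Prime).pos),
        u1, mul_one]
      simp [u, fro_apply, ← pow_mul, pow_succ]
  have u3 : ∏ i ∈ Finset.range (finrank k κ), b i = of κ' G σ :=
    (IsUnit.of_pow_eq_one (u1 0) (pow_ne_zero _ (Fact.out : p.Prime).ne_zero)).mul_right_cancel (by
      rw [u2]; simp only [u, fro_apply, h3, pow_zero, pow_one, uu_shift])
  have u4 : ∀ i : Fin _, b i = 1 + ∑ g, (of κ' G g - 1) * a (τ i (μ g)) := fun i => by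
    rw [eq_one_add (b i) (by
      simp only [b, aa, uu, map_mul, map_pow, map_sum, ← pow_one (Nat.card k) ▸ fro_apply (k := k) 1]
      simp [← map_sum, h1])]
    simp [b, h2, τ, fro_apply, a]
  refine (show Function.Injective Φ from fun x y h => coeff_injective (Finsupp.ext fun g =>
    (algebraMap k κ').injective (by simpa [Φ] using congrArg (·.coeff g) h))) ?_
  refine ((Matrix.isUnit_iff_isUnit_det _).mp (hV.map a.mapMatrix)).mul_left_cancel ?_
  rw [dt, RingHom.map_det, ← Matrix.det_mul, show Φ (of k G σ) = of κ' G σ by simp [Φ], ← u3,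
    Finset.prod_range, mul_comm, ← Matrix.det_diagonal, ← Matrix.det_mul]
  congr 1
  ext1 i l
  have : ∀ c, Φ (algebraMap k _ c) = a (algebraMap k κ' c) := fun c => by simp [Φ, a]
  rw [Matrix.diagonal_mul, map_add, map_one, Matrix.mul_add, Matrix.mul_one, u4, add_mul, one_mul,
    map_sum, Matrix.mul_sum, Finset.sum_mul, Matrix.add_apply, Matrix.sum_apply]
  refine congrArg _ (Finset.sum_congr rfl fun g _ => ?_)
  simp only [Matrix.mul_apply, RingHom.mapMatrix_apply, Matrix.map_apply, Matrix.smul_apply,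
    smul_eq_mul, map_mul, this, mul_assoc, ← map_mul a, ← hm]
  simp [Φ, mul_left_comm, Finset.mul_sum]

variable {K K' : Type} [Field K] [Field K'] [Algebra k K] [Algebra k K'] [Algebra K K'] [Pl K]
  [Pl K'] [IsFF k K] [IsScalarTower k K K'] [FiniteDimensional K K'] [IsGalois K K']
  {S : Finset (Place K)} {S' : Finset (Place K')}

omit [Pl K] in
theorem trace_one (hS : S.Nonempty) (hS' : ∀ y, y ∈ S' ↔ under K y ∈ S) (hu : ∀ x ∉ S, Unram K' x) :
    ∃ θ ∈ M k (S' : Set (Place K'))ᶜ 0, ∑ σ : Gal(K'/K), σ θ = 1 := by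
  classical
  have := IsFF.ext k K K'
  obtain ⟨x₀, hx₀⟩ := hS
  obtain ⟨y₀, hy₀⟩ := ex_over K' x₀
  have hs := sur_of_notMem (k := k) (T := (S' : Set (Place K'))ᶜ) (x₀ := y₀)
    (by simpa [hS', over_iff.mp hy₀])
  have st : ∀ (σ : Gal(K'/K)) (y : Place K'), y ∉ S' → σ • y ∉ S' := fun σ y hy => by
    rwa [hS', over_iff.mp ((over_iff.mpr rfl).smul σ), ← hS']
  have a : ∀ (σ : Gal(K'/K)), ∀ b ∈ M k (S' : Set (Place K'))ᶜ 0, σ b ∈ M k (S' : Set (Place K'))ᶜ 0 :=
    fun σ b hb y hy => bd0_smul'.mpr (hb _ (st _ y hy))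
  let t : K' → K' := fun b => ∑ σ : Gal(K'/K), σ b
  have t1 : ∀ (τ : Gal(K'/K)) b, τ (t b) = t b := fun τ b => by
    rw [map_sum]; exact Fintype.sum_equiv (Equiv.mulLeft τ) _ _ fun _ => rfl
  have t2 : ∀ b ∈ M k (S' : Set (Place K'))ᶜ 0, t b ∈ M k (S' : Set (Place K'))ᶜ 0 :=
    fun b hb => sum_mem fun σ _ => a σ b hb
  have t3 : ∀ z b c, (∀ τ : Gal(K'/K), τ z = z) → t (b - z * c) = t b - z * t c := fun z b c h => by
    simp [t, h, Finset.mul_sum]
  have loc : ∀ y ∉ S', ∃ θ ∈ M k (S' : Set (Place K'))ᶜ 0, Bd y (-1) (t θ - 1) := fun y hy => by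
    let A : Submonoid K' := ⟨⟨M k (S' : Set (Place K'))ᶜ 0, M_mul⟩, fun _ _ => .one⟩
    let χ : Gal(K'/K) → A →* ResidueField y.1 := fun σ =>
      ⟨⟨fun b => res y (σ b), by simp [res_one]⟩, fun b c => by
        simp [res_mul (a σ _ b.2 y hy) (a σ _ c.2 y hy)]⟩
    have inj : Function.Injective χ := fun σ τ e => by
      have h : ∀ b ∈ A, res y ((σ * τ⁻¹) b) = res y b := fun b hb => by
        simpa [χ] using DFunLike.congr_fun e ⟨τ⁻¹ b, a _ _ hb⟩
      rw [← mul_inv_eq_one]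
      generalize σ * τ⁻¹ = s at *
      have hy' : s⁻¹ • y = y := by_contra fun c => by
        have e : (-Finsupp.single (s⁻¹ • y) 1 : Dv K') y = 0 := by
          simp [Finsupp.single_eq_of_ne (Ne.symm c)]
        obtain ⟨z, z1, z2⟩ := hs _ _ y hy le_rfl 1 (e.symm ▸ Bd.one)
        have z3 : z ∈ A := M_mono (by simp) z1
        have := (res_eq_zero (a _ _ z3 y hy)).mpr (bd1_smul'.mpr (by
          simpa using z1 _ (st s⁻¹ y hy)))
        rw [h z z3, (res_eq_res (z3 y hy) .one).mpr (by simpa [e] using z2), res_one] at this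
        exact one_ne_zero this
      refine (unram_iff (k := k)).mp (hu _ (mt (hS' y).mpr hy)) y
        (over_iff.mpr rfl) _ fun w hw => ?_
      obtain ⟨z, z1, z2⟩ := hs _ 0 y hy le_rfl w hw
      convert ((res_eq_res (a _ _ z1 y hy) (z1 y hy)).mp (h z z1)).add
        (z2.sub ((bd1_smul' (σ := s)).mpr (hy'.symm ▸ z2))) using 1
      simp only [pow_zero, pow_one, map_sub]; ring
    have : ∑ σ, (1 : ResidueField y.1) • (χ σ : A → ResidueField y.1) ≠ 0 := fun e =>
      one_ne_zero (Fintype.linearIndependent_iff.mp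
        ((linearIndependent_monoidHom A _).comp χ inj) (fun _ => 1) e 1)
    obtain ⟨b, hb⟩ := Function.ne_iff.mp this
    have tb := t2 b b.2
    replace hb : res y (t b) ≠ 0 := by
      rw [res_sum fun σ _ => a σ _ b.2 y hy]; simpa [χ] using hb
    have := Fintype.ofFinite (ResidueField y.1)
    obtain ⟨N, hN⟩ := Nat.exists_eq_add_of_le' (Fintype.one_lt_card (α := ResidueField y.1))
    refine ⟨0 - -t b ^ N * b, sub_mem (zero_mem _) (M_mul (neg_mem (pow_mem (S := A) tb N)) b.2), ?_⟩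
    rw [t3 _ _ _ (by simp [t1]), show t 0 - -t b ^ N * t b = t b ^ (N + 1) by simp [t, pow_succ],
      ← res_eq_res (by simpa using (tb y hy).pow _) .one, res_pow (tb y hy), res_one,
      ← FiniteField.pow_card_sub_one_eq_one _ hb, hN]
    rfl
  obtain ⟨y, hy⟩ := ex_notMem k S'
  obtain ⟨θ₀, b1, b2⟩ := loc y hy
  have t0 : t θ₀ ≠ 0 := fun e => by
    rw [e, zero_sub] at b2
    have := (bd_iff one_ne_zero).mp (neg_neg (1 : K') ▸ b2.neg)
    rw [lg_one] at this; omega
  obtain ⟨θ, c1, c2⟩ := eff_ind (T := (S' : Set (Place K'))ᶜ) (p := fun D =>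
    ∃ θ ∈ M k (S' : Set (Place K'))ᶜ 0, t θ - 1 ∈ M k (S' : Set (Place K'))ᶜ (-D))
    ⟨0, zero_mem _, fun _ _ => by simpa [t] using Bd.one.neg⟩ (fun D y D0 hy _ ⟨θ, c1, c2⟩ => by
      obtain ⟨θ', d1, d2⟩ := loc y hy
      refine ⟨θ - (t θ - 1) * θ', sub_mem c1 (M_mul (M_mono (neg_nonpos.mpr D0) c2) d1), ?_⟩
      rw [t3 _ _ _ (by simp [t1]), show t θ - (t θ - 1) * t θ' - 1 = -((t θ' - 1) * (t θ - 1)) by ring,
        neg_add', neg_mem_iff, mem_M_step hy]
      exact ⟨M_mul (sub_mem (t2 _ d1) fun _ _ => .one) c2, (d2.mul (c2 y hy)).mono (by omega)⟩)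
    (Dz k S' (t θ₀)) (Dz_nonneg t0 (t2 _ b1)) fun x hx => by
      simp [Dz_apply, show x ∈ S' by simpa using hx]
  refine ⟨θ - (t θ₀)⁻¹ * (t θ - 1) * θ₀, sub_mem c1 (M_mul (fun x hx =>
    (bd_mul_iff (inv_ne_zero t0)).mpr (by simpa [lg_inv] using mem_Dz.mp c2 x hx)) b1), ?_⟩
  refine (t3 _ _ _ (by simp [t1])).trans ?_
  field_simp; ring

open scoped IsMulCommutative in
theorem recip [IsMulCommutative Gal(K'/K)] (hG : ∀ g : Gal(K'/K), g ^ p ^ n = 1) (hS : S.Nonempty)
    (hu : ∀ x ∉ S, Unram K' x) :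
    ∃ c : ℤ, 0 < c ∧ ∀ f, (∀ x ∈ S, Bd x (-c) (f - 1)) → Psi (frob K') (pd k f) = 1 := by
  obtain ⟨S', hS'⟩ := ex_above (K' := K') S
  obtain ⟨θ, h1, h2⟩ := trace_one (k := k) hS hS' hu
  choose m hm using fun g => (IsGalois.mem_range_algebraMap_iff_fixed (F := K)
    ((aa (Nat.card k) (p ^ n) fun σ : Gal(K'/K) => σ θ).coeff g)).mpr fun τ => by
      refine (coeff_aa (τ : K' →+* K') _ _ _ _).symm.trans (congrArg (coeff · g) ?_)
      have := uu_shift (fun σ : Gal(K'/K) => σ θ ^ Nat.card k) τ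
      have := uu_shift (fun σ : Gal(K'/K) => σ θ) τ
      simp only [AlgEquiv.mul_apply] at *
      simp only [aa, RingHom.coe_coe, *, mul_pow]
      rw [mul_mul_mul_comm, ← pow_succ', Nat.sub_add_cancel
        (Nat.one_le_pow _ _ (Fact.out : p.Prime).pos), ← map_pow, hG, map_one, one_mul]
  have key : ∀ x ∉ S, ∀ y : Place K', Over y x → (∀ σ : Gal(K'/K), Bd y 0 (σ θ)) ∧ ∀ g,
      Bd x 0 (m g) ∧ res y (algebraMap K K' (m g)) =
        (aa (Nat.card k) (p ^ n) fun σ : Gal(K'/K) => res y (σ θ)).coeff g := fun x hx y hy => by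
    have a : ∀ σ : Gal(K'/K), Bd y 0 (σ θ) := fun σ => bd0_smul'.mpr (h1 _ (by
      simpa [hS', over_iff.mp (hy.smul _)]))
    refine ⟨a, fun g => ?_⟩
    let θ' : Gal(K'/K) → y.1 := fun σ => ⟨σ θ, bd_zero.mp (a σ)⟩
    have e := (hm g).trans (coeff_aa y.1.subtype _ _ θ' g)
    have b : Bd y 0 (algebraMap K K' (m g)) := e ▸ bd_zero.mpr (Subtype.property _)
    refine ⟨hy.bd0.mp b, ?_⟩
    simp only [res_eq (a _), res_eq b]
    exact (congrArg _ (Subtype.ext e)).trans (coeff_aa (residue y.1) _ _ θ' g).symm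
  have := charP_of_injective_algebraMap (R := k) (A := k[Gal(K'/K)]) single_right_injective p
  have := IsArtinianRing.of_finite k k[Gal(K'/K)]
  obtain ⟨ν, hν⟩ := IsArtinianRing.isNilpotent_nilradical (R := k[Gal(K'/K)])
  refine recip_of (m := m) (ε := fun g => of k _ g - 1) hS (fun g x hx => ?_) hν
    (fun g => ⟨p ^ n, by rw [sub_pow_char_pow, ← map_pow, hG, map_one, one_pow, sub_self]; exact zero_mem _⟩) _ (of k _) of_injective
    fun x hx => ?_
  all_goals obtain ⟨y, hy⟩ := ex_over K' x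
  · exact ((key x hx y hy).2 g).1
  obtain ⟨ι, hι⟩ := hy.emb k
  obtain ⟨a, b⟩ := key x hx y hy
  refine moore hG ι _ (fun σ => res y (σ θ)) (by rw [← res_sum fun σ _ => a σ, h2, res_one])
    (fun g => by rw [hι _ (b g).1, (b g).2]) _ fun g => ?_
  rw [← deg_eq, ← (fr_iff.mp (hy.fr k)).2 _ (a g)]; rfl

end Pool.Agent.H46.FF
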