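import Pool.Agent.H46.FF.Count

set_option autoImplicit false

namespace Pool.Agent.H46.FF

open IsLocalRing Finsupp Polynomial
open scoped PowerSeries PowerSeries.WithPiTopology

variable {k K : Type} [Field k] [Field K] [Algebra k K] [Finite k] [Pl K]

lemma eq_zero_of_neg {b : K} (h : IsAlgebraic k b) {x : Place K} (hx : Bd x (-1) b) : b = 0 :=
  by_contra fun c => by rw [bd_iff c, lg_alg h] at hx; omega

variable [IsFF k K]

variable (k) in
include k in
lemma ex_notMem (S : Finset (Place K)) : ∃ x, x ∉ S := by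
  by_contra! h
  obtain ⟨t, ht⟩ := IsFF.ex_t k K
  obtain ⟨y, -⟩ := ex_zero ht
  obtain ⟨z, a, b⟩ := weak S y (fun _ => -1) (w := pw y (-1)) ((bd_iff pw_ne).mpr lg_pw.le)
  rw [eq_zero_of_neg (alg_of_bd (k := k) fun x => (b x (h x)).mono (by omega)) (b y (h y)),
    zero_sub] at a
  have := (bd_iff pw_ne).mp (neg_neg (pw y (-1)) ▸ a.neg)
  rw [lg_pw] at this; omega

variable {K' : Type} [Field K'] [Algebra k K'] [Algebra K K'] [IsScalarTower k K K']
  [FiniteDimensional K K'] [IsGalois K K'] [Pl K']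

omit [Finite k] [IsFF k K] in
lemma ex_above (S : Finset (Place K)) : ∃ S' : Finset (Place K'), ∀ y, y ∈ S' ↔ under K y ∈ S :=
  ⟨(S.finite_toSet.preimage' (f := under K) fun x _ =>
    (fin_over x).subset fun _ h => over_iff.mpr h).toFinset, by simp⟩

variable (k) in
include k in
theorem split (S : Finset (Place K))
    (h : ∀ x ∉ S, ∀ y : Place K', Over y x → ∀ σ : Gal(K'/K), σ • y = y → σ = 1) :
    Nat.card Gal(K'/K) = 1 := by
  classical
  have := IsFF.ext k K K'
  obtain ⟨x₁, -⟩ := ex_notMem k S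
  wlog hS : x₁ ∈ S generalizing S
  · exact this (insert x₁ S) (fun x hx => h x fun c => hx (S.mem_insert_of_mem c))
      (S.mem_insert_self _)
  obtain ⟨x, hx⟩ := ex_notMem k S
  obtain ⟨S', hS'⟩ := ex_above (K' := K') S
  have h1 : ∀ x ∉ S, ∀ y : Place K', Over y x → deg k y = deg k x * 1 := fun x hx y hy => by
    obtain ⟨σ, e⟩ := hy.ex_fr k
    rw [h x hx y hy σ (fr_iff.mp e).1] at e
    rw [mul_one, Nat.dvd_antisymm (fr_one_iff.mp e) (((fr_one_iff (K := K)).mpr dvd_rfl).dvd hy)]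
  have h2 := zeta_over (k := k) (R := ℚ) (K' := K') (S : Set (Place K))ᶜ (fun _ => 1)
    (fun _ => Nat.card Gal(K'/K)) h1 fun x hx => by
      obtain ⟨y, hy⟩ := ex_over K' x
      have b : MulAction.orbit Gal(K'/K) y = {y' | Over y' x} :=
        Set.ext fun y' => ⟨by rintro ⟨σ, rfl⟩; exact hy.smul σ, hy.trans⟩
      rw [← Subgroup.index_bot (G := Gal(K'/K)), ← (eq_bot_iff.mpr (h x hx y hy) :
        MulAction.stabilizer Gal(K'/K) y = ⊥), MulAction.index_stabilizer, b]
      rfl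
  simp only [mul_one] at h2
  have h3 := h2.unique ((hasProd_zeta k ℚ _).pow _)
  obtain ⟨y, hy⟩ := ex_over K' x
  obtain ⟨y₁, hy₁⟩ := ex_over K' x₁
  obtain ⟨P, hP⟩ := zeta_poly1 (k := k) ⟨x₁, hS⟩ hx
  obtain ⟨Q, hQ⟩ := zeta_poly1 (k := k) (S := S') ⟨y₁, by rwa [hS', over_iff.mp hy₁]⟩ (x := y)
    (by rwa [hS', over_iff.mp hy])
  rw [show (S' : Set (Place K'))ᶜ = {y | under K y ∈ (S : Set (Place K))ᶜ} from
    Set.ext fun y => by simp [hS'], h3, h1 x hx y hy, mul_one] at hQ
  have q : (Nat.card k : ℚ) ≠ 0 := Nat.cast_ne_zero.mpr Nat.card_pos.ne'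
  have sp := separable_X_pow_sub_C ((Nat.card k : ℚ) ^ deg k x)⁻¹
    (Nat.cast_ne_zero.mpr (deg_pos (k := k) x).ne') (inv_ne_zero (pow_ne_zero _ q))
  set W : ℚ[X] := X ^ deg k x - C ((Nat.card k : ℚ) ^ deg k x)⁻¹
  rw [show (PowerSeries.X ^ deg k x - PowerSeries.C ((Nat.card k : ℚ) ^ deg k x)⁻¹ : ℚ⟦X⟧) = W by
    simp [W]] at hP hQ
  by_contra c
  obtain ⟨N, hN⟩ := Nat.exists_eq_add_of_le' (show 2 ≤ Nat.card Gal(K'/K) by
    have := Nat.card_pos (α := Gal(K'/K)); omega)
  obtain ⟨P', rfl⟩ := (sp.squarefree.dvd_pow_iff_dvd (y := P) (n := N + 2) (by omega)).mp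
    ⟨W ^ N * Q, coe_injective ℚ (by push_cast; rw [hP, hQ, hN]; ring)⟩
  rw [Polynomial.coe_mul, mul_right_inj' (by simpa using sp.ne_zero)] at hP
  have := congrArg (PowerSeries.coeff ((P'.natDegree + 1) * deg k x)) hP
  rw [coeff_coe, coeff_eq_zero_of_natDegree_lt (by nlinarith [deg_pos (k := k) x]), Zeta,
    PowerSeries.coeff_mk, eq_comm, Nat.cast_eq_zero, Finset.card_eq_zero] at this
  refine Finset.eq_empty_iff_forall_notMem.mp this (single x (P'.natDegree + 1)) (mem_E.mpr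
    ⟨single_nonneg.mpr (by positivity), fun z hz => single_eq_of_ne (by rintro rfl; exact hz hx),
      by rw [dg_single]; simp⟩)

theorem schmidt (hk : algebraicClosure k K = ⊥) (S : Finset (Place K)) :
    ∃ D : Dv K, (∀ x ∈ S, D x = 0) ∧ dg k D = 1 := by
  obtain ⟨a, ha⟩ := (IsPrincipalIdealRing.principal
    ((supported ℤ ℤ (S : Set (Place K))ᶜ).map (dg k))).principal
  have h1 : ∀ x ∉ S, a.natAbs ∣ deg k x := fun x hx => Int.natCast_dvd_natCast.mp
    (Int.natAbs_dvd.mpr (Ideal.mem_span_singleton.mp (ha.le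
      ⟨single x 1, single_mem_supported _ _ hx, by simp⟩)))
  suffices a.natAbs = 1 by
    obtain ⟨D, b, c⟩ := ha.ge (Ideal.mem_span_singleton.mpr (Int.isUnit_iff_natAbs_eq.mpr this).dvd :
      (1 : ℤ) ∈ _)
    exact ⟨D, by simpa using (mem_supported' _ _).mp b, c⟩
  obtain ⟨x, hx⟩ := ex_notMem k S
  have a0 := Nat.pos_of_dvd_of_pos (h1 x hx) (deg_pos x)
  obtain ⟨p, hp⟩ := CharP.exists k
  have := Fintype.ofFinite k
  obtain ⟨n, pp, hn⟩ := FiniteField.card k p
  have := charP_of_injective_algebraMap (algebraMap k K).injective p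
  have q1 := Nat.one_lt_pow a0.ne' (Finite.one_lt_card (α := k))
  set f : K[X] := X ^ Nat.card k ^ a.natAbs - X with hf
  have sp : f.Separable := galois_poly_separable p _ (dvd_pow (by
    rw [Nat.card_eq_fintype_card, hn]; exact dvd_pow_self _ n.ne_zero) a0.ne')
  have := IsGalois.of_separable_splitting_field (E := f.SplittingField) sp
  have := IsFF.ext k K f.SplittingField
  have := IsFF.pl k f.SplittingField
  have r : ∀ b ∈ f.rootSet f.SplittingField, b ^ Nat.card k ^ a.natAbs = b ∧ IsAlgebraic k b :=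
    fun b hb => by
      have : b ^ Nat.card k ^ a.natAbs - b = 0 := by simpa [hf] using aeval_eq_zero_of_mem_rootSet hb
      exact ⟨sub_eq_zero.mp this, by_contra fun c => frob_ne c q1 this⟩
  have s := split k (K' := f.SplittingField) S fun x hx y hy σ e => by
    obtain ⟨j, hj⟩ := hy.stab k e
    obtain ⟨i, hi⟩ := h1 x hx
    refine AlgEquiv.coe_toAlgHom_injective (AlgHom.ext_of_adjoin_eq_top
      (SplittingField.adjoin_rootSet f) fun b hb => sub_eq_zero.mp ?_)
    obtain ⟨b1, b2⟩ := r b hb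
    have := hj b (.alg b2)
    rw [hi, mul_assoc, pow_mul, show b ^ _ = b from
      (congrFun (pow_iterate _ _) b).symm.trans (Function.iterate_fixed b1 _)] at this
    exact eq_zero_of_neg ((b2.algHom (σ.restrictScalars k).toAlgHom).sub b2) this
  have := (Nat.card_eq_one_iff_unique.mp s).1
  have t : f.rootSet f.SplittingField ⊆ Set.range (algebraMap k _) := fun b hb => by
    obtain ⟨z, rfl⟩ := (IsGalois.mem_range_algebraMap_iff_fixed (F := K) b).mpr fun σ => by
      rw [Subsingleton.elim σ 1]; rfl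
    obtain ⟨c, rfl⟩ := hk.le (mem_algebraicClosure_iff.mpr
      ((isAlgebraic_algebraMap_iff (algebraMap K _).injective).mp (r _ hb).2))
    exact ⟨c, IsScalarTower.algebraMap_apply k K _ c⟩
  have u := (Nat.card_mono (Set.finite_range _) t).trans (Finite.card_range_le _)
  rw [Nat.card_eq_fintype_card, card_rootSet_eq_natDegree sp (SplittingField.splits f),
    FiniteField.X_pow_card_sub_X_natDegree_eq _ q1] at u
  have := (Nat.pow_le_pow_iff_right (Finite.one_lt_card (α := k))).mp (u.trans (pow_one _).ge)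
  omega

omit [Finite k] [Pl K] [IsFF k K] [FiniteDimensional K K'] [IsGalois K K'] [Pl K'] in
lemma geom_down (hk : algebraicClosure k K' = ⊥) : algebraicClosure k K = ⊥ :=
  eq_bot_iff.mpr fun z hz => by
    obtain ⟨c, hc⟩ := hk.le (mem_algebraicClosure_iff.mpr
      ((mem_algebraicClosure_iff.mp hz).algebraMap (A := K')))
    exact ⟨c, (algebraMap K K').injective ((IsScalarTower.algebraMap_apply k K K' c).symm.trans hc)⟩

open scoped IsMulCommutative in
theorem nondeg [IsMulCommutative Gal(K'/K)] (hk : algebraicClosure k K' = ⊥)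
    (hG : Nat.card Gal(K'/K) ≠ 1) (S : Finset (Place K)) (hS : ∀ x ∉ S, Unram K' x) :
    ∃ D : Dv K, (∀ x ∈ S, D x = 0) ∧ dg k D = 0 ∧ Psi (frob K') D ≠ 1 := by
  by_contra! c
  have := IsFF.ext k K K'
  obtain ⟨D, h1, h2⟩ := schmidt (geom_down (K := K) hk) S
  obtain ⟨S', hS'⟩ := ex_above (K' := K') S
  obtain ⟨D', h3, h4⟩ := schmidt hk S'
  have a : ∀ x ∉ S, frob K' x = Psi (frob K') D ^ deg k x := fun x hx => by
    have := c (single x 1 - (deg k x : ℤ) • D) (fun z hz => by
      simp [h1 z hz, single_eq_of_ne (show z ≠ x by rintro rfl; exact hx hz)]) (by simp [h2])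
    rwa [Psi_sub, Psi_smul, Psi_single, div_eq_one, zpow_one, zpow_natCast] at this
  have b : (orderOf (Psi (frob K') D) : ℤ) ∣ dg k D' := Finset.dvd_sum fun y hy => by
    have : under K y ∉ S := fun e => mem_support_iff.mp hy (h3 y ((hS' y).mpr e))
    refine Dvd.dvd.mul_left (Int.natCast_dvd_natCast.mpr (orderOf_dvd_of_pow_eq_one ?_)) _
    rw [(hS _ this).deg_eq (over_iff.mpr rfl), pow_mul, ← a _ this, pow_orderOf_eq_one]
  rw [h4, Int.natCast_dvd, Int.natAbs_one, Nat.dvd_one, orderOf_eq_one_iff] at b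
  refine hG (split k S fun x hx y hy σ e => ?_)
  obtain ⟨j, hj⟩ := hy.stab k e
  simpa [a x hx, b] using (hS x hx).unique hy hj ((hy.fr k).pow j)

end Pool.Agent.H46.FF
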