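import Pool.Agent.H46.FF.Recip
import Pool.Agent.H46.FF.Padic

set_option autoImplicit false

namespace Pool.Agent.H46.FF

open Finsupp IntermediateField
open scoped IsMulCommutative Polynomial PowerSeries PowerSeries.WithPiTopology

section
variable {G H : Type} [Group G] [Group H] [IsCyclic G] {p m n : ℕ} [Fact p.Prime]

lemma ex_gen (hG : Nat.card G = p ^ n) : ∃ γ : G, orderOf γ = p ^ n ∧ ∀ u, ∃ a : ℕ, γ ^ a = u := by
  have := Nat.finite_of_card_ne_zero (hG.trans_ne (NeZero.ne _))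
  obtain ⟨γ, h⟩ := IsCyclic.exists_monoid_generator (α := G)
  exact ⟨γ, (orderOf_eq_card_of_forall_mem_powers h).trans hG, h⟩

lemma cyc1 (hG : Nat.card G = p ^ n) (hH : Nat.card H = p ^ m) (h : m ≤ n) (r : G →* H) {u : G}
    (hu : u ^ p ^ (n - m) = 1) : r u = 1 := by
  obtain ⟨γ, h1, h2⟩ := ex_gen hG
  obtain ⟨a, rfl⟩ := h2 u
  rw [← pow_mul, ← orderOf_dvd_iff_pow_eq_one, h1, ← Nat.add_sub_cancel' h, pow_add,
    Nat.add_sub_cancel_left, Nat.mul_dvd_mul_iff_right (NeZero.pos _)] at hu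
  obtain ⟨b, rfl⟩ := hu
  rw [map_pow, pow_mul, ← hH, pow_card_eq_one', one_pow]

lemma cyc2 (hG : Nat.card G = p ^ n) {τ : G} (hτ : τ ^ p ^ (n - m) ≠ 1) (σ : G) :
    ∃ i : ℕ, τ ^ i = σ ^ p ^ m := by
  have := Nat.finite_of_card_ne_zero (hG.trans_ne (NeZero.ne _))
  obtain ⟨γ, h1, h2⟩ := ex_gen hG
  obtain ⟨a, rfl⟩ := h2 τ
  obtain ⟨c, rfl⟩ := h2 σ
  have pp : p.Prime := Fact.out
  obtain ⟨s, b, hb, rfl⟩ := Nat.exists_eq_pow_mul_and_not_dvd (n := a) (by rintro rfl; simp at hτ)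
    p pp.ne_one
  have hs : s ≤ m := by
    by_contra! c
    refine hτ ?_
    rw [← pow_mul, ← orderOf_dvd_iff_pow_eq_one, h1, mul_right_comm, ← pow_add]
    exact (pow_dvd_pow _ (by omega)).mul_right _
  have := (mem_zpowers_pow_iff (g := γ ^ p ^ s) (k := b)).mpr (Nat.Coprime.coprime_dvd_right
    (h1 ▸ orderOf_pow_dvd _) ((pp.coprime_iff_not_dvd.mpr hb).symm.pow_right n))
  obtain ⟨i, hi⟩ := mem_powers_iff_mem_zpowers.mpr this
  refine ⟨i * (c * p ^ (m - s)), ?_⟩
  rw [pow_mul, pow_mul γ, show _ ^ i = _ from hi, ← pow_mul, ← pow_mul, mul_left_comm, ← pow_add,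
    Nat.add_sub_cancel' hs]

lemma inj_of_orderOf {R : Type} [CommGroup R] (hG : Nat.card G = p ^ n) {χ : G →* R}
    (h : orderOf χ = p ^ n) : Function.Injective χ := by
  obtain ⟨γ, h1, h2⟩ := ex_gen hG
  refine (injective_iff_map_eq_one χ).mpr fun u hu => ?_
  obtain ⟨a, rfl⟩ := h2 u
  rw [← orderOf_dvd_iff_pow_eq_one, h1, ← h, orderOf_dvd_iff_pow_eq_one]
  ext u
  obtain ⟨b, rfl⟩ := h2 u
  rw [MonoidHom.pow_apply, ← map_pow, pow_right_comm, map_pow, hu, one_pow, MonoidHom.one_apply]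

end

lemma prod_char {R : Type} [CommRing R] [IsDomain R] {ω : R} {f : ℕ} (hω : IsPrimitiveRoot ω f)
    (hf : 0 < f) (T : R) (m : ℕ) :
    ∏ a ∈ Finset.range (m * f), (1 - ω ^ a * T) = (1 - T ^ f) ^ m := by
  induction m with
  | zero => simp
  | succ m ih =>
    have := congrArg (Polynomial.eval 1) (X_pow_sub_C_eq_prod hω hf (rfl : T ^ f = _))
    rw [add_mul, one_mul, Finset.prod_range_add, ih, pow_succ]
    simp_all [Polynomial.eval_prod, pow_add, mul_comm m, pow_mul, hω.pow_eq_one]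

variable {k K : Type} [Field k] [Field K] [Algebra k K] [Finite k] [Pl K] [IsFF k K]

lemma pd_mul {f g : K} (hf : f ≠ 0) (hg : g ≠ 0) : pd k (f * g) = pd k f + pd k g :=
  Finsupp.ext fun _ => lg_mul hf hg

lemma pic_fin {D : Dv K} (h : dg k D = 0) : ∃ j : ℤ, j ≠ 0 ∧ ∃ f ≠ 0, j • D = pd k f := by
  obtain ⟨γ, c, h1⟩ := riemann k K
  obtain ⟨x, -⟩ := ex_notMem k (∅ : Finset (Place K))
  let B : Dv K := single x (|c| + |γ| + 1)
  have b : ∀ m : ℤ, dg k (m • D + B) = dg k B ∧ c ≤ dg k B ∧ γ < dg k B := fun m => by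
    have : (1 : ℤ) ≤ deg k x := by exact_mod_cast deg_pos x
    simp only [map_add, map_smul, h, smul_zero, zero_add, B, dg_single, true_and]
    constructor <;> nlinarith [le_abs_self c, le_abs_self γ, abs_nonneg c, abs_nonneg γ]
  choose f h2 h3 using fun m : ℤ => Submodule.exists_mem_ne_zero_of_ne_bot
    (p := M k Set.univ (m • D + B)) fun e => by
      have := h1 (m • D + B) (by rw [(b m).1]; exact (b m).2.1)
      rw [ell, e, finrank_bot] at this
      have := b m; omega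
  obtain ⟨i, -, j, -, ne, e⟩ := Set.infinite_univ.exists_ne_map_eq_of_mapsTo
    (f := fun m => m • D + B - pd k (f m)) (fun m _ => Finset.mem_coe.mpr ((mem_E (U := Set.univ)).mpr
      ⟨sub_nonneg.mpr fun x => (bd_iff (h3 m)).mp (h2 m x trivial), by simp, by
        rw [map_sub, dg_pd, sub_zero, (b m).1]⟩)) (E k Set.univ (dg k B)).finite_toSet
  refine ⟨i - j, sub_ne_zero.mpr ne, f i * (f j)⁻¹, mul_ne_zero (h3 i) (inv_ne_zero (h3 j)), ?_⟩
  rw [pd_mul (h3 i) (inv_ne_zero (h3 j)), show pd k (f j)⁻¹ = -pd k (f j) from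
    Finsupp.ext fun _ => lg_inv, sub_smul]
  linear_combination (norm := abel) e

omit [IsFF k K] in
variable (k) in
include k in
lemma approx1 {x y : Place K} (h : x ≠ y) (w : K) (a b : ℤ) : ∃ z, Bd x a (z - w) ∧ Bd y b z := by
  classical
  obtain ⟨z, h1, h2⟩ := approx (sur_fin (k := k) {x, y} _) (single x (lg x w) + single y b)
    (single x (|lg x w - a| + 1)) (single_nonneg.mpr (by positivity))
    (fun z hz => single_eq_of_ne (by rintro rfl; simp at hz)) (w := w) le_rfl fun z hz => by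
      obtain rfl : z = x := by_contra fun e => hz (single_eq_of_ne e)
      simpa [single_eq_of_ne h] using Bd.lg
  refine ⟨z, (h2 x (by simp; positivity)).mono ?_, by simpa [single_eq_of_ne h.symm] using h1 y (by simp)⟩
  have := le_abs_self (lg x w - a)
  simp [single_eq_of_ne h]; omega

variable {K' : Type} [Field K'] [Algebra k K'] [Algebra K K'] [IsScalarTower k K K']
  [FiniteDimensional K K'] [IsGalois K K'] [Pl K'] [IsMulCommutative Gal(K'/K)]

theorem recip_unram {p n : ℕ} [Fact p.Prime] [CharP k p] (hG : ∀ g : Gal(K'/K), g ^ p ^ n = 1)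
    (hu : ∀ x : Place K, Unram K' x) {f : K} (f0 : f ≠ 0) : Psi (frob K') (pd k f) = 1 := by
  obtain ⟨x, -⟩ := ex_notMem k (∅ : Finset (Place K))
  obtain ⟨y, hy⟩ := ex_notMem k {x}
  rw [Finset.mem_singleton] at hy
  obtain ⟨c, -, h1⟩ := recip (k := k) hG (Finset.singleton_nonempty x) fun x _ => hu x
  obtain ⟨d, d0, h2⟩ := recip (k := k) hG (Finset.singleton_nonempty y) fun x _ => hu x
  simp only [Finset.mem_singleton, forall_eq] at h1 h2
  obtain ⟨z, a1, a2⟩ := approx1 k (Ne.symm hy) f (lg x f - c) (-d)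
  obtain ⟨w, b1, b2⟩ := approx1 k hy 1 (-d) (lg x f - c)
  have e := add_sub_assoc z w 1 ▸ a2.add b1
  have g0 := (lg_add (x := y) one_ne_zero (e.mono (by rw [lg_one]; omega))).1
  rw [add_sub_cancel] at g0
  have := h1 (f⁻¹ * (z + w)) (by
    rw [show f⁻¹ * (z + w) - 1 = f⁻¹ * (z - f + w) by field_simp; ring]
    exact (Bd.lg.mul (a1.add b2)).mono (by rw [lg_inv]; omega))
  rwa [pd_mul (inv_ne_zero f0) g0, Psi_add, h2 _ e, mul_one,
    show pd k f⁻¹ = -pd k f from Finsupp.ext fun _ => lg_inv, Psi_neg, inv_eq_one] at this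

theorem zeta_factor [IsFF k K'] {Ω : Type} [Field Ω] [TopologicalSpace Ω] [IsTopologicalRing Ω] [T2Space Ω]
    (U : Set (Place K)) (hU : ∀ x ∈ U, Unram K' x) (χ : Gal(K'/K) →* Ω)
    (hχ : Function.Injective χ) : Zeta k Ω {y : Place K' | under K y ∈ U} =
      ∏ a ∈ Finset.range (Nat.card Gal(K'/K)), Eul k U (frob K') (χ ^ a) := by
  refine (zeta_over U _ _ (fun x hx y hy => (hU x hx).deg_eq hy) fun _ _ => rfl).unique ?_
  convert hasProd_prod fun a (_ : a ∈ Finset.range (Nat.card Gal(K'/K))) =>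
    hasProd_eul k U (frob K') (χ ^ a) with x
  simp only [← inv_prod, ← (hU x x.2).card k, MonoidHom.pow_apply, map_pow]
  rw [prod_char (((IsPrimitiveRoot.orderOf _).map_of_injective hχ).map_of_injective
    PowerSeries.C_injective) (orderOf_pos _), ← pow_mul, ← Finset.card_range (Nat.card _),
    ← Finset.prod_const, ← Finset.prod_const, inv_prod]

end Pool.Agent.H46.FF
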