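import Pool.Agent.H46.FF.Basic

set_option autoImplicit false

namespace Pool.Agent.H46.FF

open IsLocalRing WithZero Polynomial IntermediateField Module

variable {k K : Type} [Field k] [Field K] [Algebra k K] [Pl K]

instance (x : Place K) : IsDiscreteValuationRing x.1 := Pl.dvr x
instance (x : Place K) : Finite (ResidueField x.1) := Pl.fin x

noncomputable def v (x : Place K) : Valuation K ℤᵐ⁰ :=
  (IsDiscreteValuationRing.maximalIdeal x.1).valuation K

def Bd (x : Place K) (m : ℤ) (f : K) : Prop := v x f ≤ exp m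

noncomputable def lg (x : Place K) (f : K) : ℤ := log (v x f)

variable {x y : Place K} {m n : ℤ} {f g : K}

lemma bd_zero : Bd x 0 f ↔ f ∈ x.1 :=
  ⟨fun h => by obtain ⟨a, rfl⟩ := IsDiscreteValuationRing.exists_lift_of_le_one h; exact a.2,
    fun h => (IsDiscreteValuationRing.maximalIdeal x.1).valuation_le_one (K := K) ⟨f, h⟩⟩

lemma bd_iff (h : f ≠ 0) : Bd x m f ↔ lg x f ≤ m :=
  (log_le_iff_le_exp ((v x).ne_zero_iff.mpr h)).symm

lemma Bd.zero : Bd x m 0 := by simp [Bd]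
lemma Bd.mono (h : Bd x m f) (hm : m ≤ n) : Bd x n f := h.trans (exp_le_exp.mpr hm)
lemma Bd.add (h : Bd x m f) (h' : Bd x m g) : Bd x m (f + g) := (v x).map_add_le h h'
lemma Bd.neg (h : Bd x m f) : Bd x m (-f) := by simpa [Bd] using h
lemma Bd.sub (h : Bd x m f) (h' : Bd x m g) : Bd x m (f - g) := (v x).map_sub_le h h'
lemma Bd.mul (h : Bd x m f) (h' : Bd x n g) : Bd x (m + n) (f * g) := by
  rw [Bd, map_mul, exp_add]; exact mul_le_mul' h h'
lemma Bd.mul0 (h : Bd x 0 f) (h' : Bd x n g) : Bd x n (f * g) := by simpa using h.mul h'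
lemma Bd.one : Bd x 0 1 := by simp [Bd]
lemma Bd.pow (h : Bd x m f) (j : ℕ) : Bd x (j * m) (f ^ j) := by
  induction j with
  | zero => simpa using Bd.one
  | succ j ih => simpa [pow_succ, add_mul] using ih.mul h
lemma Bd.sum {ι : Type*} {s : Finset ι} {u : ι → K} (h : ∀ i ∈ s, Bd x m (u i)) :
    Bd x m (∑ i ∈ s, u i) := (v x).map_sum_le h
lemma Bd.prod {ι : Type*} {s : Finset ι} {u : ι → K} (h : ∀ i ∈ s, Bd x 0 (u i)) :
    Bd x 0 (∏ i ∈ s, u i) := bd_zero.mpr (prod_mem fun i hi => bd_zero.mp (h i hi))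
lemma Bd.lg : Bd x (lg x f) f := le_exp_log
lemma Bd.alg [Finite k] (h : IsAlgebraic k f) : Bd x 0 f := bd_zero.mpr (alg_mem h _)
lemma Bd.const [Finite k] (c : k) : Bd x 0 (algebraMap k K c) := .alg (isAlgebraic_algebraMap c)
lemma Bd.smul [Finite k] (h : Bd x m f) (c : k) : Bd x m (c • f) := by
  rw [Algebra.smul_def]; exact (Bd.const c).mul0 h

lemma lg_mul (hf : f ≠ 0) (hg : g ≠ 0) : lg x (f * g) = lg x f + lg x g := by
  rw [lg, map_mul, log_mul ((v x).ne_zero_iff.mpr hf) ((v x).ne_zero_iff.mpr hg)]; rfl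
lemma lg_inv : lg x f⁻¹ = -lg x f := by rw [lg, map_inv₀, log_inv]; rfl
lemma lg_pow (j : ℕ) : lg x (f ^ j) = j * lg x f := by rw [lg, map_pow, log_pow]; simp [lg]
lemma lg_one : lg x 1 = 0 := by simp [lg]

lemma bd_mul_iff (hf : f ≠ 0) : Bd x m (f * g) ↔ Bd x (m - lg x f) g := by
  rcases eq_or_ne g 0 with rfl | hg
  · simp [Bd.zero]
  · rw [bd_iff (mul_ne_zero hf hg), bd_iff hg, lg_mul hf hg]; omega

lemma bd_neg_one : Bd x (-1) f ↔ f ∈ x.1.nonunits := by
  rw [ValuationSubring.mem_nonunits_iff_or]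
  rcases eq_or_ne f 0 with rfl | h
  · simp [Bd.zero]
  · rw [← bd_zero, bd_iff h, bd_iff (inv_ne_zero h), lg_inv]; simp only [h, false_or]; omega

lemma lg_add (hf : f ≠ 0) (h : Bd x (lg x f - 1) g) : f + g ≠ 0 ∧ lg x (f + g) = lg x f := by
  have : v x g < v x f := h.trans_lt (by
    rw [← exp_log ((v x).ne_zero_iff.mpr hf), exp_lt_exp]; exact sub_one_lt _)
  have e := (v x).map_add_eq_of_lt_left this
  exact ⟨fun z => hf (by rwa [z, map_zero, eq_comm, Valuation.zero_iff] at e), by rw [lg, e, lg]⟩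

lemma eq_zero_of_bd (h : ∀ j : ℕ, Bd x (-j) f) : f = 0 := by
  by_contra c
  have := (bd_iff c).mp (h ((lg x f).natAbs + 1))
  omega

lemma ex_pw (x : Place K) (m : ℤ) : ∃ z, z ≠ 0 ∧ lg x z = m := by
  obtain ⟨z, hz⟩ := (IsDiscreteValuationRing.maximalIdeal x.1).valuation_surjective K (exp m)
  exact ⟨z, (v x).ne_zero_iff.mp (by rw [v, hz]; simp), by rw [lg, v, hz, log_exp]⟩

noncomputable def pw (x : Place K) (m : ℤ) : K := (ex_pw x m).choose
lemma pw_ne : pw x m ≠ 0 := (ex_pw x m).choose_spec.1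
lemma lg_pw : lg x (pw x m) = m := (ex_pw x m).choose_spec.2

open Classical in
noncomputable def res (x : Place K) (f : K) : ResidueField x.1 :=
  if h : f ∈ x.1 then residue x.1 ⟨f, h⟩ else 0

lemma res_eq (h : Bd x 0 f) : res x f = residue x.1 ⟨f, bd_zero.mp h⟩ := dif_pos _
lemma res_add (h : Bd x 0 f) (h' : Bd x 0 g) : res x (f + g) = res x f + res x g := by
  rw [res_eq h, res_eq h', res_eq (h.add h'), ← map_add]; rfl
lemma res_sub (h : Bd x 0 f) (h' : Bd x 0 g) : res x (f - g) = res x f - res x g := by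
  rw [res_eq h, res_eq h', res_eq (h.sub h'), ← map_sub]; rfl
lemma res_mul (h : Bd x 0 f) (h' : Bd x 0 g) : res x (f * g) = res x f * res x g := by
  rw [res_eq h, res_eq h', res_eq (h.mul0 h'), ← map_mul]; rfl
lemma res_pow (h : Bd x 0 f) (j : ℕ) : res x (f ^ j) = res x f ^ j := by
  rw [res_eq h, res_eq (by simpa using h.pow j), ← map_pow]; rfl
lemma res_one : res x 1 = 1 := by rw [res_eq .one, ← map_one (residue x.1)]; rfl
lemma res_smul [Finite k] (h : Bd x 0 f) (c : k) : res x (c • f) = c • res x f := by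
  rw [res_eq h, res_eq (h.smul c), Algebra.smul_def c (residue _ _),
    IsScalarTower.algebraMap_apply k x.1 (ResidueField x.1), ResidueField.algebraMap_eq, ← map_mul]
  congr 2; exact Algebra.smul_def _ _
lemma res_eq_zero (h : Bd x 0 f) : res x f = 0 ↔ Bd x (-1) f := by
  rw [res_eq h, residue_eq_zero_iff, bd_neg_one, ← ValuationSubring.coe_mem_nonunits_iff]
lemma res_eq_res (h : Bd x 0 f) (h' : Bd x 0 g) : res x f = res x g ↔ Bd x (-1) (f - g) := by
  rw [← res_eq_zero (h.sub h'), res_sub h h', sub_eq_zero]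
lemma res_surj (c : ResidueField x.1) : ∃ f, Bd x 0 f ∧ res x f = c := by
  obtain ⟨a, rfl⟩ := residue_surjective c
  exact ⟨a, bd_zero.mpr a.2, res_eq (bd_zero.mpr a.2)⟩

theorem weak (T : Finset (Place K)) (y : Place K) (D : Place K → ℤ) {w : K} (hw : Bd y (D y) w) :
    ∃ z, Bd y (D y - 1) (z - w) ∧ ∀ x ∈ T, Bd x (D x) z := by
  classical
  let ab := fun x : Place K => (IsDiscreteValuationRing.maximalIdeal x.1).adicAbv (K := K)
    (b := 2) one_lt_two
  have l1 : ∀ x f, ab x f ≤ 1 ↔ Bd x 0 f := fun x f =>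
    (NNReal.coe_le_one).trans (WithZeroMulInt.toNNReal_le_one_iff one_lt_two)
  have l2 : ∀ x f, ab x f < 1 ↔ v x f < 1 := fun x f =>
    (NNReal.coe_lt_one).trans (WithZeroMulInt.toNNReal_lt_one_iff one_lt_two)
  obtain ⟨a, h1, h2⟩ := AbsoluteValue.exists_one_lt_lt_one_pi_of_not_isEquiv
    (v := fun x : ↥(insert y T) => ab x) (fun x => ⟨pw x.1 1, pw_ne, fun e => by
      have := (bd_iff pw_ne).mp ((l1 _ _).mp e.le); rw [lg_pw] at this; omega⟩)
    (fun x x' h e => h (Subtype.ext (Subtype.ext (SetLike.ext fun f => by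
      rw [← bd_zero, ← bd_zero, ← l1, ← l1, e.le_one_iff])))) ⟨y, T.mem_insert_self y⟩
  have a0 : a ≠ 0 := by rintro rfl; simp at h1; linarith
  rw [← not_le, l1, bd_iff a0] at h1
  obtain ⟨N, hN⟩ := (T.image fun x => (lg x w - D x).toNat).exists_le
  set b := a ^ (N + 1) with hb
  have b0 : b ≠ 0 := pow_ne_zero _ a0
  have lb : ∀ x, lg x b = (N + 1 : ℕ) * lg x a := fun x => lg_pow _
  obtain ⟨c0, c1⟩ := lg_add (x := y) b0 (g := 1) (Bd.one.mono (by rw [lb]; push_cast; nlinarith))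
  have k1 : Bd y (D y - 1) (w * (b * (b + 1)⁻¹) - w) := by
    rw [show w * (b * (b + 1)⁻¹) - w = -((b + 1)⁻¹ * w) by field_simp; ring]
    refine ((bd_mul_iff (inv_ne_zero c0)).mpr (hw.mono ?_)).neg
    rw [lg_inv, c1, lb]; push_cast; nlinarith
  refine ⟨_, k1, fun x hx => ?_⟩
  by_cases e : x = y
  · subst e; simpa using (k1.mono (by omega)).add hw
  have h3 := (log_lt_iff_lt_exp ((v x).ne_zero_iff.mpr a0)).mpr ((l2 _ _).mp
    (h2 ⟨x, Finset.mem_insert_of_mem hx⟩ fun h => e (congrArg Subtype.val h)))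
  change lg x a < 0 at h3
  have h4 := hN _ (Finset.mem_image_of_mem _ hx)
  have h5 : lg x b ≤ -(N + 1) := by rw [lb]; push_cast; nlinarith
  obtain ⟨-, d1⟩ := lg_add (x := x) one_ne_zero (g := b) (Bd.lg.mono (by rw [lg_one]; omega))
  rw [mul_comm, bd_mul_iff (mul_ne_zero b0 (inv_ne_zero c0)), lg_mul b0 (inv_ne_zero c0), lg_inv,
    add_comm b, d1, lg_one]
  exact Bd.lg.mono (by omega)

variable [Finite k]

lemma card_res (x : Place K) :
    Nat.card (ResidueField x.1) = Nat.card k ^ finrank k (ResidueField x.1) :=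
  Module.natCard_eq_pow_finrank

lemma deg_eq (x : Place K) : deg k x = finrank k (ResidueField x.1) := by
  rw [deg, card_res (k := k), Nat.log_pow Finite.one_lt_card]

lemma card_deg (x : Place K) : Nat.card (ResidueField x.1) = Nat.card k ^ deg k x := by
  rw [deg_eq, card_res (k := k)]

lemma deg_pos (x : Place K) : 0 < deg k x := by rw [deg_eq]; exact finrank_pos

lemma pow_fix (x : Place K) (j : ℕ) :
    (∀ c : ResidueField x.1, c ^ Nat.card k ^ j = c) ↔ deg k x ∣ j := by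
  have := Fintype.ofFinite (ResidueField x.1)
  have q1 : 1 < Nat.card k := Finite.one_lt_card
  refine ⟨fun h => ?_, fun ⟨i, e⟩ c => ?_⟩
  · have := (FiniteField.forall_pow_eq_one_iff (ResidueField x.1) (Nat.card k ^ j - 1)).mp
      fun u => Units.ext (mul_right_cancel₀ u.ne_zero (by
        rw [Units.val_pow_eq_pow_val, ← pow_succ, Nat.sub_add_cancel (Nat.one_le_pow _ _ (by omega)),
          h, Units.val_one, one_mul]))
    rw [← Nat.card_eq_fintype_card, card_deg (k := k), ← Nat.gcd_eq_left_iff_dvd,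
      Nat.pow_sub_one_gcd_pow_sub_one, tsub_left_inj (Nat.one_le_pow _ _ (by omega))
      (Nat.one_le_pow _ _ (by omega)), Nat.pow_right_inj q1] at this
    exact Nat.gcd_eq_left_iff_dvd.mp this
  · rw [e, pow_mul, ← card_deg, Nat.card_eq_fintype_card, FiniteField.pow_card_pow]

noncomputable def rho (W : Submodule k K) (x : Place K) (m : ℤ) (h : ∀ f ∈ W, Bd x m f) :
    W →ₗ[k] ResidueField x.1 :=
  have b : ∀ f : W, Bd x 0 (pw x (-m) * f) := fun f =>
    (bd_mul_iff pw_ne).mpr (by simpa [lg_pw] using h f f.2)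
  { toFun f := res x (pw x (-m) * f)
    map_add' f g := by rw [← res_add (b f) (b g), ← mul_add]; rfl
    map_smul' c f := by rw [RingHom.id_apply, ← res_smul (b f), ← mul_smul_comm]; rfl }

lemma rho_eq_zero {W : Submodule k K} {h : ∀ f ∈ W, Bd x m f} (f : W) :
    rho W x m h f = 0 ↔ Bd x (m - 1) f := by
  refine (res_eq_zero ((bd_mul_iff pw_ne).mpr (by simpa [lg_pw] using h f f.2))).trans ?_
  rw [bd_mul_iff pw_ne, lg_pw, show -1 - -m = m - 1 by ring]

lemma rho_surj {W : Submodule k K} {h : ∀ f ∈ W, Bd x m f} :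
    Function.Surjective (rho W x m h) ↔ ∀ w, Bd x m w → ∃ z ∈ W, Bd x (m - 1) (z - w) := by
  have b : ∀ f, Bd x m f → Bd x 0 (pw x (-m) * f) := fun f hf =>
    (bd_mul_iff pw_ne).mpr (by simpa [lg_pw] using hf)
  have e : ∀ (z : W) w, Bd x m w →
      (rho W x m h z = res x (pw x (-m) * w) ↔ Bd x (m - 1) (z - w)) := fun z w hw => by
    refine (res_eq_res (b _ (h _ z.2)) (b _ hw)).trans ?_
    rw [← mul_sub, bd_mul_iff pw_ne, lg_pw, show -1 - -m = m - 1 by ring]
  refine ⟨fun s w hw => ?_, fun s c => ?_⟩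
  · obtain ⟨z, hz⟩ := s (res x (pw x (-m) * w))
    exact ⟨z, z.2, (e z w hw).mp hz⟩
  · obtain ⟨f, hf, rfl⟩ := res_surj c
    have : Bd x m ((pw x (-m))⁻¹ * f) :=
      (bd_mul_iff (inv_ne_zero pw_ne)).mpr (by simpa [lg_inv, lg_pw] using hf)
    obtain ⟨z, hz, h'⟩ := s _ this
    exact ⟨⟨z, hz⟩, by rw [(e ⟨z, hz⟩ _ this).mpr h', mul_inv_cancel_left₀ pw_ne]⟩

end Pool.Agent.H46.FF
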